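import Pool.Agent.Lib.MP_830418_an.Full60.Defs

/-!
Statements of the pieces of the case of powers (Theorem 4).  Every docstring contains the complete
informal proof.  `A = Am p m c` (the adjoint of `U = Um p m c`), `L = 2^M`.
Basic facts are proved in `Full60/Basic.lean` (import it).
-/

open Finset

namespace Pool.Agent.UC

open Pool.Agent.PC Pool.Agent.Rich

universe u

/-- `rep`: everything is given by matrices.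
Proof. `Flat/P_rep1.lean` (`p_rep1 : S_rep1`) gives `Rep (tr g) (tr g⁻¹)`, `Rep (Rop u c) (Rad u c)`, `Rep 0 0`,
closure of `Rep` under sums, real scalars and compositions (adjoints in the reverse order).
(1) `Rep (Rn p c) (Rs p c)`; by induction on `m`: `Rep (Um p m c) (Am p m c)` (`Rep id id` is `tr 1`);
`Rep (U^n) (A^n)` (`pow_succ`, `pow_succ'`; powers commute); `Rep (Dn U M) (Dn A M)` (finite sums).
(2) `Rep22` is closed under composition: `T T'` with adjoints `T'' T'''` in the reverse order (insert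
`id = inl ∘ fst + inr ∘ snd` in the middle: every block is a sum of two products of blocks).
`Rep22 (Jn p S) (Js p A)` if `Rep S A` (blocks `k0 • 1, k0 • S, k0 • 1, -k0 • S`; `k0` is a real scalar),
`Rep22 (S.prodMap S) (A.prodMap A)`, so `Rep22 (Jc p U s) (Jcs p A s)`, `Rep22 (Tn ..) (Ts ..)`, `Rep22 (tr2 b) (tr2 b⁻¹)`.
(3) `Rep2 F F'` and `Rep22 T T'` give `Rep2 (F.comp T) (T'.comp F')`; `Rep2` is closed under sums;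
`Rep2 (Df U M) (Dfs A M)`.  Induction on the list. -/
def S_rep : Prop := ∀ (p : ℝ) (G : Type u) [Group G] (m : ℕ) (c : Fin m → G) (g : G) (M : ℕ)
    (bs : List G),
    Rep2 (F2 (Tn p (Um p m c) g M) (Df (Um p m c) M) bs)
      (Fs2 (Ts p (Am p m c) g M) (Dfs (Am p m c) M) bs)

/-- `up`: the dissipation inequality for `T` (from `DS.diss`, helper60 does this one).
Proof. `DS.diss` with `ι = Fin 2`, `S s := S^(2^s)`, `P := S^(2^M)`, `W s := {S^h : h + 2^s ≤ 2^M}`,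
`z0 = z.1`, `z1 = tr g z.2`. -/
def S_up : Prop := ∀ (p : ℝ), 1 < p → p < 2 → ∀ (G : Type u) [Group G]
    (S : Module.End ℂ (Vec G 2)), (∀ φ, FS φ → FS (S φ)) → (∀ φ, FS φ → nrm p (S φ) ≤ nrm p φ) →
    ∀ (g : G) (M : ℕ) (z : E G), FS2 z →
    FS2 (Tn p S g M z) ∧ nr2 p (Tn p S g M z) ≤ nr2 p z ∧
    nrm p (Df S M z) ≤ 2 ^ (p - 1) * (2 ^ M * nr2 p z +
      DS.Cp p * ((2 : ℝ) ^ M) ^ p * (nr2 p z - nr2 p (Tn p S g M z)))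

/-- `chn`: the upper bound for the chain; copy of `Flat/P_chain.lean` with pairs.
Proof. `z_0 = z`, `z_{k+1} = T (b_k z_k)`, `F z = ∑_k D (b_k z_k)`; by the hypotheses
`nrm p (D (b_k z_k)) ≤ a nr2 z_k + b (nr2 z_k - nr2 z_{k+1})` and `nr2 z_{k+1} ≤ nr2 z_k` (`nr2 (tr2 b z) = nr2 z`), so the
sum of the `nrm p (D (b_k z_k))` is at most `(K a + b) nr2 z`; `S_hold` (`Flat/P_hold.lean`: `p_hold`) finishes. -/
def S_chn : Prop := ∀ (p : ℝ), 1 < p → ∀ (G : Type u) [Group G] (T : E G →ₗ[ℂ] E G)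
    (D : E G →ₗ[ℂ] Vec G 2) (a b : ℝ), 0 ≤ a → 0 ≤ b →
    (∀ z, FS2 z → FS2 (T z)) → (∀ z, FS2 z → FS (D z)) →
    (∀ z, FS2 z → nr2 p (T z) ≤ nr2 p z) →
    (∀ z, FS2 z → nrm p (D z) ≤ a * nr2 p z + b * (nr2 p z - nr2 p (T z))) →
    ∀ (bs : List G) (z : E G), FS2 z →
    nrm p (F2 T D bs z) ≤ (bs.length : ℝ) ^ (p - 1) * ((bs.length : ℝ) * a + b) * nr2 p z

/-- `sgl`: the value of `A^r ψ` at a point which only one word sees.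
Proof. (0) One letter: by `Rs_apply`, if `ψ (d * x) = 0` for the `d ∈ {1, c}` different from `d₀` and `ψ` has at most one nonzero
component at `d₀ x`, then `Rs p c ψ x` has only the component `0` (if `d₀ = 1`), resp. `1` (if `d₀ = c`), not zero, and its absolute
value is `2^(-1/p)` times the sum of the absolute values of the (at most one nonzero) components of `ψ (d₀ x)`, so
`mas p (Rs ψ) x = (1/2) mas p ψ (d₀ x)`.  Here the letter is chosen by a Boolean `b`: `d₀ = if b then c else 1`.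
(1) One pass, induction on `m`: `Am p (m+1) c ψ x = Am p m (c ∘ succ) (Rs (c 0) ψ) x`; words `v' : Fin m → Bool` of the tail: for
`v' ≠ w ∘ succ` both `ψ (pv (c ∘ succ) v' * x)` and `ψ (c 0 * pv .. v' * x)` vanish (`v = Fin.cons b v'`, `List.ofFn_succ`), so `Rs (c 0) ψ` vanishes at
`pv (c ∘ succ) v' * x`; at `y = pv (c ∘ succ) (w ∘ succ) * x` use (0) with `b = w 0`.
(2) Support of one pass: `Am p m c ψ x ≠ 0 → ∃ v, ψ (pv c v * x) ≠ 0` (same induction).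
(3) `r` passes, induction on `r`: `A^(r+1) ψ = A^r (A ψ)`; `A ψ` vanishes at `wval c v' * x` for `v' ≠ w ∘ succ` by (2)
(`wval c (Fin.cons S v') = pv c S * wval c v'`), and at `wval c (w ∘ succ) * x` use (1) with the pass `w 0`. -/
def S_sgl : Prop := ∀ (p : ℝ), 0 < p → ∀ (G : Type u) [Group G] (m : ℕ) (c : Fin m → G) (r : ℕ)
    (ψ : Vec G 2) (x : G) (w : Fin r → Fin m → Bool),
    (∀ v : Fin r → Fin m → Bool, v ≠ w → ψ (wval c v * x) = 0) →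
    (∀ i j, i ≠ j → ψ (wval c w * x) i = 0 ∨ ψ (wval c w * x) j = 0) →
    (∀ i j, i ≠ j → ((Am p m c) ^ r) ψ x i = 0 ∨ ((Am p m c) ^ r) ψ x j = 0) ∧
    mas p (((Am p m c) ^ r) ψ) x = (1 / 2) ^ (m * r) * mas p ψ (wval c w * x)

/-- `cut`: the good part of `A^r χ`.
Proof. Let `Q` be the support of `χ` (finite).  The map `(t, q) ↦ (wval t)⁻¹ q` is injective on `T × Q`: if `(wval t)⁻¹ q = (wval s)⁻¹ q'`
then `wval s * (wval t)⁻¹ * q = q'`, where `χ` is not zero, so `s = t`, `q = q'`.  At `x = (wval t)⁻¹ q` apply `S_sgl` with `w = t`: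
`χ (wval v * x) = χ (wval v * (wval t)⁻¹ * q) = 0` for `v ≠ t`, and `wval t * x = q`.  So `A^r χ` has at most one nonzero component at `x`
and `mas p (A^r χ) x = (1/2)^(m r) mas p χ q`.  Sum over the image of `T × Q` (a finset containing the support of the
cut function): the first claim, with `nrm p χ = ∑_{q ∈ Q} mas p χ q`.  `nrm p φ = nrm p (cut X φ) + nrm p (cut Xᶜ φ)` (`nrm_cut`), and
`nrm p (A^r χ) ≤ nrm p χ` (`Am_pow_le`): the last claim. -/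
def S_cut : Prop := ∀ (p : ℝ), 1 < p → p < 2 → ∀ (G : Type u) [Group G] (m : ℕ) (c : Fin m → G)
    (r : ℕ) (T : Finset (Fin r → Fin m → Bool)) (χ : Vec G 2), FS χ → SC χ →
    (∀ t ∈ T, ∀ s : Fin r → Fin m → Bool, s ≠ t → ∀ q, χ q ≠ 0 →
      χ (wval c s * (wval c t)⁻¹ * q) = 0) →
    nrm p (cut (pts c T (Function.support χ)) (((Am p m c) ^ r) χ)) =
      T.card * (1 / 2) ^ (m * r) * nrm p χ ∧
    SC (cut (pts c T (Function.support χ)) (((Am p m c) ^ r) χ)) ∧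
    nrm p (cut (pts c T (Function.support χ))ᶜ (((Am p m c) ^ r) χ)) ≤
      (1 - T.card * (1 / 2) ^ (m * r)) * nrm p χ

/-- `exp`: the expansion of `T^*`.
Proof. Claim, by induction on `M`: there are signs such that with `w = Jcs p A M z`
`w.1 + w.2 = k^M • ∑_{j<2^M} A^j (α_j z.1 + β_j z.2)`, `w.1 - w.2 = k^M • ∑_{j<2^M} A^j (α'_j z.1 + β'_j z.2)` for all `z` (`k = k0 p`).
`M = 0`: `Jcs = id`, `α_0 = β_0 = α'_0 = 1`, `β'_0 = -1`.  `Jcs (M+1) z = Jcs M (Js (A^(2^M)) z)` and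
`Js (A^(2^M)) z = (k (z.1 + z.2), k A^(2^M) (z.1 - z.2))`; so the first sum is
`k^M ∑_{j<2^M} A^j (α_j k (z.1 + z.2) + β_j k A^(2^M) (z.1 - z.2)) =
k^(M+1) (∑_{j<2^M} A^j (α_j z.1 + α_j z.2) + ∑_{j<2^M} A^(2^M+j) (β_j z.1 - β_j z.2))`: new coefficients `α_j, α_j` at `j < 2^M`
and `β_j, -β_j` at `2^M + j` (`Finset.sum_range_add`-like splitting of `range (2^(M+1))`).  The same for the difference.
Finally `Ts z = Js (tr g⁻¹) w = (k (w.1 + w.2), k tr g⁻¹ (w.1 - w.2))` with `w = Jcs p A M (A^L z.1, A^L z.2)`, `L = 2^M`. -/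
def S_exp : Prop := ∀ (p : ℝ) (G : Type u) [Group G] (A : Module.End ℂ (Vec G 2)) (g : G) (M : ℕ),
    ∃ α β α' β' : ℕ → ℂ, (∀ j, (α j = 1 ∨ α j = -1) ∧ (β j = 1 ∨ β j = -1) ∧
      (α' j = 1 ∨ α' j = -1) ∧ (β' j = 1 ∨ β' j = -1)) ∧
    ∀ z : E G, Ts p A g M z =
      (k0 p ^ (M + 1) • ∑ j ∈ range (2 ^ M), (A ^ (2 ^ M + j)) (α j • z.1 + β j • z.2),
        tr g⁻¹ (k0 p ^ (M + 1) • ∑ j ∈ range (2 ^ M),
          (A ^ (2 ^ M + j)) (α' j • z.1 + β' j • z.2)))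

/-- `gen`: generic translates.
Proof. `n3` with `r = r' = 0` says `NonFC g`, so `G` is infinite.  `Q = {x | b x ∈ P}`.  By `S_neu` (`Flat/P_neu.lean`: `p_neu`) choose `b` with
`b t b⁻¹ ∉ {q' q⁻¹ : q, q' ∈ P}` for the finitely many (NonFC) elements `t = wval s * (wval t)⁻¹` (pairs in `n1`, `n2`, passes `≤ J`) and
`t = wval s * g * (wval t)⁻¹` (`n3`), and `b` outside the finite set of the `q y⁻¹ (wval t)⁻¹`, `q y⁻¹ g⁻¹ (wval t)⁻¹` (`q ∈ P, y ∈ Y`, `t` any word).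
`g1`: `q₁ = b q ∈ P`; if `b wval s (wval t)⁻¹ q ∈ P` then `b (wval s (wval t)⁻¹) b⁻¹ q₁ ∈ P`.
`g2`: `(wval t)⁻¹ q = (wval s)⁻¹ q'` with `b q, b q' ∈ P` gives `wval s (wval t)⁻¹ q = q'`, i.e. `b (wval s (wval t)⁻¹) b⁻¹ (b q) = b q'`.
`g3`: `g (wval t)⁻¹ q = (wval s)⁻¹ q'` gives `b (wval s g (wval t)⁻¹) b⁻¹ (b q) = b q'`.
`g4`: `y = (wval t)⁻¹ q`, `q₁ = b q`: `b = q₁ q⁻¹ = q₁ y⁻¹ (wval t)⁻¹`.  `g5`: `g y = (wval t)⁻¹ q`: `b = q₁ (g y)⁻¹ (wval t)⁻¹ = q₁ y⁻¹ g⁻¹ (wval t)⁻¹`.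
(The set of all words with at most `J` passes is finite.) -/
def S_gen : Prop := ∀ (G : Type u) [Group G] (m : ℕ) (c : Fin m → G) (g : G) (J : ℕ) (ε : ℝ)
    (T : (r : ℕ) → Finset (Fin r → Fin m → Bool)), Data c g J ε T →
    ∀ P Y : Set G, P.Finite → Y.Finite → ∃ b : G, Gen c g J T {x | b * x ∈ P} Y

/-- the step property -/
def Step {G : Type u} [Group G] (p : ℝ) (T' : E G →ₗ[ℂ] E G) (ε κ : ℝ) : Prop :=
  ∀ Ψ : E G, FS2 Ψ → SC2 Ψ → ∀ Y : Set G, Y.Finite → ∃ (b : G) (Γ B : E G),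
    FS2 Γ ∧ FS2 B ∧ SC2 Γ ∧ (∀ y ∈ Y, Γ.1 y = 0 ∧ Γ.2 y = 0) ∧ T' (tr2 b⁻¹ Ψ) = Γ + B ∧
    (1 - ε) * nr2 p Ψ ≤ nr2 p Γ ∧ nr2 p Γ ≤ nr2 p Ψ ∧ nr2 p B ≤ κ * nr2 p Ψ

/-- `stp`: the step lemma.
Proof. `b` from `S_gen` with `P` = the union of the supports of `Ψ.1`, `Ψ.2`, and `Y`; `Q = {x | b x ∈ P}` is the union of the
supports of the two components of `z = tr2 b⁻¹ Ψ` (`tr b⁻¹ φ x = φ (b x)`), `nr2 z = nr2 Ψ =: N₀`, `SC2 z`.  `L = 2^M`, `k = k0 p`, `‖k‖^p = 1/2`.  `S_exp`: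
`T^* z = (k^(M+1) ∑_{j<L} A^(L+j) χ_j, tr g⁻¹ (k^(M+1) ∑_{j<L} A^(L+j) χ'_j))` with `χ_j = α_j z.1 + β_j z.2`, `χ'_j` similarly.  Because of `SC2 z` and the
signs, `χ_j` is `SC`, its support is exactly `Q`, and `nrm p χ_j = nr2 z = N₀`; the same for `χ'_j`.  `X_r = pts c (T r) Q`, `θ_r = |T r| (1/2)^(m r) ∈ [1-ε, 1]`
(`Data.card`; `|T r| ≤ 2^(m r)` is the number of all words).  `g1` is the hypothesis of `S_cut`.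
`Γ = (k^(M+1) ∑_j cut X_{L+j} (A^(L+j) χ_j), tr g⁻¹ (k^(M+1) ∑_j cut X_{L+j} (A^(L+j) χ'_j)))`, `B` = the same with `cut (X_{L+j})ᶜ`
(`cut X φ + cut Xᶜ φ = φ`).  The `X_{L+j}` are disjoint (`g2`), so (`nrm_sum_disj`) `nrm Γ.1 = 2^(-(M+1)) ∑_j θ_{L+j} N₀`, the same for `Γ.2` (`nrm_tr`), so
`nr2 Γ = 2^(-M) ∑_{j<L} θ_{L+j} N₀ ∈ [(1-ε) N₀, N₀]`.  `SC2 Γ`: at `x` at most one summand of `Γ.1` is not zero and it is `SC`; `Γ.1 x ≠ 0` means `x ∈ X_r`,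
`Γ.2 x ≠ 0` means `g x ∈ X_r'` (`tr g⁻¹ φ x = φ (g x)`), excluded by `g3`.  `g4`, `g5`: `Γ = 0` on `Y`.
`nr2 B ≤ 2^(-(M+1)) * 2 * L^(p-1) ∑_{j<L} (1-θ_{L+j}) N₀ ≤ L^(p-1) ε N₀` (`nrm_sum_le`). -/
def S_stp : Prop := ∀ (p : ℝ), 1 < p → p < 2 → ∀ (G : Type u) [Group G] (m : ℕ) (c : Fin m → G)
    (g : G) (J : ℕ) (ε : ℝ) (T : (r : ℕ) → Finset (Fin r → Fin m → Bool)), Data c g J ε T →
    0 ≤ ε → ∀ M : ℕ, 2 * 2 ^ M ≤ J →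
    Step p (Ts p (Am p m c) g M) ε (((2 : ℝ) ^ M) ^ (p - 1) * ε)

open Classical in
/-- `δ_1` in the component `0` -/
noncomputable def dl (G : Type u) [Group G] : Vec G 2 := fun x i => if x = 1 ∧ i = 0 then 1 else 0

/-- the test vector `∑_{i < 2L} A^i δ` -/
noncomputable def tst {G : Type u} [Group G] (A : Module.End ℂ (Vec G 2)) (M : ℕ) : Vec G 2 :=
  ∑ i ∈ range (2 * 2 ^ M), (A ^ i) (dl G)

/-- `tv`: the test vector.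
Proof. `δ = dl G` has support `{1}`, it is `SC`, `nrm p δ = 1`.  `X_r = pts c (T r) {1}` = the points `(wval t)⁻¹`.  The hypothesis of `S_cut` for `χ = δ`: for `t ∈ T r`, `s ≠ t`:
`wval s (wval t)⁻¹ ≠ 1` (a `NonFC` element is not `1`: `PC.nonFC_ne_one` in `Flat/Asm.lean`).  So with `θ_r = |T r| (1/2)^(m r) ∈ [1-ε, 1]`: `nrm (cut X_r (A^r δ)) = θ_r`,
`nrm (cut X_rᶜ (A^r δ)) ≤ 1 - θ_r ≤ ε`, and `X_r, X_r'` are disjoint for `r ≠ r'` (`n2`).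
`Dn A M (tst A M) = ∑_{j<L} ∑_{i<2L} A^(i+j) δ = ∑_{r<3L} n_r A^r δ`, `n_r = #{(j, i) : j < L, i < 2L, i + j = r} ≤ L` (`Finset.sum_fiberwise`), and `n_r = L` for
`L ≤ r < 2L` (all `j < L` occur).  `hg = ∑_{r<3L} n_r cut X_r (A^r δ)`, `hb = ∑_{r<3L} n_r cut X_rᶜ (A^r δ)`.
`nrm hg = ∑ n_r^p θ_r` (disjoint supports), so it is `≥ ∑_{L≤r<2L} L^p (1-ε) = (1-ε) L^(p+1)` and `≤ 3L * L^p`; `SC hg` as at each point at most one summand is not `0`.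
`nrm hb ≤ (3L)^(p-1) ∑_{r<3L} n_r^p (1-θ_r) ≤ (3L)^(p-1) (3L) L^p ε`.
`nrm (tst) ≤ 2^(p-1) (∑_{i<2L} θ_i + (2L)^(p-1) ∑_{i<2L} (1-θ_i)) ≤ 2 (2L + (2L)^p ε)` (split every summand into the two parts; `nrm_quasi`). -/
def S_tv : Prop := ∀ (p : ℝ), 1 < p → p < 2 → ∀ (G : Type u) [Group G] (m : ℕ) (c : Fin m → G)
    (g : G) (J : ℕ) (ε : ℝ) (T : (r : ℕ) → Finset (Fin r → Fin m → Bool)), Data c g J ε T →
    0 ≤ ε → ε ≤ 1 → ∀ M : ℕ, 3 * 2 ^ M ≤ J → ∃ hg hb : Vec G 2, FS hg ∧ FS hb ∧ SC hg ∧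
    Dn (Am p m c) M (tst (Am p m c) M) = hg + hb ∧
    (1 - ε) * ((2 : ℝ) ^ M) ^ (p + 1) ≤ nrm p hg ∧ nrm p hg ≤ 3 * ((2 : ℝ) ^ M) ^ (p + 1) ∧
    nrm p hb ≤ (3 * (2 : ℝ) ^ M) ^ p * ((2 : ℝ) ^ M) ^ p * ε ∧
    FS (tst (Am p m c) M) ∧
    nrm p (tst (Am p m c) M) ≤ 2 * (2 * (2 : ℝ) ^ M + (2 * (2 : ℝ) ^ M) ^ p * ε)

/-- `lwr`: the lower bound for the adjoint chain.
Proof. Claim by induction on `K ≥ 1`: there are `bs` of length `K - 1` and `Ψ, B` (FS2, `SC2 Ψ`) with `D' ξ + T' (Fs2 T' D' bs ξ) = Ψ + B`,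
`K (1-ε)^K nr2 hg ≤ nr2 Ψ ≤ K nr2 hg`, `nr2 B ≤ 4^K (nr2 hb + κ K nr2 hg)`.
`K = 1`: `bs = []`, `Ψ = hg`, `B = hb`.  Step: let `Y` be the union of the supports of the components of `hg`; `Step` gives `b, Γ, B₁` for `Ψ`.  With `b :: bs`:
`Fs2 (b :: bs) ξ = tr2 b⁻¹ (Ψ + B)`, so `D' ξ + T' (..) = (hg + Γ) + (hb + B₁ + T' (tr2 b⁻¹ B))`.  `hg + Γ` is `SC2` (at each point one of the two is `0`) and
`nr2 (hg + Γ) = nr2 hg + nr2 Γ`, which lies between `nr2 hg + (1-ε) K (1-ε)^K nr2 hg ≥ (K+1) (1-ε)^(K+1) nr2 hg` and `(K+1) nr2 hg`.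
`nr2 (x + y + z) ≤ 3 (nr2 x + nr2 y + nr2 z)` (pointwise power mean, `3^(p-1) ≤ 3`), `nr2 (T' (tr2 b⁻¹ B)) ≤ nr2 B`, `nr2 B₁ ≤ κ K nr2 hg`; and
`3 (X + 4^K X) ≤ 4^(K+1) X` with `X = nr2 hb + κ (K+1) nr2 hg ≥ 0` (`3 ≤ 4^K`).
Finally for any `b`, e.g. `b = 1`: `Fs2 (b :: bs) ξ = tr2 b⁻¹ (Ψ + B)`, `nr2 Ψ ≤ 2^(p-1) (nr2 (Ψ + B) + nr2 B) ≤ 2 (..)`, so `nr2 (Ψ + B) ≥ nr2 Ψ / 2 - nr2 B`. -/
def S_lwr : Prop := ∀ (p : ℝ), 1 < p → p < 2 → ∀ (G : Type u) [Group G] (T' : E G →ₗ[ℂ] E G)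
    (D' : Vec G 2 →ₗ[ℂ] E G) (ε κ : ℝ), 0 ≤ ε → ε ≤ 1 → 0 ≤ κ →
    (∀ z, FS2 z → FS2 (T' z)) → (∀ z, FS2 z → nr2 p (T' z) ≤ nr2 p z) → Step p T' ε κ →
    ∀ (ξ : Vec G 2) (hg hb : E G), D' ξ = hg + hb → FS2 hg → FS2 hb → SC2 hg →
    ∀ K : ℕ, 1 ≤ K → ∃ bs : List G, bs.length = K ∧
      K * (1 - ε) ^ K * nr2 p hg / 2 - 4 ^ K * (nr2 p hb + κ * K * nr2 p hg) ≤
        nr2 p (Fs2 T' D' bs ξ)

/-- `nmu`: numbers (`L = 2^M`).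
Proof. `a₁ = 2^(p-1) (1 + Cp p)`.  Choose `K ≥ 1` with `K^(2-p) > 8 * 48 * R * a₁ + 1` or so, then `M` with `L^(p-1) ≥ K`, then `ε` small (depending on `K`, `L`).
Left side: `K * 2^(p-1) L + 2^(p-1) Cp L^p ≤ a₁ L^p` (`K L ≤ L^p`), so it is `≤ 8 R K^(p-1) a₁ L^p * 2 (2L + (2L)^p ε) ≤ 8 R K^(p-1) a₁ L^p * 6 L` if `(2L)^p ε ≤ 1 ≤ L`.
Right side: `h ≥ (1-ε) L^(p+1)` and `(1-ε)^(K+1) ≥ 1 - (K+1) ε ≥ 1/2`, so the first term is `≥ K L^(p+1) / 4`; the subtracted term is at most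
`4^K ((3L)^p L^p ε + L^(p-1) ε K 3 L^(p+1))`, which is `≤ K L^(p+1) / 8` for `ε` small.  So the right side is `≥ K L^(p+1) / 8`, and
`K / 8 > 48 R K^(p-1) a₁` by the choice of `K`. -/
def S_nmu : Prop := ∀ (p : ℝ), 1 < p → p < 2 → ∀ R : ℝ, 0 ≤ R → ∃ (K M : ℕ) (ε : ℝ),
    0 < ε ∧ ε ≤ 1 ∧ 1 ≤ K ∧ ∀ h hb : ℝ, (1 - ε) * ((2 : ℝ) ^ M) ^ (p + 1) ≤ h →
    h ≤ 3 * ((2 : ℝ) ^ M) ^ (p + 1) → 0 ≤ hb →
    hb ≤ (3 * (2 : ℝ) ^ M) ^ p * ((2 : ℝ) ^ M) ^ p * ε →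
    8 * (R * ((K : ℝ) ^ (p - 1) * ((K : ℝ) * (2 ^ (p - 1) * 2 ^ M) +
      2 ^ (p - 1) * (DS.Cp p * ((2 : ℝ) ^ M) ^ p)))) *
        (2 * (2 * (2 : ℝ) ^ M + (2 * (2 : ℝ) ^ M) ^ p * ε)) <
      K * (1 - ε) ^ K * h / 2 - 4 ^ K * (hb + ((2 : ℝ) ^ M) ^ (p - 1) * ε * K * h)

/-- `xtr`: extraction of one entry.
Proof. `ξ = ξ_0 + ξ_1`, `ξ_κ` = the component `κ` (the other component replaced by `0`), `nrm ξ = nrm ξ_0 + nrm ξ_1`, and for the two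
parts `F'_0 = fst ∘ F'`, `F'_1 = snd ∘ F'`.  If `nrm p (F'_τ ξ_κ) ≤ 2 (R C) nrm p ξ_κ` for all `τ, κ`, then
`nr2 (F' ξ) ≤ 2^(p-1) (nr2 (F' ξ_0) + nr2 (F' ξ_1)) ≤ 2 * ∑_κ ∑_τ 2 (R C) nrm ξ_κ = 8 (R C) nrm ξ`, a contradiction.  So for some `τ, κ`
`2 * (R * C) * nrm p ξ_κ < nrm p (F'_τ ξ_κ)`, and `S_ext` (`Flat/P_ext.lean`: `p_ext`) with `N = 2`, `T = F ∘ inl` or `F ∘ inr`, `Ts = F'_τ`, `i₀ = κ` gives `f`;
`nrm p (F (φ, 0)) ≤ C nr2 (φ, 0) = C nrm φ`. -/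
def S_xtr : Prop := ∀ (p : ℝ), 1 < p → p < 2 → ∀ (G : Type u) [Group G]
    (F : E G →ₗ[ℂ] Vec G 2) (F' : Vec G 2 →ₗ[ℂ] E G), Rep2 F F' →
    (∀ φ, FS φ → FS2 (F' φ)) → ∀ (C R : ℝ), 0 < C → 0 ≤ R →
    (∀ z, FS2 z → nrm p (F z) ≤ C * nr2 p z) → ∀ ξ : Vec G 2, FS ξ →
    8 * (R * C) * nrm p ξ < nr2 p (F' ξ) →
    ∃ f : G →₀ ℂ, ConvLe p 1 (f : G → ℂ) ∧ ¬ ConvLe p R (cst (f : G → ℂ))

/-- the result of this part -/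
def S_U : Prop := ∀ (G : Type u) [Group G], CondU G → ∀ p : ℝ, 1 < p → p < 2 → ∀ R : ℝ, 0 ≤ R →
    ∃ f : G →₀ ℂ, ConvLe p 1 (f : G → ℂ) ∧ ¬ ConvLe p R (cst (f : G → ℂ))

end Pool.Agent.UC
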