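import Pool.Agent.Lib.MP_830418_an.Full60.Defs

/-!
Basic facts for the case of powers.
-/

open Finset

namespace Pool.Agent.UC

open Pool.Agent.PC Pool.Agent.Rich

universe u

variable {G : Type u} [Group G]

/-! ### the constant `k0` -/

theorem norm_k0 (p : ℝ) : ‖k0 p‖ = (2 : ℝ) ^ (-(1 / p)) := by
  unfold k0
  rw [Complex.norm_real, Real.norm_eq_abs, abs_of_pos (Real.rpow_pos_of_pos two_pos _)]

theorem norm_k0_rpow {p : ℝ} (hp : 0 < p) : ‖k0 p‖ ^ p = 1 / 2 := by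
  rw [norm_k0, ← Real.rpow_mul two_pos.le, neg_mul, one_div_mul_cancel hp.ne', Real.rpow_neg_one]
  norm_num

theorem norm_k0_pow_rpow {p : ℝ} (hp : 0 < p) (n : ℕ) : ‖k0 p ^ n‖ ^ p = (1 / 2) ^ n := by
  rw [norm_pow, ← Real.rpow_natCast, ← Real.rpow_mul (norm_nonneg _), mul_comm (n : ℝ) p,
    Real.rpow_mul (norm_nonneg _), norm_k0_rpow hp, Real.rpow_natCast]

theorem k0_eq (p : ℝ) : (((2 : ℝ) ^ (1 / 2 - 1 / p) : ℝ) : ℂ) *
    (((Real.sqrt (2 : ℕ) : ℝ) : ℂ))⁻¹ = k0 p := by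
  unfold k0
  rw [← Complex.ofReal_inv, ← Complex.ofReal_mul]
  congr 1
  have h : (Real.sqrt ((2 : ℕ) : ℝ))⁻¹ = (2 : ℝ) ^ (-(1 / 2) : ℝ) := by
    rw [Real.rpow_neg two_pos.le, ← Real.sqrt_eq_rpow]
    norm_num
  rw [h, ← Real.rpow_add two_pos]
  congr 1
  ring

/-! ### the factors -/

@[simp] theorem had_00 : had 0 0 = 1 := by simp [had]
@[simp] theorem had_01 : had 0 1 = 1 := by simp [had]
@[simp] theorem had_10 : had 1 0 = 1 := by simp [had]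
@[simp] theorem had_11 : had 1 1 = -1 := by simp [had]
@[simp] theorem lc_0 (c : G) : lc c 0 = 1 := by simp [lc]
@[simp] theorem lc_1 (c : G) : lc c 1 = c := by simp [lc]

theorem Rn_0 (p : ℝ) (c : G) (φ : Vec G 2) (x : G) :
    Rn p c φ x 0 = k0 p * (φ x 0 + φ (c⁻¹ * x) 1) := by
  unfold Rn
  rw [LinearMap.smul_apply, Pi.smul_apply, Pi.smul_apply, Rop_apply, Fin.sum_univ_two,
    smul_eq_mul, ← mul_assoc, k0_eq]
  simp

theorem Rn_1 (p : ℝ) (c : G) (φ : Vec G 2) (x : G) :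
    Rn p c φ x 1 = k0 p * (φ x 0 - φ (c⁻¹ * x) 1) := by
  unfold Rn
  rw [LinearMap.smul_apply, Pi.smul_apply, Pi.smul_apply, Rop_apply, Fin.sum_univ_two,
    smul_eq_mul, ← mul_assoc, k0_eq]
  simp [sub_eq_add_neg]

theorem Rs_0 (p : ℝ) (c : G) (φ : Vec G 2) (x : G) :
    Rs p c φ x 0 = k0 p * (φ x 0 + φ x 1) := by
  unfold Rs
  rw [LinearMap.smul_apply, Pi.smul_apply, Pi.smul_apply, Rad_apply, Fin.sum_univ_two,
    smul_eq_mul, ← mul_assoc, k0_eq]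
  simp

theorem Rs_1 (p : ℝ) (c : G) (φ : Vec G 2) (x : G) :
    Rs p c φ x 1 = k0 p * (φ (c * x) 0 - φ (c * x) 1) := by
  unfold Rs
  rw [LinearMap.smul_apply, Pi.smul_apply, Pi.smul_apply, Rad_apply, Fin.sum_univ_two,
    smul_eq_mul, ← mul_assoc, k0_eq]
  simp [sub_eq_add_neg]

theorem FS.Rn (p : ℝ) (c : G) {φ : Vec G 2} (h : FS φ) : FS (Rn p c φ) :=
  (h.Rop had (lc c)).smul _

theorem FS.Rs (p : ℝ) (c : G) {φ : Vec G 2} (h : FS φ) : FS (Rs p c φ) :=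
  (h.Rad had (lc c)).smul _

theorem FS.sub' {φ ψ : Vec G 2} (hφ : FS φ) (hψ : FS ψ) : FS (φ - ψ) := by
  have : φ - ψ = φ + (-1 : ℂ) • ψ := by
    funext x i
    simp [sub_eq_add_neg]
  rw [this]
  exact hφ.add (hψ.smul _)

theorem FS.sum {κ : Type*} (s : Finset κ) (f : κ → Vec G 2) (h : ∀ j ∈ s, FS (f j)) :
    FS (∑ j ∈ s, f j) := by
  classical
  induction s using Finset.induction_on with
  | empty => simpa using (fs_zero (G := G) (N := 2))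
  | insert a s ha ih =>
    rw [Finset.sum_insert ha]
    exact (h a (Finset.mem_insert_self a s)).add
      (ih fun j hj => h j (Finset.mem_insert_of_mem hj))

/-- component sums -/
theorem nrm_comp {p : ℝ} (hp : 0 < p) {φ : Vec G 2} (h : FS φ) :
    Summable (fun x => ‖φ x 0‖ ^ p) ∧ Summable (fun x => ‖φ x 1‖ ^ p) ∧
    nrm p φ = ∑' x, ‖φ x 0‖ ^ p + ∑' x, ‖φ x 1‖ ^ p := by
  have hs : ∀ i, Summable (fun x => ‖φ x i‖ ^ p) := fun i =>
    summable_of_hasFiniteSupport (h.subset fun x hx => by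
      intro h0
      apply hx
      show ‖φ x i‖ ^ p = 0
      rw [h0]
      simp [hp.ne'])
  refine ⟨hs 0, hs 1, ?_⟩
  unfold nrm
  rw [← (hs 0).tsum_add (hs 1)]
  exact tsum_congr fun x => Fin.sum_univ_two _

theorem nrm_Rn {p : ℝ} (hp : 1 < p) (hp2 : p < 2) (c : G) {φ : Vec G 2} (h : FS φ) :
    nrm p (Rn p c φ) ≤ nrm p φ := by
  have hp0 : 0 < p := by linarith
  obtain ⟨s0, s1, e⟩ := nrm_comp hp0 h
  obtain ⟨t0, t1, e'⟩ := nrm_comp hp0 (FS.Rn p c h)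
  have s1' : Summable (fun x => ‖φ (c⁻¹ * x) 1‖ ^ p) :=
    (Equiv.mulLeft c⁻¹).summable_iff.2 s1
  have e1 : ∑' x, ‖φ (c⁻¹ * x) 1‖ ^ p = ∑' x, ‖φ x 1‖ ^ p :=
    (Equiv.mulLeft c⁻¹).tsum_eq fun x => ‖φ x 1‖ ^ p
  rw [e', e, ← t0.tsum_add t1, ← e1, ← s0.tsum_add s1']
  refine (t0.add t1).tsum_le_tsum (fun x => ?_) (s0.add s1')
  rw [Rn_0, Rn_1, norm_mul, norm_mul, Real.mul_rpow (norm_nonneg _) (norm_nonneg _),
    Real.mul_rpow (norm_nonneg _) (norm_nonneg _), norm_k0_rpow hp0]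
  have := DS.cx_clark p hp hp2 (φ x 0) (φ (c⁻¹ * x) 1)
  linarith

theorem nrm_Rs {p : ℝ} (hp : 1 < p) (hp2 : p < 2) (c : G) {φ : Vec G 2} (h : FS φ) :
    nrm p (Rs p c φ) ≤ nrm p φ := by
  have hp0 : 0 < p := by linarith
  obtain ⟨s0, s1, e⟩ := nrm_comp hp0 h
  obtain ⟨t0, t1, e'⟩ := nrm_comp hp0 (FS.Rs p c h)
  have t1' : Summable (fun x => ‖Rs p c φ (c⁻¹ * x) 1‖ ^ p) :=
    (Equiv.mulLeft c⁻¹).summable_iff.2 t1
  have e1 : ∑' x, ‖Rs p c φ (c⁻¹ * x) 1‖ ^ p = ∑' x, ‖Rs p c φ x 1‖ ^ p :=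
    (Equiv.mulLeft c⁻¹).tsum_eq fun x => ‖Rs p c φ x 1‖ ^ p
  rw [e', e, ← e1, ← t0.tsum_add t1', ← s0.tsum_add s1]
  refine (t0.add t1').tsum_le_tsum (fun x => ?_) (s0.add s1)
  rw [Rs_0, Rs_1, norm_mul, norm_mul, Real.mul_rpow (norm_nonneg _) (norm_nonneg _),
    Real.mul_rpow (norm_nonneg _) (norm_nonneg _), norm_k0_rpow hp0, mul_inv_cancel_left]
  have := DS.cx_clark p hp hp2 (φ x 0) (φ x 1)
  linarith

/-! ### `Um`, `Am`, powers -/

theorem Um_fs (p : ℝ) {m : ℕ} (c : Fin m → G) (φ : Vec G 2) (h : FS φ) : FS (Um p m c φ) := by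
  induction m with
  | zero => exact h
  | succ m ih =>
    have h3 : Um p (m + 1) c φ = Rn p (c 0) (Um p m (fun i => c i.succ) φ) := rfl
    rw [h3]
    exact FS.Rn p (c 0) (ih fun i => c i.succ)

theorem Am_fs (p : ℝ) {m : ℕ} (c : Fin m → G) (φ : Vec G 2) (h : FS φ) : FS (Am p m c φ) := by
  induction m generalizing φ with
  | zero => exact h
  | succ m ih =>
    have h3 : Am p (m + 1) c φ = Am p m (fun i => c i.succ) (Rs p (c 0) φ) := rfl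
    rw [h3]
    exact ih (fun i => c i.succ) _ (FS.Rs p (c 0) h)

theorem Um_le {p : ℝ} (hp : 1 < p) (hp2 : p < 2) {m : ℕ} (c : Fin m → G) (φ : Vec G 2)
    (h : FS φ) : nrm p (Um p m c φ) ≤ nrm p φ := by
  induction m with
  | zero => exact le_rfl
  | succ m ih =>
    have h1 := nrm_Rn hp hp2 (c 0) (Um_fs p (fun i => c i.succ) φ h)
    have h2 := ih fun i => c i.succ
    have h3 : Um p (m + 1) c φ = Rn p (c 0) (Um p m (fun i => c i.succ) φ) := rfl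
    rw [h3]
    exact h1.trans h2

theorem Am_le {p : ℝ} (hp : 1 < p) (hp2 : p < 2) {m : ℕ} (c : Fin m → G) (φ : Vec G 2)
    (h : FS φ) : nrm p (Am p m c φ) ≤ nrm p φ := by
  induction m generalizing φ with
  | zero => exact le_rfl
  | succ m ih =>
    have h1 := nrm_Rs hp hp2 (c 0) h
    have h2 := ih (fun i => c i.succ) (Rs p (c 0) φ) (FS.Rs p (c 0) h)
    have h3 : Am p (m + 1) c φ = Am p m (fun i => c i.succ) (Rs p (c 0) φ) := rfl
    rw [h3]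
    exact h2.trans h1

theorem pow_fs {S : Module.End ℂ (Vec G 2)} (hS : ∀ φ, FS φ → FS (S φ)) (n : ℕ) (φ : Vec G 2)
    (h : FS φ) : FS ((S ^ n) φ) := by
  induction n generalizing φ with
  | zero => exact h
  | succ n ih =>
    rw [pow_succ, Module.End.mul_apply]
    exact ih _ (hS _ h)

theorem pow_le {p : ℝ} {S : Module.End ℂ (Vec G 2)} (hS : ∀ φ, FS φ → FS (S φ))
    (hS1 : ∀ φ, FS φ → nrm p (S φ) ≤ nrm p φ) (n : ℕ) (φ : Vec G 2)
    (h : FS φ) : nrm p ((S ^ n) φ) ≤ nrm p φ := by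
  induction n generalizing φ with
  | zero => exact le_rfl
  | succ n ih =>
    rw [pow_succ, Module.End.mul_apply]
    exact (ih _ (hS _ h)).trans (hS1 _ h)

theorem Am_pow_fs (p : ℝ) {m : ℕ} (c : Fin m → G) (n : ℕ) (φ : Vec G 2) (h : FS φ) :
    FS (((Am p m c) ^ n) φ) := pow_fs (Am_fs p c) n φ h

theorem Am_pow_le {p : ℝ} (hp : 1 < p) (hp2 : p < 2) {m : ℕ} (c : Fin m → G) (n : ℕ)
    (φ : Vec G 2) (h : FS φ) : nrm p (((Am p m c) ^ n) φ) ≤ nrm p φ :=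
  pow_le (Am_fs p c) (Am_le hp hp2 c) n φ h

/-! ### pairs -/

theorem Jn_apply (p : ℝ) (S : Vec G 2 →ₗ[ℂ] Vec G 2) (z : E G) :
    Jn p S z = (k0 p • (z.1 + S z.2), k0 p • (z.1 - S z.2)) := rfl

theorem Js_apply (p : ℝ) (A : Vec G 2 →ₗ[ℂ] Vec G 2) (z : E G) :
    Js p A z = (k0 p • (z.1 + z.2), k0 p • A (z.1 - z.2)) := rfl

theorem FS2.Jn (p : ℝ) {S : Vec G 2 →ₗ[ℂ] Vec G 2} (hS : ∀ φ, FS φ → FS (S φ)) {z : E G}
    (h : FS2 z) : FS2 (Jn p S z) :=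
  ⟨(h.1.add (hS _ h.2)).smul _, (FS.sub' h.1 (hS _ h.2)).smul _⟩

theorem FS2.Js (p : ℝ) {S : Vec G 2 →ₗ[ℂ] Vec G 2} (hS : ∀ φ, FS φ → FS (S φ)) {z : E G}
    (h : FS2 z) : FS2 (Js p S z) :=
  ⟨(h.1.add h.2).smul _, (hS _ (FS.sub' h.1 h.2)).smul _⟩

theorem nr2_Jn {p : ℝ} (hp : 1 < p) (hp2 : p < 2) {S : Vec G 2 →ₗ[ℂ] Vec G 2}
    (hS : ∀ φ, FS φ → FS (S φ)) (hS1 : ∀ φ, FS φ → nrm p (S φ) ≤ nrm p φ) {z : E G}
    (h : FS2 z) : nr2 p (Jn p S z) ≤ nr2 p z := by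
  have hp0 : 0 < p := by linarith
  unfold nr2
  rw [Jn_apply]
  simp only
  rw [nrm_smul, nrm_smul, norm_k0_rpow hp0]
  have h1 := DS.nrm_clark hp hp2 (φ := z.1) (ψ := S z.2) h.1 (hS _ h.2)
  have h2 := hS1 _ h.2
  change nrm p (z.1 + S z.2) + nrm p (z.1 - S z.2) ≤ 2 * (nrm p z.1 + nrm p (S z.2)) at h1
  linarith

theorem nr2_Js {p : ℝ} (hp : 1 < p) (hp2 : p < 2) {S : Vec G 2 →ₗ[ℂ] Vec G 2}
    (hS1 : ∀ φ, FS φ → nrm p (S φ) ≤ nrm p φ) {z : E G}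
    (h : FS2 z) : nr2 p (Js p S z) ≤ nr2 p z := by
  have hp0 : 0 < p := by linarith
  unfold nr2
  rw [Js_apply]
  simp only
  rw [nrm_smul, nrm_smul, norm_k0_rpow hp0]
  have h1 := DS.nrm_clark hp hp2 (φ := z.1) (ψ := z.2) h.1 h.2
  have h2 := hS1 _ (FS.sub' h.1 h.2)
  change nrm p (z.1 + z.2) + nrm p (z.1 - z.2) ≤ 2 * (nrm p z.1 + nrm p z.2) at h1
  linarith

theorem tr2_apply (g : G) (z : E G) : tr2 g z = (tr g z.1, tr g z.2) := rfl

theorem FS2.tr2 {z : E G} (h : FS2 z) (g : G) : FS2 (tr2 g z) := ⟨h.1.tr g, h.2.tr g⟩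

theorem nr2_tr2 (p : ℝ) (g : G) (z : E G) : nr2 p (tr2 g z) = nr2 p z := by
  unfold nr2
  rw [tr2_apply]
  simp only
  rw [nrm_tr, nrm_tr]

theorem nr2_nonneg (p : ℝ) (z : E G) : 0 ≤ nr2 p z := add_nonneg (nrm_nonneg _ _) (nrm_nonneg _ _)

theorem FS2.add {z w : E G} (hz : FS2 z) (hw : FS2 w) : FS2 (z + w) :=
  ⟨hz.1.add hw.1, hz.2.add hw.2⟩

theorem FS2.zero : FS2 (0 : E G) := ⟨fs_zero, fs_zero⟩

theorem Jc_fs (p : ℝ) {S : Module.End ℂ (Vec G 2)} (hS : ∀ φ, FS φ → FS (S φ)) (s : ℕ) {z : E G}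
    (h : FS2 z) : FS2 (Jc p S s z) := by
  induction s with
  | zero => exact h
  | succ s ih => exact FS2.Jn p (pow_fs hS (2 ^ s)) ih

theorem Jcs_fs (p : ℝ) {A : Module.End ℂ (Vec G 2)} (hA : ∀ φ, FS φ → FS (A φ)) (s : ℕ) {z : E G}
    (h : FS2 z) : FS2 (Jcs p A s z) := by
  induction s generalizing z with
  | zero => exact h
  | succ s ih => exact ih (FS2.Js p (pow_fs hA (2 ^ s)) h)

theorem nr2_Jc {p : ℝ} (hp : 1 < p) (hp2 : p < 2) {S : Module.End ℂ (Vec G 2)}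
    (hS : ∀ φ, FS φ → FS (S φ)) (hS1 : ∀ φ, FS φ → nrm p (S φ) ≤ nrm p φ) (s : ℕ) {z : E G}
    (h : FS2 z) : nr2 p (Jc p S s z) ≤ nr2 p z := by
  induction s with
  | zero => exact le_rfl
  | succ s ih => exact (nr2_Jn hp hp2 (pow_fs hS _) (pow_le hS hS1 _) (Jc_fs p hS s h)).trans ih

theorem nr2_Jcs {p : ℝ} (hp : 1 < p) (hp2 : p < 2) {A : Module.End ℂ (Vec G 2)}
    (hA : ∀ φ, FS φ → FS (A φ)) (hA1 : ∀ φ, FS φ → nrm p (A φ) ≤ nrm p φ) (s : ℕ) {z : E G}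
    (h : FS2 z) : nr2 p (Jcs p A s z) ≤ nr2 p z := by
  induction s generalizing z with
  | zero => exact le_rfl
  | succ s ih => exact (ih (FS2.Js p (pow_fs hA _) h)).trans (nr2_Js hp hp2 (pow_le hA hA1 _) h)

theorem Ts_fs (p : ℝ) {A : Module.End ℂ (Vec G 2)} (hA : ∀ φ, FS φ → FS (A φ)) (g : G) (M : ℕ)
    {z : E G} (h : FS2 z) : FS2 (Ts p A g M z) := by
  have h1 : FS2 (((A ^ (2 ^ M)).prodMap (A ^ (2 ^ M))) z) :=
    ⟨pow_fs hA _ _ h.1, pow_fs hA _ _ h.2⟩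
  exact FS2.Js p (fun φ hφ => hφ.tr g⁻¹) (Jcs_fs p hA M h1)

theorem nr2_Ts {p : ℝ} (hp : 1 < p) (hp2 : p < 2) {A : Module.End ℂ (Vec G 2)}
    (hA : ∀ φ, FS φ → FS (A φ)) (hA1 : ∀ φ, FS φ → nrm p (A φ) ≤ nrm p φ) (g : G) (M : ℕ)
    {z : E G} (h : FS2 z) : nr2 p (Ts p A g M z) ≤ nr2 p z := by
  have h1 : FS2 (((A ^ (2 ^ M)).prodMap (A ^ (2 ^ M))) z) :=
    ⟨pow_fs hA _ _ h.1, pow_fs hA _ _ h.2⟩
  have h2 : nr2 p (((A ^ (2 ^ M)).prodMap (A ^ (2 ^ M))) z) ≤ nr2 p z :=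
    add_le_add (pow_le hA hA1 _ _ h.1) (pow_le hA hA1 _ _ h.2)
  exact (nr2_Js hp hp2 (fun φ _ => (nrm_tr p g⁻¹ φ).le) (Jcs_fs p hA M h1)).trans
    ((nr2_Jcs hp hp2 hA hA1 M h1).trans h2)

theorem Dn_fs {S : Module.End ℂ (Vec G 2)} (hS : ∀ φ, FS φ → FS (S φ)) (M : ℕ) (φ : Vec G 2)
    (h : FS φ) : FS (Dn S M φ) := by
  unfold Dn
  rw [LinearMap.sum_apply]
  exact FS.sum _ _ fun j _ => pow_fs hS j φ h

theorem Df_apply (S : Module.End ℂ (Vec G 2)) (M : ℕ) (z : E G) : Df S M z = Dn S M z.1 := rfl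

theorem Dfs_apply (S : Module.End ℂ (Vec G 2)) (M : ℕ) (φ : Vec G 2) :
    Dfs S M φ = (Dn S M φ, 0) := rfl

theorem F2_nil (T : E G →ₗ[ℂ] E G) (D : E G →ₗ[ℂ] Vec G 2) (z : E G) : F2 T D [] z = 0 := rfl

theorem F2_cons (T : E G →ₗ[ℂ] E G) (D : E G →ₗ[ℂ] Vec G 2) (b : G) (bs : List G) (z : E G) :
    F2 T D (b :: bs) z = D (tr2 b z) + F2 T D bs (T (tr2 b z)) := rfl

theorem Fs2_nil (T' : E G →ₗ[ℂ] E G) (D' : Vec G 2 →ₗ[ℂ] E G) (φ : Vec G 2) :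
    Fs2 T' D' [] φ = 0 := rfl

theorem Fs2_cons (T' : E G →ₗ[ℂ] E G) (D' : Vec G 2 →ₗ[ℂ] E G) (b : G) (bs : List G)
    (φ : Vec G 2) :
    Fs2 T' D' (b :: bs) φ = tr2 b⁻¹ (D' φ + T' (Fs2 T' D' bs φ)) := rfl

theorem Fs2_fs (T' : E G →ₗ[ℂ] E G) (D' : Vec G 2 →ₗ[ℂ] E G) (hT : ∀ z, FS2 z → FS2 (T' z))
    (hD : ∀ φ, FS φ → FS2 (D' φ)) (bs : List G) (φ : Vec G 2) (h : FS φ) :
    FS2 (Fs2 T' D' bs φ) := by
  induction bs with
  | nil => exact FS2.zero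
  | cons b bs ih => exact ((hD _ h).add (hT _ ih)).tr2 b⁻¹

/-! ### cutting -/

theorem cut_apply_mem {X : Set G} {φ : Vec G 2} {x : G} (h : x ∈ X) : cut X φ x = φ x :=
  Set.indicator_of_mem h φ

theorem cut_apply_notMem {X : Set G} {φ : Vec G 2} {x : G} (h : x ∉ X) : cut X φ x = 0 :=
  Set.indicator_of_notMem h φ

theorem cut_add_compl (X : Set G) (φ : Vec G 2) : cut X φ + cut Xᶜ φ = φ :=
  Set.indicator_self_add_compl X φ

theorem FS.cut {φ : Vec G 2} (h : FS φ) (X : Set G) : FS (cut X φ) :=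
  h.subset fun x hx => by
    intro h0
    apply hx
    by_cases hX : x ∈ X
    · rw [cut_apply_mem hX]; exact h0
    · exact cut_apply_notMem hX

theorem SC.cut {φ : Vec G 2} (h : SC φ) (X : Set G) : SC (cut X φ) := by
  intro x i j hij
  by_cases hX : x ∈ X
  · rw [cut_apply_mem hX]; exact h x i j hij
  · rw [cut_apply_notMem hX]; exact Or.inl rfl

theorem mas_nonneg (p : ℝ) (φ : Vec G 2) (x : G) : 0 ≤ mas p φ x :=
  Finset.sum_nonneg fun _ _ => Real.rpow_nonneg (norm_nonneg _) _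

theorem mas_zero {p : ℝ} (hp : 0 < p) {φ : Vec G 2} {x : G} (h : φ x = 0) : mas p φ x = 0 :=
  nrm_term_zero hp h

theorem nrm_eq_mas {p : ℝ} (hp : 0 < p) {φ : Vec G 2} {s : Finset G}
    (h : ∀ x, x ∉ s → φ x = 0) : nrm p φ = ∑ x ∈ s, mas p φ x := nrm_eq_sum hp h

/-- disjoint supports, two functions -/
theorem nrm_add_disj {p : ℝ} (hp : 0 < p) {φ ψ : Vec G 2} (hφ : FS φ) (hψ : FS ψ)
    (h : ∀ x, φ x = 0 ∨ ψ x = 0) : nrm p (φ + ψ) = nrm p φ + nrm p ψ := by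
  unfold nrm
  rw [← (nrm_summable hp hφ).tsum_add (nrm_summable hp hψ)]
  refine tsum_congr fun x => ?_
  rcases h x with h0 | h0
  · rw [nrm_term_zero hp h0, zero_add, Pi.add_apply, h0, zero_add]
  · rw [nrm_term_zero hp h0, add_zero, Pi.add_apply, h0, add_zero]

theorem nrm_cut {p : ℝ} (hp : 0 < p) (X : Set G) {φ : Vec G 2} (h : FS φ) :
    nrm p φ = nrm p (cut X φ) + nrm p (cut Xᶜ φ) := by
  rw [← nrm_add_disj hp (FS.cut h X) (FS.cut h Xᶜ), cut_add_compl]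
  intro x
  by_cases hX : x ∈ X
  · exact Or.inr (cut_apply_notMem fun h => h hX)
  · exact Or.inl (cut_apply_notMem hX)

/-- disjoint supports, a finite sum -/
theorem nrm_sum_disj {p : ℝ} (hp : 0 < p) {κ : Type*} (s : Finset κ) (f : κ → Vec G 2)
    (hf : ∀ j ∈ s, FS (f j)) (h : ∀ x, ∀ i ∈ s, ∀ j ∈ s, i ≠ j → f i x = 0 ∨ f j x = 0) :
    nrm p (∑ j ∈ s, f j) = ∑ j ∈ s, nrm p (f j) := by
  classical
  induction s using Finset.induction_on with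
  | empty => rw [Finset.sum_empty, Finset.sum_empty, nrm_zero hp]
  | insert a s ha ih =>
    rw [Finset.sum_insert ha, Finset.sum_insert ha, nrm_add_disj hp
      (hf a (Finset.mem_insert_self a s))
      (FS.sum _ _ fun j hj => hf j (Finset.mem_insert_of_mem hj)),
      ih (fun j hj => hf j (Finset.mem_insert_of_mem hj)) fun x i hi j hj =>
        h x i (Finset.mem_insert_of_mem hi) j (Finset.mem_insert_of_mem hj)]
    intro x
    by_cases h0 : f a x = 0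
    · exact Or.inl h0
    · refine Or.inr ?_
      rw [Finset.sum_apply]
      refine Finset.sum_eq_zero fun j hj => ?_
      rcases h x a (Finset.mem_insert_self a s) j (Finset.mem_insert_of_mem hj)
        (fun e => ha (e ▸ hj)) with h1 | h1
      · exact absurd h1 h0
      · exact h1

/-- at most one summand is not zero at each point, and all are `SC` -/
theorem SC.sum_disj {κ : Type*} (s : Finset κ) (f : κ → Vec G 2)
    (hf : ∀ j ∈ s, SC (f j)) (h : ∀ x, ∀ i ∈ s, ∀ j ∈ s, i ≠ j → f i x = 0 ∨ f j x = 0) :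
    SC (∑ j ∈ s, f j) := by
  classical
  intro x i j hij
  by_cases hx : ∃ a ∈ s, f a x ≠ 0
  · obtain ⟨a, ha, hax⟩ := hx
    have e : (∑ k ∈ s, f k) x = f a x := by
      rw [Finset.sum_apply]
      refine Finset.sum_eq_single_of_mem a ha fun b hb hba => ?_
      rcases h x a ha b hb (Ne.symm hba) with h1 | h1
      · exact absurd h1 hax
      · exact h1
    rw [e]
    exact hf a ha x i j hij
  · push Not at hx
    have e : (∑ k ∈ s, f k) x = 0 := by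
      rw [Finset.sum_apply]
      exact Finset.sum_eq_zero hx
    rw [e]
    exact Or.inl rfl

/-- power mean for a finite sum -/
theorem nrm_sum_le {p : ℝ} (hp : 1 ≤ p) {κ : Type*} (s : Finset κ) (f : κ → Vec G 2)
    (hf : ∀ j ∈ s, FS (f j)) :
    nrm p (∑ j ∈ s, f j) ≤ (s.card : ℝ) ^ (p - 1) * ∑ j ∈ s, nrm p (f j) := by
  classical
  have hp0 : 0 < p := by linarith
  -- a common finset
  obtain ⟨S, hS⟩ : ∃ S : Finset G, ∀ j ∈ s, ∀ x, x ∉ S → f j x = 0 := by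
    have hfin : (⋃ j ∈ s, Function.support (f j)).Finite := s.finite_toSet.biUnion hf
    refine ⟨hfin.toFinset, fun j hj x hx => ?_⟩
    by_contra h0
    apply hx
    rw [Set.Finite.mem_toFinset, Set.mem_iUnion₂]
    exact ⟨j, hj, h0⟩
  have h1 : ∀ x, x ∉ S → (∑ j ∈ s, f j) x = 0 := fun x hx => by
    rw [Finset.sum_apply]
    exact Finset.sum_eq_zero fun j hj => hS j hj x hx
  rw [nrm_eq_sum hp0 h1, Finset.mul_sum]
  have h2 : ∀ j ∈ s, (s.card : ℝ) ^ (p - 1) * nrm p (f j) =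
      ∑ x ∈ S, ∑ i, (s.card : ℝ) ^ (p - 1) * ‖f j x i‖ ^ p := fun j hj => by
    rw [nrm_eq_sum hp0 (hS j hj), Finset.mul_sum]
    exact Finset.sum_congr rfl fun x _ => Finset.mul_sum _ _ _
  have h5 : ∑ j ∈ s, ∑ x ∈ S, ∑ i, (s.card : ℝ) ^ (p - 1) * ‖f j x i‖ ^ p =
      ∑ x ∈ S, ∑ i, ∑ j ∈ s, (s.card : ℝ) ^ (p - 1) * ‖f j x i‖ ^ p := by
    rw [Finset.sum_comm]
    exact Finset.sum_congr rfl fun x _ => Finset.sum_comm
  rw [Finset.sum_congr rfl h2, h5]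
  refine Finset.sum_le_sum fun x _ => Finset.sum_le_sum fun i _ => ?_
  rw [← Finset.mul_sum, Finset.sum_apply, Finset.sum_apply]
  have h3 : ‖∑ j ∈ s, f j x i‖ ^ p ≤ (∑ j ∈ s, ‖f j x i‖) ^ p :=
    Real.rpow_le_rpow (norm_nonneg _) (norm_sum_le _ _) hp0.le
  have h4 : (∑ j ∈ s, ‖f j x i‖) ^ p ≤ (s.card : ℝ) ^ (p - 1) * ∑ j ∈ s, ‖f j x i‖ ^ p :=
    Real.rpow_sum_le_const_mul_sum_rpow_of_nonneg s hp fun j _ => norm_nonneg _
  exact h3.trans h4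

/-! ### masses of signed sums -/

/-- `α u + β v` for signs `α, β` and `SC2 (u, v)` -/
theorem sgn_comb {p : ℝ} (hp : 0 < p) {z : E G} (hz : FS2 z) (h : SC2 z) {α β : ℂ}
    (hα : α = 1 ∨ α = -1) (hβ : β = 1 ∨ β = -1) :
    FS (α • z.1 + β • z.2) ∧ SC (α • z.1 + β • z.2) ∧
    (∀ x, (α • z.1 + β • z.2) x = 0 ↔ z.1 x = 0 ∧ z.2 x = 0) ∧
    nrm p (α • z.1 + β • z.2) = nr2 p z := by
  have hα0 : α ≠ 0 := by rcases hα with h | h <;> rw [h] <;> norm_num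
  have hβ0 : β ≠ 0 := by rcases hβ with h | h <;> rw [h] <;> norm_num
  have hα1 : ‖α‖ = 1 := by rcases hα with h | h <;> rw [h] <;> simp
  have hβ1 : ‖β‖ = 1 := by rcases hβ with h | h <;> rw [h] <;> simp
  refine ⟨(hz.1.smul α).add (hz.2.smul β), ?_, ?_, ?_⟩
  · intro x i j hij
    rcases h.2.2 x with h0 | h0
    · rw [Pi.add_apply, Pi.smul_apply, h0, smul_zero, zero_add, Pi.smul_apply]
      rcases h.2.1 x i j hij with h1 | h1
      · left; rw [Pi.smul_apply, h1, smul_zero]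
      · right; rw [Pi.smul_apply, h1, smul_zero]
    · have e : (α • z.1 + β • z.2) x = α • z.1 x := by
        rw [Pi.add_apply, Pi.smul_apply, Pi.smul_apply, h0, smul_zero, add_zero]
      rw [e]
      rcases h.1 x i j hij with h1 | h1
      · left; rw [Pi.smul_apply, h1, smul_zero]
      · right; rw [Pi.smul_apply, h1, smul_zero]
  · intro x
    constructor
    · intro h1
      rcases h.2.2 x with h0 | h0
      · refine ⟨h0, ?_⟩
        rw [Pi.add_apply, Pi.smul_apply, h0, smul_zero, zero_add, Pi.smul_apply] at h1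
        exact (smul_eq_zero.1 h1).resolve_left hβ0
      · refine ⟨?_, h0⟩
        rw [Pi.add_apply, Pi.smul_apply, Pi.smul_apply, h0, smul_zero, add_zero] at h1
        exact (smul_eq_zero.1 h1).resolve_left hα0
    · rintro ⟨h1, h2⟩
      rw [Pi.add_apply, Pi.smul_apply, Pi.smul_apply, h1, h2, smul_zero, smul_zero, add_zero]
  · rw [nrm_add_disj hp (hz.1.smul α) (hz.2.smul β), nrm_smul, nrm_smul, hα1, hβ1,
      Real.one_rpow, one_mul, one_mul]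
    · rfl
    · intro x
      rcases h.2.2 x with h0 | h0
      · left; rw [Pi.smul_apply, h0, smul_zero]
      · right; rw [Pi.smul_apply, h0, smul_zero]

end Pool.Agent.UC
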