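import Pool.Agent.Lib.MP_830418_an.Full60.Stm
import Pool.Agent.Lib.MP_830418_an.Full60.Basic

/-!
Assembly of Theorem 4 (the pieces are hypotheses here).
-/

open Finset

namespace Pool.Agent.UC

open Pool.Agent.PC Pool.Agent.Rich

universe u

theorem asm_U (hrep : S_rep.{u}) (hup : S_up.{u}) (hchn : S_chn.{u}) (hstp : S_stp.{u})
    (htv : S_tv.{u}) (hlwr : S_lwr.{u}) (hnmu : S_nmu) (hxtr : S_xtr.{u}) : S_U.{u} := by
  intro G _ hC p hp hp2 R hR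
  have hp0 : 0 < p := by linarith
  obtain ⟨K, M, ε, hε, hε1, hK, hnum⟩ := hnmu p hp hp2 R hR
  obtain ⟨m, c, g, T, hD⟩ := hC (3 * 2 ^ M) ε hε
  obtain ⟨hg, hb, fg, fb, scg, hdn, h1, h2, h3, hfst, h4⟩ :=
    htv p hp hp2 G m c g _ ε T hD hε.le hε1 M le_rfl
  have hstep := hstp p hp hp2 G m c g _ ε T hD hε.le M
    (Nat.mul_le_mul_right _ (by norm_num))
  have hAfs : ∀ φ, FS φ → FS (Am p m c φ) := Am_fs p c
  have hAle : ∀ φ, FS φ → nrm p (Am p m c φ) ≤ nrm p φ := Am_le hp hp2 c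
  have hUfs : ∀ φ, FS φ → FS (Um p m c φ) := Um_fs p c
  have hUle : ∀ φ, FS φ → nrm p (Um p m c φ) ≤ nrm p φ := Um_le hp hp2 c
  have hsplit : Dfs (Am p m c) M (tst (Am p m c) M) = ((hg, 0) : E G) + (hb, 0) := by
    rw [Dfs_apply, hdn]
    ext1
    · rfl
    · exact (add_zero _).symm
  have hsc : SC2 ((hg, 0) : E G) := ⟨scg, fun x i j _ => Or.inl rfl, fun x => Or.inr rfl⟩
  have hz : nrm p (0 : Vec G 2) = 0 := nrm_zero hp0
  have hng : nr2 p ((hg, 0) : E G) = nrm p hg := by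
    unfold nr2
    simp only
    rw [hz, add_zero]
  have hnb : nr2 p ((hb, 0) : E G) = nrm p hb := by
    unfold nr2
    simp only
    rw [hz, add_zero]
  obtain ⟨bs, hbs, hlow⟩ := hlwr p hp hp2 G (Ts p (Am p m c) g M) (Dfs (Am p m c) M) ε
    (((2 : ℝ) ^ M) ^ (p - 1) * ε) hε.le hε1 (by positivity)
    (fun z hz => Ts_fs p hAfs g M hz) (fun z hz => nr2_Ts hp hp2 hAfs hAle g M hz) hstep
    (tst (Am p m c) M) (hg, 0) (hb, 0) hsplit ⟨fg, fs_zero⟩ ⟨fb, fs_zero⟩ hsc K hK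
  rw [hng, hnb] at hlow
  have hCp := DS.Cp_nonneg hp hp2
  have hK0 : (0 : ℝ) < K := by exact_mod_cast hK
  set a : ℝ := 2 ^ (p - 1) * 2 ^ M with ha
  set b : ℝ := 2 ^ (p - 1) * (DS.Cp p * ((2 : ℝ) ^ M) ^ p) with hbdef
  have ha0 : 0 < a := by rw [ha]; positivity
  have hb0 : 0 ≤ b := by rw [hbdef]; positivity
  have hch := hchn p hp G (Tn p (Um p m c) g M) (Df (Um p m c) M) a b ha0.le hb0
    (fun z hz => (hup p hp hp2 G (Um p m c) hUfs hUle g M z hz).1)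
    (fun z hz => Dn_fs hUfs M _ hz.1)
    (fun z hz => (hup p hp hp2 G (Um p m c) hUfs hUle g M z hz).2.1)
    (fun z hz => by
      refine (hup p hp hp2 G (Um p m c) hUfs hUle g M z hz).2.2.trans (le_of_eq ?_)
      rw [ha, hbdef]
      ring) bs
  rw [hbs] at hch
  have hC0 : 0 < (K : ℝ) ^ (p - 1) * ((K : ℝ) * a + b) := by positivity
  refine hxtr p hp hp2 G (F2 (Tn p (Um p m c) g M) (Df (Um p m c) M) bs)
    (Fs2 (Ts p (Am p m c) g M) (Dfs (Am p m c) M) bs) (hrep p G m c g M bs)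
    (fun φ hφ => Fs2_fs _ _ (fun z hz => Ts_fs p hAfs g M hz)
      (fun φ hφ => ⟨Dn_fs hAfs M φ hφ, fs_zero⟩) bs φ hφ)
    _ R hC0 hR hch (tst (Am p m c) M) hfst ?_
  have hn := hnum (nrm p hg) (nrm p hb) h1 h2 (nrm_nonneg p hb) h3
  refine lt_of_le_of_lt ?_ (hn.trans_le hlow)
  exact mul_le_mul_of_nonneg_left h4 (by positivity)

end Pool.Agent.UC
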