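import Pool.Agent.Lib.MP_830418_an.Full60.Stm
import Pool.Agent.Lib.MP_830418_an.Flat.P_hold

open Finset

namespace Pool.Agent.UC

open Pool.Agent.PC Pool.Agent.Rich

universe u

section chain

variable {G : Type u} [Group G]

private theorem chn_nr2_nonneg (p : ℝ) (z : E G) : 0 ≤ nr2 p z :=
  add_nonneg (nrm_nonneg p z.1) (nrm_nonneg p z.2)

private theorem chn_tr2_fs (b : G) {z : E G} (hz : FS2 z) : FS2 (tr2 b z) :=
  ⟨hz.1.tr b, hz.2.tr b⟩

private theorem chn_tr2_nr2 (p : ℝ) (b : G) (z : E G) : nr2 p (tr2 b z) = nr2 p z := by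
  have e : tr2 b z = (tr b z.1, tr b z.2) := rfl
  rw [e]
  unfold nr2
  rw [nrm_tr, nrm_tr]

/-- the terms of the chain -/
private noncomputable def chn_l (T : E G →ₗ[ℂ] E G) (D : E G →ₗ[ℂ] Vec G 2) :
    List G → E G → List (Vec G 2)
  | [], _ => []
  | b :: bs, z => D (tr2 b z) :: chn_l T D bs (T (tr2 b z))

private theorem chn_sum (T : E G →ₗ[ℂ] E G) (D : E G →ₗ[ℂ] Vec G 2) (bs : List G) :
    ∀ z : E G, (chn_l T D bs z).sum = F2 T D bs z := by
  induction bs with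
  | nil => intro z; rfl
  | cons b bs ih =>
    intro z
    rw [chn_l, List.sum_cons, ih]
    rfl

private theorem chn_len (T : E G →ₗ[ℂ] E G) (D : E G →ₗ[ℂ] Vec G 2) (bs : List G) :
    ∀ z : E G, (chn_l T D bs z).length = bs.length := by
  induction bs with
  | nil => intro z; rfl
  | cons b bs ih =>
    intro z
    rw [chn_l, List.length_cons, ih, List.length_cons]

private theorem chn_fs (T : E G →ₗ[ℂ] E G) (D : E G →ₗ[ℂ] Vec G 2)
    (hT : ∀ z, FS2 z → FS2 (T z)) (hD : ∀ z, FS2 z → FS (D z)) (bs : List G) :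
    ∀ z : E G, FS2 z → ∀ ψ ∈ chn_l T D bs z, FS ψ := by
  induction bs with
  | nil =>
    intro z _ ψ hψ
    rw [chn_l] at hψ
    simp at hψ
  | cons b bs ih =>
    intro z hz ψ hψ
    rw [chn_l, List.mem_cons] at hψ
    rcases hψ with rfl | hψ
    · exact hD _ (chn_tr2_fs b hz)
    · exact ih _ (hT _ (chn_tr2_fs b hz)) ψ hψ

private theorem chn_bd (p : ℝ) (T : E G →ₗ[ℂ] E G) (D : E G →ₗ[ℂ] Vec G 2) (a b : ℝ)
    (ha : 0 ≤ a) (hb : 0 ≤ b) (hT : ∀ z, FS2 z → FS2 (T z))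
    (h1 : ∀ z, FS2 z → nr2 p (T z) ≤ nr2 p z)
    (h2 : ∀ z, FS2 z → nrm p (D z) ≤ a * nr2 p z + b * (nr2 p z - nr2 p (T z)))
    (bs : List G) :
    ∀ z : E G, FS2 z → ((chn_l T D bs z).map (nrm p)).sum ≤
      ((bs.length : ℝ) * a + b) * nr2 p z := by
  induction bs with
  | nil =>
    intro z _
    rw [chn_l]
    simp only [List.map_nil, List.sum_nil, List.length_nil, Nat.cast_zero, zero_mul, zero_add]
    exact mul_nonneg hb (chn_nr2_nonneg p z)
  | cons g bs ih =>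
    intro z hz
    rw [chn_l, List.map_cons, List.sum_cons, List.length_cons]
    have e1 := h2 _ (chn_tr2_fs g hz)
    have e2 := h1 _ (chn_tr2_fs g hz)
    have e3 := ih _ (hT _ (chn_tr2_fs g hz))
    rw [chn_tr2_nr2] at e1 e2
    have e4 : (bs.length : ℝ) * a * nr2 p (T (tr2 g z)) ≤
        (bs.length : ℝ) * a * nr2 p z :=
      mul_le_mul_of_nonneg_left e2 (mul_nonneg (Nat.cast_nonneg _) ha)
    push_cast
    nlinarith

end chain

theorem p_chn : S_chn.{u} := by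
  intro p hp G _ T D a b ha hb hT hD h3 h4 bs z hz
  have e1 := p_hold p hp G 2 (chn_l T D bs z) (chn_fs T D hT hD bs z hz)
  rw [chn_sum, chn_len] at e1
  have e2 := chn_bd p T D a b ha hb hT h3 h4 bs z hz
  refine e1.trans ?_
  rw [mul_assoc]
  exact mul_le_mul_of_nonneg_left e2 (Real.rpow_nonneg (Nat.cast_nonneg _) _)

end Pool.Agent.UC
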