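import Pool.Agent.Lib.MP_830418_an.Full60.Stm

/-!
Piece `cut` of the case of powers: the good part of `A^r χ`.
-/

open Finset

namespace Pool.Agent.UC

open Pool.Agent.PC Pool.Agent.Rich

universe u

namespace CutAux

variable {G : Type u} [Group G]

omit [Group G] in
theorem cut_add (X : Set G) (φ : Vec G 2) : cut X φ + cut Xᶜ φ = φ := by
  unfold cut
  exact Set.indicator_self_add_compl X φ

omit [Group G] in
theorem fs_cut {X : Set G} {φ : Vec G 2} (h : FS φ) : FS (cut X φ) :=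
  h.subset fun x hx hφ => hx (by
    unfold cut
    by_cases hX : x ∈ X
    · rw [Set.indicator_of_mem hX, hφ]
    · rw [Set.indicator_of_notMem hX])

theorem nrm_cut' {p : ℝ} (hp : 0 < p) (X : Set G) {φ : Vec G 2} (h : FS φ) :
    nrm p φ = nrm p (cut X φ) + nrm p (cut Xᶜ φ) := by
  unfold nrm
  rw [← (nrm_summable hp (fs_cut (X := X) h)).tsum_add (nrm_summable hp (fs_cut (X := Xᶜ) h))]
  refine tsum_congr fun x => ?_
  by_cases hX : x ∈ X
  · have h1 : cut X φ x = φ x := by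
      unfold cut
      rw [Set.indicator_of_mem hX]
    have h2 : cut Xᶜ φ x = 0 := by
      unfold cut
      rw [Set.indicator_of_notMem (by simpa using hX)]
    rw [nrm_term_zero hp h2, h1, add_zero]
  · have h1 : cut X φ x = 0 := by
      unfold cut
      rw [Set.indicator_of_notMem hX]
    have h2 : cut Xᶜ φ x = φ x := by
      unfold cut
      rw [Set.indicator_of_mem (by simpa using hX)]
    rw [nrm_term_zero hp h1, h2, zero_add]

theorem Rs_apply0 (p : ℝ) (c : G) (ψ : Vec G 2) (x : G) :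
    Rs p c ψ x 0 = (((2 : ℝ) ^ (1 / 2 - 1 / p) : ℝ) : ℂ) *
      ((((Real.sqrt (2 : ℕ) : ℝ) : ℂ))⁻¹ * (ψ x 0 + ψ x 1)) := by
  unfold Rs
  rw [LinearMap.smul_apply, Pi.smul_apply, Pi.smul_apply, smul_eq_mul, Rad_apply]
  simp [had, lc, Fin.sum_univ_two]

theorem Rs_apply1 (p : ℝ) (c : G) (ψ : Vec G 2) (x : G) :
    Rs p c ψ x 1 = (((2 : ℝ) ^ (1 / 2 - 1 / p) : ℝ) : ℂ) *
      ((((Real.sqrt (2 : ℕ) : ℝ) : ℂ))⁻¹ * (ψ (c * x) 0 - ψ (c * x) 1)) := by
  unfold Rs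
  rw [LinearMap.smul_apply, Pi.smul_apply, Pi.smul_apply, smul_eq_mul, Rad_apply]
  simp [had, lc, Fin.sum_univ_two, sub_eq_add_neg]

theorem coef (p : ℝ) (hp : 0 < p) (z : ℂ) :
    ‖(((2 : ℝ) ^ (1 / 2 - 1 / p) : ℝ) : ℂ) *
      ((((Real.sqrt (2 : ℕ) : ℝ) : ℂ))⁻¹ * z)‖ ^ p = (1 / 2) * ‖z‖ ^ p := by
  rw [norm_mul, norm_mul, norm_inv, Complex.norm_real, Complex.norm_real, Real.norm_of_nonneg
    (by positivity : (0 : ℝ) ≤ (2 : ℝ) ^ (1 / 2 - 1 / p)), Real.norm_of_nonneg (Real.sqrt_nonneg _)]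
  have h1 : Real.sqrt ((2 : ℕ) : ℝ) = (2 : ℝ) ^ (1 / 2 : ℝ) := by
    rw [Real.sqrt_eq_rpow]
    norm_num
  rw [h1, ← mul_assoc, ← Real.rpow_neg (by norm_num), ← Real.rpow_add (by norm_num),
    Real.mul_rpow (by positivity) (norm_nonneg _), ← Real.rpow_mul (by norm_num)]
  have h2 : (1 / 2 - 1 / p + -(1 / 2)) * p = -1 := by
    field_simp
    ring
  rw [h2, Real.rpow_neg_one]
  norm_num

theorem two_pts {p : ℝ} (hp : 1 < p) (hp2 : p < 2) (a b : ℂ) :
    (1 / 2) * ‖a + b‖ ^ p + (1 / 2) * ‖a - b‖ ^ p ≤ ‖a‖ ^ p + ‖b‖ ^ p := by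
  have hpos : (0 : ℝ) < p := by linarith
  have e : ∀ z : ℂ, ‖z‖ ^ p = (‖z‖ ^ 2) ^ (p / 2) := by
    intro z
    rw [← Real.rpow_natCast, ← Real.rpow_mul (norm_nonneg _)]
    congr 1
    push_cast
    ring
  have hpar : ‖a + b‖ ^ 2 + ‖a - b‖ ^ 2 = 2 * (‖a‖ ^ 2 + ‖b‖ ^ 2) := by
    have := parallelogram_law_with_norm ℝ a b
    nlinarith [this]
  have hc : ConcaveOn ℝ (Set.Ici 0) fun t : ℝ => t ^ (p / 2) :=
    Real.concaveOn_rpow (by linarith) (by linarith)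
  have h1 := hc.2 (Set.mem_Ici.2 (by positivity : (0 : ℝ) ≤ ‖a + b‖ ^ 2))
    (Set.mem_Ici.2 (by positivity : (0 : ℝ) ≤ ‖a - b‖ ^ 2)) (by norm_num : (0 : ℝ) ≤ 1 / 2)
    (by norm_num : (0 : ℝ) ≤ 1 / 2) (by norm_num)
  simp only [smul_eq_mul] at h1
  rw [← e, ← e] at h1
  have h2 : (1 / 2 : ℝ) * ‖a + b‖ ^ 2 + 1 / 2 * ‖a - b‖ ^ 2 = ‖a‖ ^ 2 + ‖b‖ ^ 2 := by
    nlinarith [hpar]
  rw [h2] at h1
  refine h1.trans ?_
  rw [e a, e b]
  exact Real.rpow_add_le_add_rpow (by positivity) (by positivity) (by linarith) (by linarith)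

theorem fs_Rs {p : ℝ} {c : G} {ψ : Vec G 2} (h : FS ψ) : FS (Rs p c ψ) := by
  unfold Rs
  rw [LinearMap.smul_apply]
  exact (h.Rad _ _).smul _

theorem nrm_Rs {p : ℝ} (hp : 1 < p) (hp2 : p < 2) (c : G) {ψ : Vec G 2} (h : FS ψ) :
    nrm p (Rs p c ψ) ≤ nrm p ψ := by
  have hpos : (0 : ℝ) < p := by linarith
  have hs : ∀ φ : Vec G 2, FS φ → ∀ i : Fin 2, Summable fun x => ‖φ x i‖ ^ p := by
    intro φ hφ i
    refine summable_of_hasFiniteSupport (hφ.subset fun x hx => ?_)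
    intro h0
    apply hx
    simp [h0, hpos.ne']
  set F1 : G → ℝ := fun x => (1 / 2) * ‖ψ x 0 + ψ x 1‖ ^ p
  set F2 : G → ℝ := fun x => (1 / 2) * ‖ψ x 0 - ψ x 1‖ ^ p
  have hF1 : Summable F1 := by
    refine summable_of_hasFiniteSupport (h.subset fun x hx => ?_)
    intro h0
    apply hx
    simp [F1, h0, hpos.ne']
  have hF2 : Summable F2 := by
    refine summable_of_hasFiniteSupport (h.subset fun x hx => ?_)
    intro h0
    apply hx
    simp [F2, h0, hpos.ne']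
  have hF2' : Summable fun x => F2 (c * x) := (Equiv.mulLeft c).summable_iff.2 hF2
  have h1 : nrm p (Rs p c ψ) = ∑' x, (F1 x + F2 (c * x)) := by
    unfold nrm
    refine tsum_congr fun x => ?_
    rw [Fin.sum_univ_two, Rs_apply0, Rs_apply1, coef p hpos, coef p hpos]
  have h2 : ∑' x, F2 (c * x) = ∑' x, F2 x := (Equiv.mulLeft c).tsum_eq F2
  rw [h1, hF1.tsum_add hF2', h2, ← hF1.tsum_add hF2]
  unfold nrm
  refine (hF1.add hF2).tsum_le_tsum (fun x => ?_) (nrm_summable hpos h)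
  rw [Fin.sum_univ_two]
  exact two_pts hp hp2 _ _

theorem Am_le {p : ℝ} (hp : 1 < p) (hp2 : p < 2) (m : ℕ) (c : Fin m → G) :
    ∀ ψ : Vec G 2, FS ψ → FS (Am p m c ψ) ∧ nrm p (Am p m c ψ) ≤ nrm p ψ := by
  induction m with
  | zero => exact fun ψ h => ⟨h, le_rfl⟩
  | succ m ih =>
    intro ψ h
    have h1 := ih (fun i => c i.succ) (Rs p (c 0) ψ) (fs_Rs h)
    exact ⟨h1.1, h1.2.trans (nrm_Rs hp hp2 _ h)⟩

theorem Am_pow {p : ℝ} (hp : 1 < p) (hp2 : p < 2) (m : ℕ) (c : Fin m → G) (r : ℕ) :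
    ∀ ψ : Vec G 2, FS ψ → FS (((Am p m c) ^ r) ψ) ∧ nrm p (((Am p m c) ^ r) ψ) ≤ nrm p ψ := by
  induction r with
  | zero => exact fun ψ h => ⟨h, le_rfl⟩
  | succ r ih =>
    intro ψ h
    have h0 := Am_le hp hp2 m c ψ h
    have h1 := ih (Am p m c ψ) h0.1
    rw [pow_succ]
    exact ⟨h1.1, h1.2.trans h0.2⟩

end CutAux

open CutAux Classical in
theorem p_cut (h : S_sgl.{u}) : S_cut.{u} := by
  intro p hp hp2 G _ m c r T χ hFS hSC hT
  have hpos : (0 : ℝ) < p := by linarith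
  set ψ : Vec G 2 := ((Am p m c) ^ r) χ with hψ
  set X : Set G := pts c T (Function.support χ) with hX
  have key : ∀ t ∈ T, ∀ q : G, χ q ≠ 0 →
      (∀ i j, i ≠ j → ψ ((wval c t)⁻¹ * q) i = 0 ∨ ψ ((wval c t)⁻¹ * q) j = 0) ∧
      mas p ψ ((wval c t)⁻¹ * q) = (1 / 2) ^ (m * r) * mas p χ q := by
    intro t ht q hq
    have h1 := h p hpos G m c r χ ((wval c t)⁻¹ * q) t
      (fun v hv => by
        rw [← mul_assoc]
        exact hT t ht v hv q hq)
      (fun i j hij => hSC _ i j hij)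
    rwa [mul_inv_cancel_left] at h1
  have hcutX : ∀ x ∈ X, cut X ψ x = ψ x := fun x hx => by
    unfold cut
    rw [Set.indicator_of_mem hx]
  have hcutX' : ∀ x, x ∉ X → cut X ψ x = 0 := fun x hx => by
    unfold cut
    rw [Set.indicator_of_notMem hx]
  -- the sum
  set Qf : Finset G := hFS.toFinset with hQf
  have hQm : ∀ q, q ∈ Qf ↔ χ q ≠ 0 := fun q => by
    rw [hQf, Set.Finite.mem_toFinset, Function.mem_support]
  let f : (Fin r → Fin m → Bool) × G → G := fun a => (wval c a.1)⁻¹ * a.2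
  have hinj : ∀ a ∈ T ×ˢ Qf, ∀ b ∈ T ×ˢ Qf, f a = f b → a = b := by
    rintro ⟨t, q⟩ ha ⟨s, q'⟩ hb hab
    rw [Finset.mem_product] at ha hb
    have ha1 := ha.1
    have ha2 := (hQm q).1 ha.2
    have hb2 := (hQm q').1 hb.2
    have hab' : (wval c t)⁻¹ * q = (wval c s)⁻¹ * q' := hab
    have hq' : q' = wval c s * (wval c t)⁻¹ * q := by
      rw [mul_assoc, hab', mul_inv_cancel_left]
    have hst : s = t := by
      by_contra hne
      apply hb2
      rw [hq']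
      exact hT t ha1 s hne q ha2
    subst hst
    have : q = q' := mul_left_cancel hab'
    rw [this]
  have hmem : ∀ t ∈ T, ∀ q, χ q ≠ 0 → (wval c t)⁻¹ * q ∈ X := fun t ht q hq =>
    ⟨t, ht, q, hq, rfl⟩
  have hsum : nrm p (cut X ψ) = T.card * (1 / 2) ^ (m * r) * nrm p χ := by
    rw [nrm_eq_sum hpos (s := (T ×ˢ Qf).image f)
      (fun x hx => hcutX' x fun hxX => hx (by
        obtain ⟨t, ht, q, hq, rfl⟩ := hxX
        exact Finset.mem_image.2 ⟨(t, q), Finset.mem_product.2 ⟨ht, (hQm q).2 hq⟩, rfl⟩)),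
      Finset.sum_image hinj, Finset.sum_product]
    have hχ : nrm p χ = ∑ q ∈ Qf, mas p χ q :=
      nrm_eq_sum hpos fun x hx => by
        by_contra hne
        exact hx ((hQm x).2 hne)
    rw [hχ, mul_assoc, Finset.mul_sum, ← nsmul_eq_mul, ← Finset.sum_const]
    refine Finset.sum_congr rfl fun t ht => Finset.sum_congr rfl fun q hq => ?_
    have hq' := (hQm q).1 hq
    have := (key t ht q hq').2
    rw [← this]
    have e := hcutX ((wval c t)⁻¹ * q) (hmem t ht q hq')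
    unfold mas
    exact Finset.sum_congr rfl fun i _ => by rw [show f (t, q) = (wval c t)⁻¹ * q from rfl, e]
  refine ⟨hsum, ?_, ?_⟩
  · intro x i j hij
    by_cases hx : x ∈ X
    · rw [hcutX x hx]
      obtain ⟨t, ht, q, hq, rfl⟩ := hx
      exact (key t ht q hq).1 i j hij
    · left
      rw [hcutX' x hx]
      rfl
  · have h1 := Am_pow hp hp2 m c r χ hFS
    have h2 := nrm_cut' hpos X h1.1
    rw [← hψ] at h1 h2
    rw [hsum] at h2
    have := h1.2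
    linarith
end Pool.Agent.UC
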