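import Pool.Agent.Lib.MP_830418_an.Full60.Stm
import Pool.Agent.Lib.MP_830418_an.Full60.Basic
open Finset

namespace Pool.Agent.UC

open Pool.Agent.PC Pool.Agent.Rich

universe u
variable {G : Type u} [Group G]

theorem exp_core (p : ℝ) (A : Module.End ℂ (Vec G 2)) (M : ℕ) :
    ∃ α β α' β' : ℕ → ℂ, (∀ j, (α j = 1 ∨ α j = -1) ∧ (β j = 1 ∨ β j = -1) ∧
      (α' j = 1 ∨ α' j = -1) ∧ (β' j = 1 ∨ β' j = -1)) ∧
    ∀ z : E G, (Jcs p A M z).1 + (Jcs p A M z).2 =
        k0 p ^ M • ∑ j ∈ range (2 ^ M), (A ^ j) (α j • z.1 + β j • z.2) ∧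
      (Jcs p A M z).1 - (Jcs p A M z).2 =
        k0 p ^ M • ∑ j ∈ range (2 ^ M), (A ^ j) (α' j • z.1 + β' j • z.2) := by
  induction M with
  | zero =>
    refine ⟨fun _ => 1, fun _ => 1, fun _ => 1, fun _ => -1, fun j => by simp, fun z => ?_⟩
    have h : Jcs p A 0 z = z := rfl
    rw [h]
    simp [sub_eq_add_neg]
  | succ M ih =>
    obtain ⟨α, β, α', β', hs, hz⟩ := ih
    refine ⟨fun j => if j < 2 ^ M then α j else β (j - 2 ^ M),
      fun j => if j < 2 ^ M then α j else -β (j - 2 ^ M),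
      fun j => if j < 2 ^ M then α' j else β' (j - 2 ^ M),
      fun j => if j < 2 ^ M then α' j else -β' (j - 2 ^ M), ?_, ?_⟩
    · intro j
      have hneg : ∀ t : ℂ, (t = 1 ∨ t = -1) → (-t = 1 ∨ -t = -1) := by
        rintro t (h | h) <;> rw [h] <;> simp
      by_cases hj : j < 2 ^ M
      · simp only [hj, if_true]
        exact ⟨(hs j).1, (hs j).1, (hs j).2.2.1, (hs j).2.2.1⟩
      · simp only [hj, if_false]
        have := hs (j - 2 ^ M)
        exact ⟨this.2.1, hneg _ this.2.1, this.2.2.2, hneg _ this.2.2.2⟩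
    · intro z
      have h1 : Jcs p A (M + 1) z = Jcs p A M (Js p (A ^ (2 ^ M)) z) := rfl
      have key : ∀ a b : ℕ → ℂ,
          k0 p ^ M • ∑ j ∈ range (2 ^ M), (A ^ j) (a j • (Js p (A ^ (2 ^ M)) z).1 +
            b j • (Js p (A ^ (2 ^ M)) z).2) =
          k0 p ^ (M + 1) • ∑ j ∈ range (2 ^ (M + 1)), (A ^ j)
            ((if j < 2 ^ M then a j else b (j - 2 ^ M)) • z.1 +
              (if j < 2 ^ M then a j else -b (j - 2 ^ M)) • z.2) := by
        intro a b
        have h2 : (2 : ℕ) ^ (M + 1) = 2 ^ M + 2 ^ M := by ring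
        rw [h2, Finset.sum_range_add, Js_apply, pow_succ, mul_smul, ← Finset.sum_add_distrib,
          Finset.smul_sum (r := k0 p)]
        congr 1
        refine Finset.sum_congr rfl fun j hj => ?_
        have hj' := Finset.mem_range.1 hj
        have e1 : ¬ (2 ^ M + j < 2 ^ M) := by omega
        have e2 : 2 ^ M + j - 2 ^ M = j := by omega
        simp only [hj', e1, if_true, if_false, e2]
        have e3 : (A ^ (2 ^ M + j)) (b j • z.1 + -b j • z.2) =
            (A ^ j) ((A ^ (2 ^ M)) (b j • (z.1 - z.2))) := by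
          rw [add_comm (2 ^ M) j, pow_add, Module.End.mul_apply, neg_smul, smul_sub,
            sub_eq_add_neg]
        rw [e3, ← map_add (A ^ j), ← LinearMap.map_smul (A ^ j) (k0 p),
          LinearMap.map_smul (A ^ 2 ^ M) (b j)]
        congr 1
        simp only [smul_add, smul_smul, mul_comm (k0 p)]
      rw [h1, (hz _).1, (hz _).2]
      exact ⟨key α β, key α' β'⟩

theorem p_exp : S_exp.{u} := by
  intro p G _ A g M
  obtain ⟨α, β, α', β', hs, hz⟩ := exp_core p A M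
  refine ⟨α, β, α', β', hs, fun z => ?_⟩
  set w : E G := Jcs p A M ((A ^ (2 ^ M)) z.1, (A ^ (2 ^ M)) z.2) with hw
  have h1 : Ts p A g M z = (k0 p • (w.1 + w.2), k0 p • tr g⁻¹ (w.1 - w.2)) := rfl
  obtain ⟨h2, h3⟩ := hz ((A ^ (2 ^ M)) z.1, (A ^ (2 ^ M)) z.2)
  rw [← hw] at h2 h3
  have h4 : ∀ (a b : ℂ) (j : ℕ), (A ^ j) (a • (A ^ (2 ^ M)) z.1 + b • (A ^ (2 ^ M)) z.2) =
      (A ^ (2 ^ M + j)) (a • z.1 + b • z.2) := fun a b j => by
    rw [add_comm (2 ^ M) j, pow_add, Module.End.mul_apply, map_add (A ^ (2 ^ M)), map_smul,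
      map_smul]
  simp only [h4] at h2 h3
  rw [h1, h2, h3, smul_smul, ← pow_succ', ← map_smul, smul_smul, ← pow_succ']

end Pool.Agent.UC
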