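import Pool.Agent.Lib.MP_830418_an.Full60.Stm
import Pool.Agent.Lib.MP_830418_an.Full60.Basic
import Pool.Agent.Lib.MP_830418_an.Flat.P_neu
open Finset

namespace Pool.Agent.UC

open Pool.Agent.PC Pool.Agent.Rich

universe u

theorem p_gen : S_gen.{u} := by
  classical
  intro G _ m c g J ε T hD P Y hP hY
  have hg : NonFC g := by
    have := hD.n3 0 0 (Nat.zero_le _) (Nat.zero_le _) (fun i => i.elim0) (fun i => i.elim0)
    simpa [wval] using this
  have : Infinite G := hg.infinite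
  let Wd := Σ r : Fin (J + 1), (Fin r → Fin m → Bool)
  let val : Wd → G := fun w => wval c w.2
  have hmem : ∀ r, r ≤ J → ∀ t : Fin r → Fin m → Bool, ∃ w : Wd, val w = wval c t :=
    fun r hr t => ⟨⟨⟨r, by omega⟩, t⟩, rfl⟩
  let T1 : Finset G := ((Finset.univ : Finset (Wd × Wd)).image
    fun q => val q.1 * (val q.2)⁻¹).filter (fun x => NonFC x) ∪
    (Finset.univ : Finset (Wd × Wd)).image fun q => val q.1 * g * (val q.2)⁻¹
  let Z : Finset G := (hP.toFinset ×ˢ hP.toFinset).image fun q => q.1 * q.2⁻¹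
  let Y1 : Finset G := ((hP.toFinset ×ˢ hY.toFinset) ×ˢ (Finset.univ : Finset Wd)).image
    (fun q => q.1.1 * q.1.2⁻¹ * (val q.2)⁻¹) ∪
    ((hP.toFinset ×ˢ hY.toFinset) ×ˢ (Finset.univ : Finset Wd)).image
    (fun q => q.1.1 * q.1.2⁻¹ * g⁻¹ * (val q.2)⁻¹)
  have hT1 : ∀ t ∈ T1, NonFC t := by
    intro t ht
    rcases Finset.mem_union.1 ht with h | h
    · exact (Finset.mem_filter.1 h).2
    · obtain ⟨⟨w, w'⟩, -, rfl⟩ := Finset.mem_image.1 h
      exact hD.n3 _ _ (Nat.lt_succ_iff.1 w.1.2) (Nat.lt_succ_iff.1 w'.1.2) w.2 w'.2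
  obtain ⟨b, hbY, hbT⟩ := p_neu G T1 Z Y1 hT1
  have hpair : ∀ r r', r ≤ J → r' ≤ J → ∀ (s : Fin r → Fin m → Bool) (t : Fin r' → Fin m → Bool),
      NonFC (wval c s * (wval c t)⁻¹) → ∀ q q', b * q ∈ P → b * q' ∈ P →
      wval c s * (wval c t)⁻¹ * q ≠ q' := by
    intro r r' hr hr' s t hst q q' hq hq' he
    obtain ⟨w, hw⟩ := hmem r hr s
    obtain ⟨w', hw'⟩ := hmem r' hr' t
    refine hbT (wval c s * (wval c t)⁻¹) ?_ ?_
    · refine Finset.mem_union_left _ (Finset.mem_filter.2 ⟨?_, hst⟩)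
      exact Finset.mem_image.2 ⟨(w, w'), Finset.mem_univ _, by rw [hw, hw']⟩
    · refine Finset.mem_image.2 ⟨(b * q', b * q), ?_, ?_⟩
      · rw [Finset.mem_product, Set.Finite.mem_toFinset, Set.Finite.mem_toFinset]
        exact ⟨hq', hq⟩
      · rw [← he]
        group
  have hpairg : ∀ r r', r ≤ J → r' ≤ J → ∀ (s : Fin r → Fin m → Bool)
      (t : Fin r' → Fin m → Bool), ∀ q q', b * q ∈ P → b * q' ∈ P →
      wval c s * g * (wval c t)⁻¹ * q ≠ q' := by
    intro r r' hr hr' s t q q' hq hq' he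
    obtain ⟨w, hw⟩ := hmem r hr s
    obtain ⟨w', hw'⟩ := hmem r' hr' t
    refine hbT (wval c s * g * (wval c t)⁻¹) ?_ ?_
    · refine Finset.mem_union_right _ ?_
      exact Finset.mem_image.2 ⟨(w, w'), Finset.mem_univ _, by rw [hw, hw']⟩
    · refine Finset.mem_image.2 ⟨(b * q', b * q), ?_, ?_⟩
      · rw [Finset.mem_product, Set.Finite.mem_toFinset, Set.Finite.mem_toFinset]
        exact ⟨hq', hq⟩
      · rw [← he]
        group
  refine ⟨b, ⟨?_, ?_, ?_, ?_, ?_⟩⟩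
  · intro r hr t ht s hst q hq hq'
    exact hpair r r hr hr s t (hD.n1 r hr t ht s hst) q _ hq hq' rfl
  · intro r r' hr hr' hrr
    rw [Set.disjoint_left]
    rintro x ⟨t, ht, q, hq, rfl⟩ ⟨s, hs, q', hq', he⟩
    refine hpair r' r hr' hr s t (hD.n2 r r' hr hr' hrr t ht s hs) q q' hq hq' ?_
    rw [mul_assoc, he, mul_inv_cancel_left]
  · rintro r r' hr hr' x ⟨t, ht, q, hq, rfl⟩ ⟨s, hs, q', hq', he⟩
    refine hpairg r' r hr' hr s t q q' hq hq' ?_
    rw [mul_assoc, mul_assoc, he, mul_inv_cancel_left]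
  · intro r hr
    rw [Set.disjoint_left]
    rintro x ⟨t, ht, q, hq, rfl⟩ hy
    obtain ⟨w, hw⟩ := hmem r hr t
    apply hbY
    refine Finset.mem_union_left _ (Finset.mem_image.2
      ⟨((b * q, (wval c t)⁻¹ * q), w), ?_, ?_⟩)
    · rw [Finset.mem_product, Finset.mem_product, Set.Finite.mem_toFinset,
        Set.Finite.mem_toFinset]
      exact ⟨⟨hq, hy⟩, Finset.mem_univ _⟩
    · simp only [hw]
      group
  · rintro r hr x ⟨t, ht, q, hq, he⟩ hy
    obtain ⟨w, hw⟩ := hmem r hr t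
    have hq' : q = wval c t * (g * x) := by rw [he, mul_inv_cancel_left]
    apply hbY
    refine Finset.mem_union_right _ (Finset.mem_image.2 ⟨((b * q, x), w), ?_, ?_⟩)
    · rw [Finset.mem_product, Finset.mem_product, Set.Finite.mem_toFinset,
        Set.Finite.mem_toFinset]
      exact ⟨⟨hq, hy⟩, Finset.mem_univ _⟩
    · simp only [hw, hq']
      group

end Pool.Agent.UC
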