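import Pool.Agent.Lib.MP_830418_an.Full60.Stm

open Filter

namespace Pool.Agent.UC

theorem nmu_core (p : ℝ) (hp : 1 < p) (hp2 : p < 2) (C : ℝ) (hC : 0 ≤ C) (R : ℝ) (hR : 0 ≤ R) :
    ∃ (K M : ℕ) (ε : ℝ),
    0 < ε ∧ ε ≤ 1 ∧ 1 ≤ K ∧ ∀ h hb : ℝ, (1 - ε) * ((2 : ℝ) ^ M) ^ (p + 1) ≤ h →
    h ≤ 3 * ((2 : ℝ) ^ M) ^ (p + 1) → 0 ≤ hb →
    hb ≤ (3 * (2 : ℝ) ^ M) ^ p * ((2 : ℝ) ^ M) ^ p * ε →
    8 * (R * ((K : ℝ) ^ (p - 1) * ((K : ℝ) * (2 ^ (p - 1) * 2 ^ M) +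
      2 ^ (p - 1) * (C * ((2 : ℝ) ^ M) ^ p)))) *
        (2 * (2 * (2 : ℝ) ^ M + (2 * (2 : ℝ) ^ M) ^ p * ε)) <
      K * (1 - ε) ^ K * h / 2 - 4 ^ K * (hb + ((2 : ℝ) ^ M) ^ (p - 1) * ε * K * h) := by
  obtain ⟨A, hA⟩ : ∃ A : ℝ, A = 2 ^ (p - 1) * (1 + C) := ⟨_, rfl⟩
  have h2p : (0 : ℝ) < 2 ^ (p - 1) := Real.rpow_pos_of_pos two_pos _
  have hA0 : 0 < A := by rw [hA]; positivity
  -- choose K
  have hK1 : Tendsto (fun K : ℕ => (K : ℝ) ^ (2 - p)) atTop atTop :=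
    (tendsto_rpow_atTop (by linarith : 0 < 2 - p)).comp tendsto_natCast_atTop_atTop
  obtain ⟨K, hK, hK1'⟩ := ((hK1.eventually_gt_atTop (384 * R * A)).and
    (eventually_ge_atTop 1)).exists
  have hKpos : (0 : ℝ) < K := by exact_mod_cast hK1'
  have hKK : (K : ℝ) ^ (2 - p) * (K : ℝ) ^ (p - 1) = K := by
    rw [← Real.rpow_add hKpos]; norm_num
  have hKp : 0 < (K : ℝ) ^ (p - 1) := Real.rpow_pos_of_pos hKpos _
  have hkey : 384 * R * A * (K : ℝ) ^ (p - 1) < K := by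
    calc 384 * R * A * (K : ℝ) ^ (p - 1) < (K : ℝ) ^ (2 - p) * (K : ℝ) ^ (p - 1) :=
          mul_lt_mul_of_pos_right hK hKp
      _ = K := hKK
  -- choose M
  have hM1 : Tendsto (fun M : ℕ => ((2 : ℝ) ^ M) ^ (p - 1)) atTop atTop :=
    (tendsto_rpow_atTop (by linarith : 0 < p - 1)).comp
      (tendsto_pow_atTop_atTop_of_one_lt one_lt_two)
  obtain ⟨M, hM⟩ := (hM1.eventually_ge_atTop (K : ℝ)).exists
  obtain ⟨L, hL⟩ : ∃ L : ℝ, L = (2 : ℝ) ^ M := ⟨_, rfl⟩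
  have hLpos : 0 < L := by rw [hL]; positivity
  rw [← hL] at hM
  have hLp1 : 0 < L ^ (p - 1) := Real.rpow_pos_of_pos hLpos _
  have hLp : 0 < L ^ p := Real.rpow_pos_of_pos hLpos _
  have hLpe : L ^ p = L ^ (p - 1) * L := by
    rw [← Real.rpow_add_one hLpos.ne']; norm_num
  have hLpe1 : L ^ (p + 1) = L ^ p * L := Real.rpow_add_one hLpos.ne' _
  have hLpp : 0 < L ^ (p + 1) := Real.rpow_pos_of_pos hLpos _
  obtain ⟨B, hB⟩ : ∃ B : ℝ, B = 4 ^ K * ((3 * L) ^ p * L ^ p + L ^ (p - 1) * K * (3 * L ^ (p + 1))) :=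
    ⟨_, rfl⟩
  have hBpos : 0 < B := by
    rw [hB]; positivity
  have h2L : 0 < (2 * L) ^ p := by positivity
  obtain ⟨ε, hε0, hε1, hε2, hε3, hε4⟩ : ∃ ε : ℝ, 0 < ε ∧ ε ≤ 1 ∧ (K + 1) * ε ≤ 1 / 2 ∧
      (2 * L) ^ p * ε ≤ L ∧ B * ε ≤ K * L ^ (p + 1) / 8 := by
    refine ⟨min (1 / (2 * (K + 1))) (min (L / (2 * L) ^ p) (K * L ^ (p + 1) / 8 / B)), ?_, ?_, ?_, ?_, ?_⟩
    · refine lt_min (by positivity) (lt_min (by positivity) (by positivity))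
    · refine (min_le_left _ _).trans ?_
      rw [div_le_one (by positivity)]
      linarith
    · calc (K + 1 : ℝ) * _ ≤ (K + 1) * (1 / (2 * (K + 1))) :=
            mul_le_mul_of_nonneg_left (min_le_left _ _) (by positivity)
        _ = 1 / 2 := by field_simp
    · calc (2 * L) ^ p * _ ≤ (2 * L) ^ p * (L / (2 * L) ^ p) :=
            mul_le_mul_of_nonneg_left ((min_le_right _ _).trans (min_le_left _ _)) h2L.le
        _ = L := by field_simp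
    · calc B * _ ≤ B * (K * L ^ (p + 1) / 8 / B) :=
            mul_le_mul_of_nonneg_left ((min_le_right _ _).trans (min_le_right _ _)) hBpos.le
        _ = K * L ^ (p + 1) / 8 := by field_simp
  refine ⟨K, M, ε, hε0, hε1, hK1', ?_⟩
  intro h hb hh1 hh2 hb0 hb1
  rw [← hL] at hh1 hh2 hb1 ⊢
  have h1e : 0 ≤ 1 - ε := by linarith
  -- left side
  have hl1 : (K : ℝ) * (2 ^ (p - 1) * L) + 2 ^ (p - 1) * (C * L ^ p) ≤ A * L ^ p := by
    have : (K : ℝ) * L ≤ L ^ p := by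
      rw [hLpe]; exact mul_le_mul_of_nonneg_right hM hLpos.le
    rw [hA]
    have h3 := mul_le_mul_of_nonneg_left this h2p.le
    nlinarith [h3]
  have hl2 : 2 * (2 * L + (2 * L) ^ p * ε) ≤ 6 * L := by linarith
  have hl3 : 0 ≤ 2 * (2 * L + (2 * L) ^ p * ε) := by positivity
  have hl4 : 8 * (R * ((K : ℝ) ^ (p - 1) * ((K : ℝ) * (2 ^ (p - 1) * L) +
      2 ^ (p - 1) * (C * L ^ p)))) * (2 * (2 * L + (2 * L) ^ p * ε)) ≤
      8 * (R * ((K : ℝ) ^ (p - 1) * (A * L ^ p))) * (6 * L) := by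
    refine mul_le_mul ?_ hl2 hl3 (by positivity)
    refine mul_le_mul_of_nonneg_left ?_ (by norm_num)
    refine mul_le_mul_of_nonneg_left ?_ hR
    exact mul_le_mul_of_nonneg_left hl1 hKp.le
  have hl5 : 8 * (R * ((K : ℝ) ^ (p - 1) * (A * L ^ p))) * (6 * L) < K * L ^ (p + 1) / 8 := by
    rw [hLpe1]
    have : 8 * (R * ((K : ℝ) ^ (p - 1) * (A * L ^ p))) * (6 * L) =
        (384 * R * A * (K : ℝ) ^ (p - 1)) * (L ^ p * L) / 8 := by ring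
    rw [this]
    have h6 : 0 < L ^ p * L := by positivity
    have := mul_lt_mul_of_pos_right hkey h6
    linarith
  -- right side
  have hr1 : (1 : ℝ) / 2 ≤ (1 - ε) ^ (K + 1) := by
    have := one_add_mul_le_pow (a := -ε) (by linarith) (K + 1)
    push_cast at this
    have h7 : (1 : ℝ) + -ε = 1 - ε := by ring
    rw [h7] at this
    nlinarith [this, hε2]
  have hr2 : (K : ℝ) * L ^ (p + 1) / 4 ≤ K * (1 - ε) ^ K * h / 2 := by
    have h8 : (1 - ε) ^ K * ((1 - ε) * L ^ (p + 1)) ≤ (1 - ε) ^ K * h :=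
      mul_le_mul_of_nonneg_left hh1 (pow_nonneg h1e _)
    have h9 : (1 - ε) ^ K * ((1 - ε) * L ^ (p + 1)) = (1 - ε) ^ (K + 1) * L ^ (p + 1) := by
      rw [pow_succ]; ring
    have h10 : 1 / 2 * L ^ (p + 1) ≤ (1 - ε) ^ (K + 1) * L ^ (p + 1) :=
      mul_le_mul_of_nonneg_right hr1 hLpp.le
    have h11 : 1 / 2 * L ^ (p + 1) ≤ (1 - ε) ^ K * h := by linarith
    have h12 := mul_le_mul_of_nonneg_left h11 hKpos.le
    nlinarith [h12]
  have hr3 : 4 ^ K * (hb + L ^ (p - 1) * ε * K * h) ≤ K * L ^ (p + 1) / 8 := by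
    refine le_trans ?_ hε4
    have h13 : hb + L ^ (p - 1) * ε * K * h ≤
        (3 * L) ^ p * L ^ p * ε + L ^ (p - 1) * ε * K * (3 * L ^ (p + 1)) := by
      have : L ^ (p - 1) * ε * K * h ≤ L ^ (p - 1) * ε * K * (3 * L ^ (p + 1)) :=
        mul_le_mul_of_nonneg_left hh2 (by positivity)
      linarith
    have h14 := mul_le_mul_of_nonneg_left h13 (by positivity : (0 : ℝ) ≤ 4 ^ K)
    refine h14.trans (le_of_eq ?_)
    rw [hB]; ring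
  linarith

/-- numbers -/
theorem p_nmu : S_nmu := by
  intro p hp hp2 R hR
  exact nmu_core p hp hp2 (DS.Cp p) (DS.Cp_nonneg hp hp2) R hR

end Pool.Agent.UC
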