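import Pool.Agent.Lib.MP_830418_an.Full60.Stm
import Pool.Agent.Lib.MP_830418_an.Full60.Basic
import Pool.Agent.Lib.MP_830418_an.Flat.P_rep1
open Finset

namespace Pool.Agent.UC

open Pool.Agent.PC Pool.Agent.Rich

universe u

section

variable {G : Type u} [Group G]

theorem rep_zero : Rep (0 : Vec G 2 →ₗ[ℂ] Vec G 2) 0 := (p_rep1 G 2).2.2.2.1

theorem rep_add {T Ts T' Ts' : Vec G 2 →ₗ[ℂ] Vec G 2} (h : Rep T Ts) (h' : Rep T' Ts') :
    Rep (T + T') (Ts + Ts') := (p_rep1 G 2).2.2.2.2.1 _ _ _ _ h h'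

theorem rep_smul (r : ℝ) {T Ts : Vec G 2 →ₗ[ℂ] Vec G 2} (h : Rep T Ts) :
    Rep ((r : ℂ) • T) ((r : ℂ) • Ts) := (p_rep1 G 2).2.2.2.2.2.1 r _ _ h

theorem rep_comp {T Ts T' Ts' : Vec G 2 →ₗ[ℂ] Vec G 2} (h : Rep T Ts) (h' : Rep T' Ts') :
    Rep (T.comp T') (Ts'.comp Ts) := (p_rep1 G 2).2.2.2.2.2.2 _ _ _ _ h h'

theorem rep_tr (g : G) : Rep (tr (N := 2) g) (tr g⁻¹) := (p_rep1 G 2).1 g

theorem rep_one : Rep (LinearMap.id : Vec G 2 →ₗ[ℂ] Vec G 2) LinearMap.id := by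
  have h := rep_tr (G := G) 1
  have e : (tr (1 : G) : Vec G 2 →ₗ[ℂ] Vec G 2) = LinearMap.id := by
    ext φ x
    simp [tr_apply]
  rw [inv_one, e] at h
  exact h

theorem rep_Rn (p : ℝ) (c : G) : Rep (Rn p c) (Rs p c) :=
  rep_smul _ ((p_rep1 G 2).2.1 had (lc c))

theorem rep_Um (p : ℝ) {m : ℕ} (c : Fin m → G) : Rep (Um p m c) (Am p m c) := by
  induction m with
  | zero => exact rep_one
  | succ m ih => exact rep_comp (rep_Rn p (c 0)) (ih fun i => c i.succ)

theorem rep_pow {S A : Module.End ℂ (Vec G 2)} (h : Rep S A) (n : ℕ) : Rep (S ^ n) (A ^ n) := by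
  induction n with
  | zero => exact rep_one
  | succ n ih =>
    rw [pow_succ, pow_succ']
    exact rep_comp ih h

theorem rep_sum {S A : Module.End ℂ (Vec G 2)} (h : Rep S A) (n : ℕ) :
    Rep (∑ j ∈ range n, S ^ j) (∑ j ∈ range n, A ^ j) := by
  induction n with
  | zero => exact rep_zero
  | succ n ih =>
    rw [Finset.sum_range_succ, Finset.sum_range_succ]
    exact rep_add ih (rep_pow h n)

theorem rep2_add {F F' : _} {H : E G →ₗ[ℂ] Vec G 2} {H' : Vec G 2 →ₗ[ℂ] E G}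
    (h : Rep2 (G := G) F F') (h' : Rep2 H H') : Rep2 (F + H) (F' + H') := by
  refine ⟨?_, ?_⟩
  · rw [LinearMap.add_comp, LinearMap.comp_add]
    exact rep_add h.1 h'.1
  · rw [LinearMap.add_comp, LinearMap.comp_add]
    exact rep_add h.2 h'.2

theorem split_E (F : E G →ₗ[ℂ] Vec G 2) (z : E G) : F z = F (z.1, 0) + F (0, z.2) := by
  rw [← map_add]
  congr 1
  ext1 <;> simp

theorem split_E' (F : E G →ₗ[ℂ] E G) (z : E G) : F z = F (z.1, 0) + F (0, z.2) := by
  rw [← map_add]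
  congr 1
  ext1 <;> simp

theorem rep2_comp {F : E G →ₗ[ℂ] Vec G 2} {F' : Vec G 2 →ₗ[ℂ] E G} {T T' : E G →ₗ[ℂ] E G}
    (h : Rep2 F F') (h' : Rep22 T T') : Rep2 (F.comp T) (T'.comp F') := by
  have key : ∀ ψ : Vec G 2, T' (F' ψ) = T' ((F' ψ).1, 0) + T' (0, (F' ψ).2) :=
    fun ψ => split_E' T' _
  refine ⟨?_, ?_⟩
  · have h1 := rep_add (rep_comp h.1 h'.1.1) (rep_comp h.2 h'.2.1)
    convert h1 using 1
    · refine LinearMap.ext fun φ => ?_
      exact split_E F (T (φ, 0))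
    · refine LinearMap.ext fun ψ => ?_
      exact congrArg Prod.fst (key ψ)
  · have h1 := rep_add (rep_comp h.1 h'.1.2) (rep_comp h.2 h'.2.2)
    convert h1 using 1
    · refine LinearMap.ext fun φ => ?_
      exact split_E F (T (0, φ))
    · refine LinearMap.ext fun ψ => ?_
      exact congrArg Prod.snd (key ψ)

theorem rep22_comp {T T' S S' : E G →ₗ[ℂ] E G} (h : Rep22 T T') (h' : Rep22 S S') :
    Rep22 (T.comp S) (S'.comp T') :=
  ⟨rep2_comp (F := (LinearMap.fst ℂ (Vec G 2) (Vec G 2)).comp T)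
      (F' := T'.comp (LinearMap.inl ℂ (Vec G 2) (Vec G 2))) h.1 h',
    rep2_comp (F := (LinearMap.snd ℂ (Vec G 2) (Vec G 2)).comp T)
      (F' := T'.comp (LinearMap.inr ℂ (Vec G 2) (Vec G 2))) h.2 h'⟩

theorem rep22_one : Rep22 (LinearMap.id : E G →ₗ[ℂ] E G) LinearMap.id :=
  ⟨⟨rep_one, rep_zero⟩, ⟨rep_zero, rep_one⟩⟩

theorem rep22_prod {S A : Vec G 2 →ₗ[ℂ] Vec G 2} (h : Rep S A) :
    Rep22 (S.prodMap S) (A.prodMap A) := by
  refine ⟨⟨?_, ?_⟩, ⟨?_, ?_⟩⟩
  · exact h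
  · convert rep_zero using 1 <;>
    · refine LinearMap.ext fun φ => ?_
      first
        | exact map_zero S
        | exact map_zero A
  · convert rep_zero using 1 <;>
    · refine LinearMap.ext fun φ => ?_
      first
        | exact map_zero S
        | exact map_zero A
  · exact h

theorem rep22_J (p : ℝ) {S A : Vec G 2 →ₗ[ℂ] Vec G 2} (h : Rep S A) :
    Rep22 (Jn p S) (Js p A) := by
  have h1 := rep_smul ((2 : ℝ) ^ (-(1 / p))) (rep_one (G := G))
  have h2 := rep_smul ((2 : ℝ) ^ (-(1 / p))) h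
  have h3 := rep_smul (-(2 : ℝ) ^ (-(1 / p))) h
  have e3 : ((-(2 : ℝ) ^ (-(1 / p)) : ℝ) : ℂ) = -k0 p := by
    unfold k0
    push_cast
    rfl
  rw [e3] at h3
  refine ⟨⟨?_, ?_⟩, ⟨?_, ?_⟩⟩
  · convert h1 using 1
    · refine LinearMap.ext fun φ => ?_
      show k0 p • (φ + S 0) = k0 p • φ
      rw [map_zero, add_zero]
    · refine LinearMap.ext fun φ => ?_
      show k0 p • (φ + 0) = k0 p • φ
      rw [add_zero]
  · convert h2 using 1
    · refine LinearMap.ext fun φ => ?_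
      show k0 p • (0 + S φ) = k0 p • S φ
      rw [zero_add]
    · refine LinearMap.ext fun φ => ?_
      show k0 p • A (φ - 0) = k0 p • A φ
      rw [sub_zero]
  · convert h1 using 1
    · refine LinearMap.ext fun φ => ?_
      show k0 p • (φ - S 0) = k0 p • φ
      rw [map_zero, sub_zero]
    · refine LinearMap.ext fun φ => ?_
      show k0 p • (0 + φ) = k0 p • φ
      rw [zero_add]
  · convert h3 using 1
    · refine LinearMap.ext fun φ => ?_
      show k0 p • (0 - S φ) = -k0 p • S φ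
      rw [zero_sub, smul_neg, neg_smul]
    · refine LinearMap.ext fun φ => ?_
      show k0 p • A (0 - φ) = -k0 p • A φ
      rw [zero_sub, map_neg, smul_neg, neg_smul]

theorem rep22_Jc (p : ℝ) {S A : Module.End ℂ (Vec G 2)} (h : Rep S A) (s : ℕ) :
    Rep22 (Jc p S s) (Jcs p A s) := by
  induction s with
  | zero => exact rep22_one
  | succ s ih => exact rep22_comp (rep22_J p (rep_pow h (2 ^ s))) ih

theorem rep22_Tn (p : ℝ) {S A : Module.End ℂ (Vec G 2)} (h : Rep S A) (g : G) (M : ℕ) :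
    Rep22 (Tn p S g M) (Ts p A g M) := by
  have h1 := rep22_comp (rep22_prod (rep_pow h (2 ^ M)))
    (rep22_comp (rep22_Jc p h M) (rep22_J p (rep_tr g)))
  exact h1

theorem rep2_D {S A : Module.End ℂ (Vec G 2)} (h : Rep S A) (M : ℕ) :
    Rep2 (Df S M) (Dfs A M) := by
  refine ⟨rep_sum h (2 ^ M), ?_⟩
  have e1 : (Df S M).comp (LinearMap.inr ℂ (Vec G 2) (Vec G 2)) = 0 := by
    refine LinearMap.ext fun φ => ?_
    show Dn S M 0 = 0
    exact map_zero _
  have e2 : (LinearMap.snd ℂ (Vec G 2) (Vec G 2)).comp (Dfs A M) = 0 := rfl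
  rw [e1, e2]
  exact rep_zero

end

theorem p_rep : S_rep.{u} := by
  intro p G _ m c g M bs
  have hU := rep_Um p c
  have hT := rep22_Tn p hU g M
  have hD := rep2_D hU M
  induction bs with
  | nil => exact ⟨rep_zero, rep_zero⟩
  | cons b bs ih =>
    have hb : Rep22 (tr2 b) (tr2 b⁻¹) := rep22_prod (rep_tr b)
    have h1 := rep2_comp hD hb
    have h2 := rep2_comp ih (rep22_comp hT hb)
    have h3 := rep2_add h1 h2
    have e1 : F2 (Tn p (Um p m c) g M) (Df (Um p m c) M) (b :: bs) =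
        (Df (Um p m c) M).comp (tr2 b) + (F2 (Tn p (Um p m c) g M) (Df (Um p m c) M) bs).comp
          ((Tn p (Um p m c) g M).comp (tr2 b)) := rfl
    have e2 : Fs2 (Ts p (Am p m c) g M) (Dfs (Am p m c) M) (b :: bs) =
        (tr2 b⁻¹).comp (Dfs (Am p m c) M) + ((tr2 b⁻¹).comp (Ts p (Am p m c) g M)).comp
          (Fs2 (Ts p (Am p m c) g M) (Dfs (Am p m c) M) bs) := by
      refine LinearMap.ext fun φ => ?_
      rw [Fs2_cons, map_add]
      rfl
    rw [e1, e2]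
    exact h3

end Pool.Agent.UC
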