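import Pool.Agent.Lib.MP_830418_an.Full60.Stm

open Finset

namespace Pool.Agent.UC

open Pool.Agent.PC Pool.Agent.Rich

universe u

section sgl

variable {G : Type u} [Group G]

/-- at most one nonzero component at `x` -/
private def SA (φ : Vec G 2) (x : G) : Prop := ∀ i j, i ≠ j → φ x i = 0 ∨ φ x j = 0

/-- the constant of one letter -/
private noncomputable def kk (p : ℝ) : ℂ :=
  (((2 : ℝ) ^ (1 / 2 - 1 / p) : ℝ) : ℂ) * (((Real.sqrt (2 : ℕ) : ℝ) : ℂ))⁻¹

private theorem kk_norm {p : ℝ} (hp : 0 < p) : ‖kk p‖ ^ p = 1 / 2 := by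
  have h2 : (0 : ℝ) < 2 := by norm_num
  have e1 : ‖kk p‖ = (2 : ℝ) ^ (-(1 / p)) := by
    unfold kk
    rw [norm_mul, norm_inv, Complex.norm_real, Complex.norm_real, Real.norm_eq_abs,
      Real.norm_eq_abs, abs_of_pos (Real.rpow_pos_of_pos h2 _), abs_of_nonneg (Real.sqrt_nonneg _),
      Real.sqrt_eq_rpow, ← Real.rpow_neg (by positivity)]
    push_cast
    rw [← Real.rpow_add h2]
    congr 1
    ring
  rw [e1, ← Real.rpow_mul h2.le]
  have : -(1 / p) * p = -1 := by field_simp
  rw [this, Real.rpow_neg_one]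
  norm_num

private theorem sgl_Rs (p : ℝ) (c : G) (ψ : Vec G 2) (x : G) (i : Fin 2) :
    Rs p c ψ x i = kk p * ∑ j, starRingEnd ℂ (had i j) * ψ (lc c i * x) j := by
  have : Rs p c ψ x i = (((2 : ℝ) ^ (1 / 2 - 1 / p) : ℝ) : ℂ) * Rad had (lc c) ψ x i := rfl
  rw [this, Rad_apply, ← mul_assoc]
  rfl

/-- the group element of a letter -/
private def dd (c : G) (b : Bool) : G := if b then c else 1

private theorem had_norm (i j : Fin 2) : ‖had i j‖ = 1 := by
  unfold had
  split_ifs <;> simp

private theorem sgl_zero {p : ℝ} {c : G} {ψ : Vec G 2} {x : G}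
    (h : ∀ b, ψ (dd c b * x) = 0) : Rs p c ψ x = 0 := by
  funext i
  rw [sgl_Rs]
  have h' : ψ (lc c i * x) = 0 := by
    fin_cases i
    · exact h false
    · exact h true
  simp [h']

/-- one letter -/
private theorem sgl_one {p : ℝ} (hp : 0 < p) {c : G} {ψ : Vec G 2} {x : G} (b : Bool)
    (h0 : ψ (dd c (!b) * x) = 0) (h1 : SA ψ (dd c b * x)) :
    SA (Rs p c ψ) x ∧ mas p (Rs p c ψ) x = 1 / 2 * mas p ψ (dd c b * x) := by
  have key : ∀ i i' : Fin 2, i ≠ i' → lc c i = dd c b → lc c i' = dd c (!b) →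
      SA (Rs p c ψ) x ∧ mas p (Rs p c ψ) x = 1 / 2 * mas p ψ (dd c b * x) := by
    intro i i' hne hi hi'
    have z' : Rs p c ψ x i' = 0 := by
      rw [sgl_Rs, hi', h0]
      simp
    have two : ∀ j : Fin 2, j = i ∨ j = i' := by
      intro j
      rcases eq_or_ne j i with h | h
      · exact Or.inl h
      · right
        omega
    have v : ‖Rs p c ψ x i‖ ^ p = 1 / 2 * mas p ψ (dd c b * x) := by
      rw [sgl_Rs, hi, norm_mul, Real.mul_rpow (norm_nonneg _) (norm_nonneg _), kk_norm hp]
      congr 1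
      unfold mas
      rw [Fin.sum_univ_two, Fin.sum_univ_two]
      rcases h1 0 1 (by decide) with h | h
      · rw [h]
        simp [hp.ne', had_norm]
      · rw [h]
        simp [hp.ne', had_norm]
    refine ⟨?_, ?_⟩
    · intro j k hjk
      rcases two j with rfl | rfl
      · rcases two k with rfl | rfl
        · exact absurd rfl hjk
        · exact Or.inr z'
      · exact Or.inl z'
    · rw [← v]
      unfold mas
      rw [Finset.sum_eq_single i]
      · intro j _ hj
        rcases two j with rfl | rfl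
        · exact absurd rfl hj
        · rw [z', norm_zero, Real.zero_rpow hp.ne']
      · intro h
        exact absurd (Finset.mem_univ _) h
  cases b with
  | false => exact key 0 1 (by decide) rfl rfl
  | true => exact key 1 0 (by decide) rfl rfl

private theorem pv_zero (c : Fin 0 → G) (v : Fin 0 → Bool) : pv c v = 1 := by
  unfold pv
  simp

private theorem pv_succ {m : ℕ} (c : Fin (m + 1) → G) (v : Fin (m + 1) → Bool) :
    pv c v = dd (c 0) (v 0) * pv (fun i => c i.succ) (fun i => v i.succ) := by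
  unfold pv dd
  rw [List.ofFn_succ, List.prod_cons]

private theorem pv_cons {m : ℕ} (c : Fin (m + 1) → G) (b : Bool) (v : Fin m → Bool) (x : G) :
    pv c (Fin.cons b v : Fin (m + 1) → Bool) * x = dd (c 0) b * (pv (fun i => c i.succ) v * x) := by
  rw [pv_succ, mul_assoc]
  rfl

private theorem cons_ne_of_tail {m : ℕ} {α : Type*} {w : Fin (m + 1) → α} {v : Fin m → α}
    (b : α) (h : v ≠ fun i => w i.succ) : (Fin.cons b v : Fin (m + 1) → α) ≠ w := by
  intro he
  apply h
  funext i
  rw [← he, Fin.cons_succ]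

private theorem cons_ne_of_head {m : ℕ} {α : Type*} {w : Fin (m + 1) → α} {v : Fin m → α}
    {b : α} (h : b ≠ w 0) : (Fin.cons b v : Fin (m + 1) → α) ≠ w := by
  intro he
  apply h
  rw [← he, Fin.cons_zero]

private theorem cons_self {m : ℕ} {α : Type*} (w : Fin (m + 1) → α) :
    (Fin.cons (w 0) (fun i => w i.succ) : Fin (m + 1) → α) = w := by
  funext i
  refine Fin.cases ?_ ?_ i
  · rw [Fin.cons_zero]
  · intro j
    rw [Fin.cons_succ]

/-- support of one pass -/
private theorem pass_zero (p : ℝ) : ∀ (m : ℕ) (c : Fin m → G) (ψ : Vec G 2) (x : G),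
    (∀ v, ψ (pv c v * x) = 0) → Am p m c ψ x = 0 := by
  intro m
  induction m with
  | zero =>
    intro c ψ x h
    have := h (fun _ => false)
    rw [pv_zero, one_mul] at this
    exact this
  | succ m ih =>
    intro c ψ x h
    have e : Am p (m + 1) c ψ x = Am p m (fun i => c i.succ) (Rs p (c 0) ψ) x := rfl
    rw [e]
    refine ih _ _ _ fun v => sgl_zero fun b => ?_
    rw [← pv_cons]
    exact h _

/-- one pass -/
private theorem pass_one {p : ℝ} (hp : 0 < p) : ∀ (m : ℕ) (c : Fin m → G) (ψ : Vec G 2) (x : G)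
    (w : Fin m → Bool), (∀ v, v ≠ w → ψ (pv c v * x) = 0) → SA ψ (pv c w * x) →
    SA (Am p m c ψ) x ∧ mas p (Am p m c ψ) x = (1 / 2) ^ m * mas p ψ (pv c w * x) := by
  intro m
  induction m with
  | zero =>
    intro c ψ x w _ h
    rw [pv_zero, one_mul] at h
    rw [pv_zero, one_mul, pow_zero, one_mul]
    exact ⟨h, rfl⟩
  | succ m ih =>
    intro c ψ x w h1 h2
    have e : Am p (m + 1) c ψ = Am p m (fun i => c i.succ) (Rs p (c 0) ψ) := rfl
    rw [e]
    set w' : Fin m → Bool := fun i => w i.succ with hw'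
    have hb := sgl_one (c := c 0) (ψ := ψ) (x := pv (fun i => c i.succ) w' * x) hp (w 0)
      (by
        rw [← pv_cons]
        exact h1 _ (cons_ne_of_head (by cases w 0 <;> decide)))
      (by
        rw [← pv_cons, cons_self]
        exact h2)
    have hi := ih (fun i => c i.succ) (Rs p (c 0) ψ) x w'
      (fun v hv => sgl_zero fun b => by
        rw [← pv_cons]
        exact h1 _ (cons_ne_of_tail b hv))
      hb.1
    refine ⟨hi.1, ?_⟩
    rw [hi.2, hb.2, ← pv_cons, cons_self]
    ring

private theorem wval_zero {m : ℕ} (c : Fin m → G) (v : Fin 0 → Fin m → Bool) : wval c v = 1 := by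
  unfold wval
  simp

private theorem wval_cons {m r : ℕ} (c : Fin m → G) (u : Fin m → Bool) (v : Fin r → Fin m → Bool)
    (x : G) :
    wval c (Fin.cons u v : Fin (r + 1) → Fin m → Bool) * x = pv c u * (wval c v * x) := by
  have : wval c (Fin.cons u v : Fin (r + 1) → Fin m → Bool) = pv c u * wval c v := by
    unfold wval pv
    rw [List.ofFn_succ, List.prod_cons]
    rfl
  rw [this, mul_assoc]

end sgl

theorem p_sgl : S_sgl.{u} := by
  intro p hp G _ m c r
  induction r with
  | zero =>
    intro ψ x w _ h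
    rw [wval_zero, one_mul] at h
    rw [wval_zero, one_mul, mul_zero, pow_zero, pow_zero, one_mul]
    exact ⟨h, rfl⟩
  | succ r ih =>
    intro ψ x w h1 h2
    have e : ((Am p m c) ^ (r + 1)) ψ = ((Am p m c) ^ r) (Am p m c ψ) := by
      rw [pow_succ]
      rfl
    rw [e]
    set w' : Fin r → Fin m → Bool := fun i => w i.succ with hw'
    have hb := pass_one hp m c ψ (wval c w' * x) (w 0)
      (fun v hv => by
        rw [← wval_cons]
        exact h1 _ (cons_ne_of_head hv))
      (by
        rw [← wval_cons, cons_self]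
        exact h2)
    have hi := ih (Am p m c ψ) x w'
      (fun v hv => pass_zero p m c ψ _ fun u => by
        rw [← wval_cons]
        exact h1 _ (cons_ne_of_tail u hv))
      hb.1
    refine ⟨hi.1, ?_⟩
    rw [hi.2, hb.2, ← wval_cons, cons_self]
    ring

end Pool.Agent.UC
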