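import Pool.Agent.Lib.MP_830418_an.Full60.Stm
import Pool.Agent.Lib.MP_830418_an.Full60.P_cut
import Pool.Agent.Lib.MP_830418_an.Flat.P_hold

/-!
`stp`: the step lemma (helper85).
-/

open Finset

namespace Pool.Agent.UC

open Pool.Agent.PC Pool.Agent.Rich

universe u

section

variable {G : Type u} [Group G]

private theorem st_add {p : ℝ} (hp : 0 < p) {φ ψ : Vec G 2}
    (hφ : FS φ) (hψ : FS ψ) (h : ∀ x, φ x = 0 ∨ ψ x = 0) :
    nrm p (φ + ψ) = nrm p φ + nrm p ψ := by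
  unfold nrm
  rw [← (nrm_summable hp hφ).tsum_add (nrm_summable hp hψ)]
  refine tsum_congr fun x => ?_
  have h0 : ((0 : ℝ) ^ p) = 0 := Real.zero_rpow hp.ne'
  rcases h x with h | h
  · simp [h, h0]
  · simp [h, h0]

omit [Group G] in
private theorem st_smul (p : ℝ) (a : ℂ) (φ : Vec G 2) : nrm p (a • φ) = ‖a‖ ^ p * nrm p φ := by
  unfold nrm
  rw [← tsum_mul_left]
  refine tsum_congr fun x => ?_
  rw [Finset.mul_sum]
  refine Finset.sum_congr rfl fun i _ => ?_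
  rw [Pi.smul_apply, Pi.smul_apply, smul_eq_mul, norm_mul,
    Real.mul_rpow (norm_nonneg _) (norm_nonneg _)]

private theorem st_fs_sum (s : Finset ℕ) (f : ℕ → Vec G 2) (h : ∀ j ∈ s, FS (f j)) :
    FS (∑ j ∈ s, f j) := by
  classical
  induction s using Finset.induction_on with
  | empty => simpa using (fs_zero : FS (0 : Vec G 2))
  | insert a s ha ih =>
    rw [Finset.sum_insert ha]
    exact (h a (Finset.mem_insert_self a s)).add
      (ih fun j hj => h j (Finset.mem_insert_of_mem hj))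

private theorem st_sum {p : ℝ} (hp : 0 < p) (s : Finset ℕ) (f : ℕ → Vec G 2)
    (h : ∀ j ∈ s, FS (f j)) (hd : ∀ i ∈ s, ∀ j ∈ s, i ≠ j → ∀ x, f i x = 0 ∨ f j x = 0) :
    nrm p (∑ j ∈ s, f j) = ∑ j ∈ s, nrm p (f j) := by
  classical
  induction s using Finset.induction_on with
  | empty =>
    simp only [Finset.sum_empty]
    unfold nrm
    have h0 : ((0 : ℝ) ^ p) = 0 := Real.zero_rpow hp.ne'
    simp [h0]
  | insert a s ha ih =>
    rw [Finset.sum_insert ha, Finset.sum_insert ha, st_add hp (h a (Finset.mem_insert_self a s))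
      (st_fs_sum s f fun j hj => h j (Finset.mem_insert_of_mem hj)), ih
      (fun j hj => h j (Finset.mem_insert_of_mem hj))
      (fun i hi j hj => hd i (Finset.mem_insert_of_mem hi) j (Finset.mem_insert_of_mem hj))]
    intro x
    by_cases hx : f a x = 0
    · exact Or.inl hx
    · right
      rw [Finset.sum_apply]
      refine Finset.sum_eq_zero fun j hj => ?_
      rcases hd a (Finset.mem_insert_self a s) j (Finset.mem_insert_of_mem hj)
        (fun e => ha (e ▸ hj)) x with h1 | h1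
      · exact absurd h1 hx
      · exact h1

private theorem st_sum_le {p : ℝ} (hp : 1 < p) (L : ℕ) (f : ℕ → Vec G 2)
    (h : ∀ j ∈ range L, FS (f j)) :
    nrm p (∑ j ∈ range L, f j) ≤ (L : ℝ) ^ (p - 1) * ∑ j ∈ range L, nrm p (f j) := by
  have h1 := p_hold.{u} p hp G 2 ((range L).toList.map f) (by
    intro ψ hψ
    obtain ⟨j, hj, rfl⟩ := List.mem_map.1 hψ
    exact h j (Finset.mem_toList.1 hj))
  rw [Finset.sum_map_toList, List.length_map, Finset.length_toList, Finset.card_range,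
    List.map_map] at h1
  have h2 : ((range L).toList.map (nrm p ∘ f)).sum = ∑ j ∈ range L, nrm p (f j) :=
    Finset.sum_map_toList (range L) (fun j => nrm p (f j))
  rw [h2] at h1
  exact h1

private theorem st_comb {p : ℝ} (hp : 0 < p) {z : E G} (hz : FS2 z) (hsc : SC2 z) {α β : ℂ}
    (hα : α = 1 ∨ α = -1) (hβ : β = 1 ∨ β = -1) :
    FS (α • z.1 + β • z.2) ∧ SC (α • z.1 + β • z.2) ∧
      Function.support (α • z.1 + β • z.2) = Function.support z.1 ∪ Function.support z.2 ∧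
      nrm p (α • z.1 + β • z.2) = nr2 p z := by
  have nα : ‖α‖ = 1 := by rcases hα with rfl | rfl <;> simp
  have nβ : ‖β‖ = 1 := by rcases hβ with rfl | rfl <;> simp
  have α0 : α ≠ 0 := by rcases hα with rfl | rfl <;> simp
  have β0 : β ≠ 0 := by rcases hβ with rfl | rfl <;> simp
  obtain ⟨s1, s2, s3⟩ := hsc
  refine ⟨(hz.1.smul α).add (hz.2.smul β), ?_, ?_, ?_⟩
  · intro x i j hij
    have e : ∀ i, (α • z.1 + β • z.2) x i = α * z.1 x i + β * z.2 x i := fun _ => rfl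
    rw [e, e]
    rcases s3 x with h | h
    · rw [h]
      rcases s2 x i j hij with h' | h'
      · left; rw [h']; simp
      · right; rw [h']; simp
    · rw [h]
      rcases s1 x i j hij with h' | h'
      · left; rw [h']; simp
      · right; rw [h']; simp
  · ext x
    simp only [Function.mem_support, Set.mem_union, Pi.add_apply, Pi.smul_apply]
    rcases s3 x with h | h
    · rw [h]
      simp [β0]
    · rw [h]
      simp [α0]
  · rw [st_add hp (hz.1.smul α) (hz.2.smul β), st_smul, st_smul, nα, nβ, Real.one_rpow, one_mul,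
      one_mul]
    · rfl
    · intro x
      rcases s3 x with h | h
      · left; simp [h]
      · right; simp [h]

private theorem st_half (hcut : S_cut.{u}) {p : ℝ} (hp : 1 < p) (hp2 : p < 2) {m : ℕ}
    (c : Fin m → G) (T : (r : ℕ) → Finset (Fin r → Fin m → Bool)) (Q : Set G) (L : ℕ) (κ : ℂ)
    (χ : ℕ → Vec G 2) (N₀ : ℝ) (hFS : ∀ j, FS (χ j)) (hSC : ∀ j, SC (χ j))
    (hsup : ∀ j, Function.support (χ j) = Q) (hN : ∀ j, nrm p (χ j) = N₀)
    (g1 : ∀ j, j < L → ∀ t ∈ T (L + j), ∀ s : Fin (L + j) → Fin m → Bool, s ≠ t → ∀ q ∈ Q,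
      wval c s * (wval c t)⁻¹ * q ∉ Q)
    (g2 : ∀ j, j < L → ∀ j', j' < L → j ≠ j' →
      Disjoint (pts c (T (L + j)) Q) (pts c (T (L + j')) Q)) :
    ∃ Γ B : Vec G 2, FS Γ ∧ FS B ∧ SC Γ ∧
      (∀ x, Γ x ≠ 0 → ∃ j, j < L ∧ x ∈ pts c (T (L + j)) Q) ∧
      κ • ∑ j ∈ range L, ((Am p m c) ^ (L + j)) (χ j) = Γ + B ∧
      nrm p Γ = ‖κ‖ ^ p * ∑ j ∈ range L, ((T (L + j)).card * (1 / 2 : ℝ) ^ (m * (L + j)) * N₀) ∧
      nrm p B ≤ ‖κ‖ ^ p * ((L : ℝ) ^ (p - 1) *
        ∑ j ∈ range L, ((1 - (T (L + j)).card * (1 / 2 : ℝ) ^ (m * (L + j))) * N₀)) := by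
  have hp0 : 0 < p := by linarith
  set A := Am p m c with hA
  set X : ℕ → Set G := fun j => pts c (T (L + j)) Q with hX
  have hAfs : ∀ j, FS ((A ^ (L + j)) (χ j)) := fun j => (CutAux.Am_pow hp hp2 m c (L + j) (χ j) (hFS j)).1
  have key : ∀ j, j < L →
      nrm p (cut (X j) ((A ^ (L + j)) (χ j))) =
        (T (L + j)).card * (1 / 2 : ℝ) ^ (m * (L + j)) * N₀ ∧
      SC (cut (X j) ((A ^ (L + j)) (χ j))) ∧
      nrm p (cut (X j)ᶜ ((A ^ (L + j)) (χ j))) ≤
        (1 - (T (L + j)).card * (1 / 2 : ℝ) ^ (m * (L + j))) * N₀ := by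
    intro j hj
    have h := hcut p hp hp2 G m c (L + j) (T (L + j)) (χ j) (hFS j) (hSC j) (by
      intro t ht s hst q hq
      by_contra hne
      have hq' : q ∈ Q := by rw [← hsup j]; exact hq
      have h2 : wval c s * (wval c t)⁻¹ * q ∈ Q := by rw [← hsup j]; exact hne
      exact g1 j hj t ht s hst q hq' h2)
    rw [hsup j, hN j] at h
    exact h
  have hcutX : ∀ j x, x ∉ X j → cut (X j) ((A ^ (L + j)) (χ j)) x = 0 := fun j x hx => by
    unfold cut
    exact Set.indicator_of_notMem hx _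
  refine ⟨κ • ∑ j ∈ range L, cut (X j) ((A ^ (L + j)) (χ j)),
    κ • ∑ j ∈ range L, cut (X j)ᶜ ((A ^ (L + j)) (χ j)), ?_, ?_, ?_, ?_, ?_, ?_, ?_⟩
  · exact (st_fs_sum _ _ fun j _ => CutAux.fs_cut (hAfs j)).smul κ
  · exact (st_fs_sum _ _ fun j _ => CutAux.fs_cut (hAfs j)).smul κ
  · intro x i i' hii
    have e : ∀ i, (κ • ∑ j ∈ range L, cut (X j) ((A ^ (L + j)) (χ j))) x i =
        κ * ∑ j ∈ range L, cut (X j) ((A ^ (L + j)) (χ j)) x i := by
      intro i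
      rw [Pi.smul_apply, Pi.smul_apply, Finset.sum_apply, Finset.sum_apply, smul_eq_mul]
    rw [e, e]
    by_cases hx : ∃ j, j < L ∧ x ∈ X j
    · obtain ⟨j, hj, hxj⟩ := hx
      have hz : ∀ i, ∑ j ∈ range L, cut (X j) ((A ^ (L + j)) (χ j)) x i =
          cut (X j) ((A ^ (L + j)) (χ j)) x i := by
        intro i
        refine Finset.sum_eq_single_of_mem j (Finset.mem_range.2 hj) fun j' hj' hne => ?_
        rw [hcutX j' x (fun h' => Set.disjoint_left.1
          (g2 j' (Finset.mem_range.1 hj') j hj hne) h' hxj)]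
        rfl
      rw [hz, hz]
      rcases (key j hj).2.1 x i i' hii with h | h
      · left; rw [h, mul_zero]
      · right; rw [h, mul_zero]
    · left
      push Not at hx
      rw [Finset.sum_eq_zero fun j hj => by
        rw [hcutX j x (hx j (Finset.mem_range.1 hj))]; rfl, mul_zero]
  · intro x hx
    by_contra hne
    push Not at hne
    apply hx
    rw [Pi.smul_apply, Finset.sum_apply, Finset.sum_eq_zero fun j hj =>
      hcutX j x (hne j (Finset.mem_range.1 hj)), smul_zero]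
  · rw [← smul_add, ← Finset.sum_add_distrib]
    congr 1
    exact Finset.sum_congr rfl fun j _ => (CutAux.cut_add _ _).symm
  · rw [st_smul, st_sum hp0 _ _ (fun j _ => CutAux.fs_cut (hAfs j))]
    · congr 1
      exact Finset.sum_congr rfl fun j hj => (key j (Finset.mem_range.1 hj)).1
    · intro i hi j hj hij x
      by_cases hx : x ∈ X i
      · right
        exact hcutX j x fun h' => Set.disjoint_left.1
          (g2 i (Finset.mem_range.1 hi) j (Finset.mem_range.1 hj) hij) hx h'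
      · left
        exact hcutX i x hx
  · rw [st_smul]
    refine mul_le_mul_of_nonneg_left ?_ (Real.rpow_nonneg (norm_nonneg _) _)
    refine (st_sum_le hp L _ fun j _ => CutAux.fs_cut (hAfs j)).trans ?_
    refine mul_le_mul_of_nonneg_left ?_ (Real.rpow_nonneg (Nat.cast_nonneg _) _)
    exact Finset.sum_le_sum fun j hj => (key j (Finset.mem_range.1 hj)).2.2

end

theorem p_stp (hcut : S_cut.{u}) (hexp : S_exp.{u}) (hgen : S_gen.{u}) : S_stp.{u} := by
  intro p hp hp2 G _ m c g J ε T hD hε M hM Ψ hΨ hsc Y hY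
  have hp0 : 0 < p := by linarith
  set L : ℕ := 2 ^ M with hL
  set P : Set G := Function.support Ψ.1 ∪ Function.support Ψ.2 with hP
  obtain ⟨b, hb⟩ := hgen G m c g J ε T hD P Y (hΨ.1.union hΨ.2) hY
  set Q : Set G := {x | b * x ∈ P} with hQ
  obtain ⟨α, β, α', β', hs, hT⟩ := hexp p G (Am p m c) g M
  set z : E G := tr2 b⁻¹ Ψ with hz
  have z1 : z.1 = tr b⁻¹ Ψ.1 := rfl
  have z2 : z.2 = tr b⁻¹ Ψ.2 := rfl
  have zx1 : ∀ x, z.1 x = Ψ.1 (b * x) := fun x => by rw [z1, tr_apply, inv_inv]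
  have zx2 : ∀ x, z.2 x = Ψ.2 (b * x) := fun x => by rw [z2, tr_apply, inv_inv]
  have hzfs : FS2 z := ⟨hΨ.1.tr _, hΨ.2.tr _⟩
  have hzsc : SC2 z := by
    refine ⟨fun x i j hij => ?_, fun x i j hij => ?_, fun x => ?_⟩
    · rw [zx1]; exact hsc.1 _ i j hij
    · rw [zx2]; exact hsc.2.1 _ i j hij
    · rw [zx1, zx2]; exact hsc.2.2 _
  have hzn : nr2 p z = nr2 p Ψ := by
    unfold nr2
    rw [z1, z2, nrm_tr, nrm_tr]
  have hzQ : Function.support z.1 ∪ Function.support z.2 = Q := by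
    ext x
    simp only [Set.mem_union, Function.mem_support, zx1, zx2, hQ, hP, Set.mem_ofPred_eq]
  set N₀ : ℝ := nr2 p Ψ with hN₀
  have hN0 : 0 ≤ N₀ := add_nonneg (nrm_nonneg _ _) (nrm_nonneg _ _)
  have hLJ : ∀ j, j < L → L + j ≤ J := fun j hj => by omega
  have g1 : ∀ j, j < L → ∀ t ∈ T (L + j), ∀ s : Fin (L + j) → Fin m → Bool, s ≠ t → ∀ q ∈ Q,
      wval c s * (wval c t)⁻¹ * q ∉ Q := fun j hj t ht s hst q hq =>
    hb.g1 (L + j) (hLJ j hj) t ht s hst q hq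
  have g2 : ∀ j, j < L → ∀ j', j' < L → j ≠ j' →
      Disjoint (pts c (T (L + j)) Q) (pts c (T (L + j')) Q) := fun j hj j' hj' hjj =>
    hb.g2 (L + j) (L + j') (hLJ j hj) (hLJ j' hj') (by omega)
  obtain ⟨Γ₁, B₁, f1, f1', c1, u1, e1, n1, n1'⟩ := st_half hcut hp hp2 c T Q L (k0 p ^ (M + 1))
    (fun j => α j • z.1 + β j • z.2) N₀
    (fun j => (st_comb hp0 hzfs hzsc (hs j).1 (hs j).2.1).1)
    (fun j => (st_comb hp0 hzfs hzsc (hs j).1 (hs j).2.1).2.1)
    (fun j => by rw [(st_comb hp0 hzfs hzsc (hs j).1 (hs j).2.1).2.2.1, hzQ])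
    (fun j => by rw [(st_comb hp0 hzfs hzsc (hs j).1 (hs j).2.1).2.2.2, hzn]) g1 g2
  obtain ⟨Γ₂, B₂, f2, f2', c2, u2, e2, n2, n2'⟩ := st_half hcut hp hp2 c T Q L (k0 p ^ (M + 1))
    (fun j => α' j • z.1 + β' j • z.2) N₀
    (fun j => (st_comb hp0 hzfs hzsc (hs j).2.2.1 (hs j).2.2.2).1)
    (fun j => (st_comb hp0 hzfs hzsc (hs j).2.2.1 (hs j).2.2.2).2.1)
    (fun j => by rw [(st_comb hp0 hzfs hzsc (hs j).2.2.1 (hs j).2.2.2).2.2.1, hzQ])
    (fun j => by rw [(st_comb hp0 hzfs hzsc (hs j).2.2.1 (hs j).2.2.2).2.2.2, hzn]) g1 g2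
  have trg : ∀ (φ : Vec G 2) x, tr g⁻¹ φ x = φ (g * x) := fun φ x => by
    rw [tr_apply, inv_inv]
  -- the constant
  have hk : ‖k0 p ^ (M + 1)‖ ^ p = (1 / 2 : ℝ) ^ (M + 1) := by
    have h2 : (0 : ℝ) < 2 := by norm_num
    have e : ‖k0 p‖ = (2 : ℝ) ^ (-(1 / p)) := by
      unfold k0
      rw [Complex.norm_real, Real.norm_eq_abs, abs_of_pos (Real.rpow_pos_of_pos h2 _)]
    rw [norm_pow, e, ← Real.rpow_natCast, ← Real.rpow_mul (by positivity),
      ← Real.rpow_natCast (1 / 2 : ℝ), mul_comm, ← Real.rpow_mul h2.le]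
    rw [show (1 / 2 : ℝ) = (2 : ℝ) ^ (-1 : ℝ) by
      rw [Real.rpow_neg_one]; norm_num, ← Real.rpow_mul h2.le]
    congr 1
    field_simp
  -- bounds for the proportions
  have hθ : ∀ j, j < L → 1 - ε ≤ (T (L + j)).card * (1 / 2 : ℝ) ^ (m * (L + j)) ∧
      (T (L + j)).card * (1 / 2 : ℝ) ^ (m * (L + j)) ≤ 1 := by
    intro j hj
    have h2 : (0 : ℝ) < (2 : ℝ) ^ (m * (L + j)) := by positivity
    have e : (1 / 2 : ℝ) ^ (m * (L + j)) = ((2 : ℝ) ^ (m * (L + j)))⁻¹ := by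
      rw [one_div, inv_pow]
    rw [e]
    constructor
    · rw [← div_eq_mul_inv, le_div_iff₀ h2]
      exact hD.card (L + j) (hLJ j hj)
    · rw [← div_eq_mul_inv, div_le_one h2]
      have : (T (L + j)).card ≤ 2 ^ (m * (L + j)) := by
        refine (Finset.card_le_univ _).trans (le_of_eq ?_)
        rw [Fintype.card_fun, Fintype.card_fun, Fintype.card_bool, Fintype.card_fin,
          Fintype.card_fin, ← pow_mul]
      exact_mod_cast this
  have hLpos : (0 : ℝ) < (L : ℝ) := by rw [hL]; positivity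
  have hLc : (L : ℝ) = 2 ^ M := by rw [hL]; push_cast; rfl
  have hhalf : 2 * (1 / 2 : ℝ) ^ (M + 1) * L = 1 := by
    rw [hLc, pow_succ, one_div, inv_pow]
    field_simp
  have hS1 : ∑ j ∈ range L, ((T (L + j)).card * (1 / 2 : ℝ) ^ (m * (L + j)) * N₀) ≤ L * N₀ := by
    calc ∑ j ∈ range L, ((T (L + j)).card * (1 / 2 : ℝ) ^ (m * (L + j)) * N₀)
        ≤ ∑ _j ∈ range L, N₀ := Finset.sum_le_sum fun j hj => by
          have := (hθ j (Finset.mem_range.1 hj)).2
          nlinarith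
      _ = L * N₀ := by rw [Finset.sum_const, Finset.card_range, nsmul_eq_mul]
  have hS2 : L * ((1 - ε) * N₀) ≤
      ∑ j ∈ range L, ((T (L + j)).card * (1 / 2 : ℝ) ^ (m * (L + j)) * N₀) := by
    calc L * ((1 - ε) * N₀) = ∑ _j ∈ range L, (1 - ε) * N₀ := by
          rw [Finset.sum_const, Finset.card_range, nsmul_eq_mul]
      _ ≤ _ := Finset.sum_le_sum fun j hj =>
          mul_le_mul_of_nonneg_right (hθ j (Finset.mem_range.1 hj)).1 hN0
  have hS3 : ∑ j ∈ range L, ((1 - (T (L + j)).card * (1 / 2 : ℝ) ^ (m * (L + j))) * N₀) ≤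
      L * (ε * N₀) := by
    calc ∑ j ∈ range L, ((1 - (T (L + j)).card * (1 / 2 : ℝ) ^ (m * (L + j))) * N₀)
        ≤ ∑ _j ∈ range L, ε * N₀ := Finset.sum_le_sum fun j hj =>
          mul_le_mul_of_nonneg_right (by linarith [(hθ j (Finset.mem_range.1 hj)).1]) hN0
      _ = L * (ε * N₀) := by rw [Finset.sum_const, Finset.card_range, nsmul_eq_mul]
  have hh0 : (0 : ℝ) ≤ (1 / 2 : ℝ) ^ (M + 1) := by positivity
  refine ⟨b, (Γ₁, tr g⁻¹ Γ₂), (B₁, tr g⁻¹ B₂), ⟨f1, f2.tr _⟩, ⟨f1', f2'.tr _⟩, ⟨c1, ?_, ?_⟩, ?_, ?_,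
    ?_, ?_, ?_⟩
  · intro x i j hij
    show tr g⁻¹ Γ₂ x i = 0 ∨ tr g⁻¹ Γ₂ x j = 0
    rw [trg]
    exact c2 _ i j hij
  · intro x
    by_contra hne
    push Not at hne
    obtain ⟨h1, h2⟩ := hne
    have h2 : Γ₂ (g * x) ≠ 0 := by
      have := h2
      change tr g⁻¹ Γ₂ x ≠ 0 at this
      rwa [trg] at this
    obtain ⟨j, hj, hxj⟩ := u1 x h1
    obtain ⟨j', hj', hxj'⟩ := u2 _ h2
    exact hb.g3 (L + j) (L + j') (hLJ j hj) (hLJ j' hj') x hxj hxj'
  · intro y hy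
    constructor
    · by_contra hne
      obtain ⟨j, hj, hxj⟩ := u1 y hne
      exact Set.disjoint_left.1 (hb.g4 (L + j) (hLJ j hj)) hxj hy
    · show tr g⁻¹ Γ₂ y = 0
      rw [trg]
      by_contra hne
      obtain ⟨j, hj, hxj⟩ := u2 _ hne
      exact hb.g5 (L + j) (hLJ j hj) y hxj hy
  · rw [hT z]
    refine Prod.ext ?_ ?_
    · exact e1
    · show tr g⁻¹ _ = tr g⁻¹ Γ₂ + tr g⁻¹ B₂
      rw [← map_add]
      exact congrArg _ e2
  · have e : nr2 p ((Γ₁, tr g⁻¹ Γ₂) : E G) = nrm p Γ₁ + nrm p Γ₂ := by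
      unfold nr2
      rw [nrm_tr]
    rw [e, n1, n2, hk]
    have := mul_le_mul_of_nonneg_left hS2 hh0
    have h3 : (1 - ε) * N₀ = 2 * (1 / 2 : ℝ) ^ (M + 1) * L * ((1 - ε) * N₀) := by
      rw [hhalf, one_mul]
    rw [h3]
    linarith
  · have e : nr2 p ((Γ₁, tr g⁻¹ Γ₂) : E G) = nrm p Γ₁ + nrm p Γ₂ := by
      unfold nr2
      rw [nrm_tr]
    rw [e, n1, n2, hk]
    have := mul_le_mul_of_nonneg_left hS1 hh0
    have h3 : N₀ = 2 * (1 / 2 : ℝ) ^ (M + 1) * L * N₀ := by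
      rw [hhalf, one_mul]
    linarith
  · have e : nr2 p ((B₁, tr g⁻¹ B₂) : E G) = nrm p B₁ + nrm p B₂ := by
      unfold nr2
      rw [nrm_tr]
    rw [e]
    rw [hk] at n1' n2'
    have hLp : 0 ≤ (L : ℝ) ^ (p - 1) := Real.rpow_nonneg hLpos.le _
    have h4 := mul_le_mul_of_nonneg_left (mul_le_mul_of_nonneg_left hS3 hLp) hh0
    have h3 : ((2 : ℝ) ^ M) ^ (p - 1) * ε * N₀ =
        2 * (1 / 2 : ℝ) ^ (M + 1) * L * (((L : ℝ) ^ (p - 1)) * (ε * N₀)) := by
      rw [hhalf, one_mul, hLc]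
      ring
    rw [h3]
    have h5 : 2 * (1 / 2 : ℝ) ^ (M + 1) * L * (((L : ℝ) ^ (p - 1)) * (ε * N₀)) =
        (1 / 2 : ℝ) ^ (M + 1) * ((L : ℝ) ^ (p - 1) * (L * (ε * N₀))) +
        (1 / 2 : ℝ) ^ (M + 1) * ((L : ℝ) ^ (p - 1) * (L * (ε * N₀))) := by ring
    rw [h5]
    exact add_le_add (n1'.trans h4) (n2'.trans h4)

end Pool.Agent.UC
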