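import Pool.Agent.Lib.MP_830418_an.Full60.P_cut
import Pool.Agent.Lib.MP_830418_an.Flat.P_hold

/-!
Piece `tv` of the case of powers: the test vector.
-/

open Finset

namespace Pool.Agent.UC

open Pool.Agent.PC Pool.Agent.Rich

universe u

namespace TvAux

variable {G : Type u} [Group G]

theorem nrm_add_disj {p : ℝ} (hp : 0 < p) {φ ψ : Vec G 2} (h1 : FS φ) (h2 : FS ψ)
    (h : ∀ x, φ x = 0 ∨ ψ x = 0) : nrm p (φ + ψ) = nrm p φ + nrm p ψ := by
  unfold nrm
  rw [← (nrm_summable hp h1).tsum_add (nrm_summable hp h2)]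
  refine tsum_congr fun x => ?_
  rcases h x with h | h
  · rw [nrm_term_zero hp h, Pi.add_apply, h, zero_add, zero_add]
  · rw [nrm_term_zero hp h, Pi.add_apply, h, add_zero, add_zero]

theorem fs_sum {ι : Type} (s : Finset ι) (f : ι → Vec G 2) (h : ∀ i ∈ s, FS (f i)) :
    FS (∑ i ∈ s, f i) :=
  Finset.sum_induction f FS (fun _ _ h1 h2 => FS.add h1 h2) fs_zero h

open Classical in
theorem nrm_sum_disj {p : ℝ} (hp : 0 < p) {ι : Type} (s : Finset ι) (f : ι → Vec G 2)
    (hf : ∀ i ∈ s, FS (f i)) (hd : ∀ i ∈ s, ∀ j ∈ s, i ≠ j → ∀ x, f i x = 0 ∨ f j x = 0) :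
    nrm p (∑ i ∈ s, f i) = ∑ i ∈ s, nrm p (f i) := by
  induction s using Finset.induction_on with
  | empty => rw [Finset.sum_empty, Finset.sum_empty, nrm_zero hp]
  | insert a s ha ih =>
    rw [Finset.sum_insert ha, Finset.sum_insert ha, ← ih (fun i hi => hf i (mem_insert_of_mem hi))
      (fun i hi j hj => hd i (mem_insert_of_mem hi) j (mem_insert_of_mem hj))]
    refine nrm_add_disj hp (hf a (mem_insert_self a s))
      (fs_sum s f fun i hi => hf i (mem_insert_of_mem hi)) fun x => ?_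
    by_cases hx : f a x = 0
    · exact Or.inl hx
    · right
      rw [Finset.sum_apply]
      refine Finset.sum_eq_zero fun i hi => ?_
      rcases hd a (mem_insert_self a s) i (mem_insert_of_mem hi)
        (fun e => ha (e ▸ hi)) x with h | h
      · exact absurd h hx
      · exact h

theorem sc_sum {ι : Type} (s : Finset ι) (f : ι → Vec G 2) (hs : ∀ i ∈ s, SC (f i))
    (hd : ∀ i ∈ s, ∀ j ∈ s, i ≠ j → ∀ x, f i x = 0 ∨ f j x = 0) : SC (∑ i ∈ s, f i) := by
  intro x i j hij
  rw [Finset.sum_apply]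
  by_cases h : ∃ r ∈ s, f r x ≠ 0
  · obtain ⟨r, hr, hrx⟩ := h
    have h1 : ∑ c ∈ s, f c x = f r x := by
      refine Finset.sum_eq_single_of_mem r hr fun b hb hbr => ?_
      rcases hd b hb r hr hbr x with h | h
      · exact h
      · exact absurd h hrx
    rw [h1]
    exact hs r hr x i j hij
  · left
    have h1 : ∑ c ∈ s, f c x = 0 := by
      refine Finset.sum_eq_zero fun b hb => ?_
      by_contra hne
      exact h ⟨b, hb, hne⟩
    rw [h1]
    rfl

theorem nrm_sum_le {p : ℝ} (hp : 1 < p) {ι : Type} (s : Finset ι) (f : ι → Vec G 2)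
    (hf : ∀ i ∈ s, FS (f i)) :
    nrm p (∑ i ∈ s, f i) ≤ (s.card : ℝ) ^ (p - 1) * ∑ i ∈ s, nrm p (f i) := by
  have h := p_hold p hp G 2 (s.toList.map f) (fun ψ hψ => by
    obtain ⟨i, hi, rfl⟩ := List.mem_map.1 hψ
    exact hf i (Finset.mem_toList.1 hi))
  rw [List.length_map, Finset.length_toList, List.map_map, Finset.sum_map_toList,
    Finset.sum_map_toList] at h
  exact h

theorem nrm_add_le {p : ℝ} (hp : 1 < p) {φ ψ : Vec G 2} (h1 : FS φ) (h2 : FS ψ) :
    nrm p (φ + ψ) ≤ 2 ^ (p - 1) * (nrm p φ + nrm p ψ) := by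
  have h := p_hold p hp G 2 [φ, ψ] (fun χ hχ => by
    rcases List.mem_pair.1 hχ with rfl | rfl
    · exact h1
    · exact h2)
  simpa using h

theorem fs_dl : FS (dl G) := by
  refine (Set.finite_singleton (1 : G)).subset fun x hx => ?_
  by_contra hne
  apply hx
  funext i
  unfold dl
  rw [if_neg fun h => hne h.1]
  rfl

theorem sc_dl : SC (dl G) := by
  intro x i j hij
  by_cases hi : i = 0
  · right
    unfold dl
    rw [if_neg]
    rintro ⟨_, hj⟩
    exact hij (hi.trans hj.symm)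
  · left
    unfold dl
    rw [if_neg]
    rintro ⟨_, hj⟩
    exact hi hj

theorem dl_ne {q : G} (h : dl G q ≠ 0) : q = 1 := by
  by_contra hne
  apply h
  funext i
  unfold dl
  rw [if_neg fun h => hne h.1]
  rfl

theorem nrm_dl {p : ℝ} (hp : 0 < p) : nrm p (dl G) = 1 := by
  rw [nrm_eq_sum hp (s := {1}) (fun x hx => by
    by_contra hne
    exact hx (Finset.mem_singleton.2 (dl_ne hne))), Finset.sum_singleton, Fin.sum_univ_two]
  have h0 : dl G 1 0 = 1 := by
    unfold dl
    rw [if_pos ⟨rfl, rfl⟩]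
  have h1 : dl G 1 1 = 0 := by
    unfold dl
    rw [if_neg]
    rintro ⟨_, h⟩
    exact absurd h (by decide)
  rw [h0, h1]
  simp [hp.ne']

/-- the number of `(j, i)` with `j < L`, `i < 2 L`, `j + i = r` -/
def nn (L r : ℕ) : ℕ := ((range L ×ˢ range (2 * L)).filter fun a => a.1 + a.2 = r).card

theorem nn_le (L r : ℕ) : nn L r ≤ L := by
  unfold nn
  calc ((range L ×ˢ range (2 * L)).filter fun a => a.1 + a.2 = r).card ≤ (range L).card := by
        refine Finset.card_le_card_of_injOn (fun a => a.1) (fun a ha => ?_) (fun a ha b hb hab => ?_)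
        · have := (mem_filter.1 ha).1
          exact (mem_product.1 this).1
        · have h1 := (mem_filter.1 ha).2
          have h2 := (mem_filter.1 hb).2
          have hab' : a.1 = b.1 := hab
          refine Prod.ext hab' ?_
          omega
    _ = L := card_range L

theorem nn_ge (L r : ℕ) (h1 : L ≤ r) (h2 : r < 2 * L) : L ≤ nn L r := by
  unfold nn
  calc L = (range L).card := (card_range L).symm
    _ ≤ _ := by
        refine Finset.card_le_card_of_injOn (fun j => (j, r - j)) (fun j hj => ?_)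
          (fun a _ b _ hab => ?_)
        · have hj' : j < L := mem_range.1 hj
          refine mem_coe.2 (mem_filter.2 ⟨mem_product.2 ⟨mem_range.2 hj', mem_range.2 ?_⟩, ?_⟩)
          · show r - j < 2 * L
            omega
          · show j + (r - j) = r
            omega
        · exact congrArg Prod.fst hab

theorem sum_nn {E : Type*} [AddCommGroup E] [Module ℂ E] (L : ℕ) (f : ℕ → E) :
    ∑ j ∈ range L, ∑ i ∈ range (2 * L), f (j + i) =
      ∑ r ∈ range (3 * L), ((nn L r : ℕ) : ℂ) • f r := by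
  rw [← Finset.sum_product' (range L) (range (2 * L)) fun j i => f (j + i)]
  rw [← Finset.sum_fiberwise_of_maps_to (s := range L ×ˢ range (2 * L)) (t := range (3 * L))
    (g := fun a => a.1 + a.2) (fun a ha => by
      have h := mem_product.1 ha
      have h1 := mem_range.1 h.1
      have h2 := mem_range.1 h.2
      exact mem_range.2 (by omega))]
  refine Finset.sum_congr rfl fun r _ => ?_
  rw [Finset.sum_congr rfl (g := fun _ => f r) (fun a ha => by
    rw [(mem_filter.1 ha).2]), Finset.sum_const]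
  unfold nn
  rw [Nat.cast_smul_eq_nsmul]

end TvAux

open CutAux TvAux in
theorem p_tv (h1 : S_cut.{u}) : S_tv.{u} := by
  intro p hp hp2 G _ m c g J ε T hD hε0 hε1 M hM
  have hpos : (0 : ℝ) < p := by linarith
  set A : Module.End ℂ (Vec G 2) := Am p m c with hA
  set L : ℕ := 2 ^ M with hL
  have hLpos : 0 < L := by positivity
  have hLr : (2 : ℝ) ^ M = (L : ℝ) := by rw [hL]; push_cast; ring
  have hL1 : (1 : ℝ) ≤ (L : ℝ) := by exact_mod_cast hLpos
  have hL0 : (0 : ℝ) < (L : ℝ) := by linarith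
  rw [hLr]
  set ψ : ℕ → Vec G 2 := fun r => (A ^ r) (dl G) with hψ
  set X : ℕ → Set G := fun r => pts c (T r) (Function.support (dl G)) with hX
  set θ : ℕ → ℝ := fun r => ((T r).card : ℝ) * (1 / 2) ^ (m * r) with hθ
  have hFSψ : ∀ r, FS (ψ r) := fun r => (Am_pow hp hp2 m c r (dl G) fs_dl).1
  have hψ1 : ∀ r, nrm p (ψ r) ≤ 1 := fun r => by
    have := (Am_pow hp hp2 m c r (dl G) fs_dl).2
    rwa [nrm_dl hpos] at this
  have hcut : ∀ r, r ≤ J → nrm p (cut (X r) (ψ r)) = θ r ∧ SC (cut (X r) (ψ r)) ∧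
      nrm p (cut (X r)ᶜ (ψ r)) ≤ 1 - θ r := by
    intro r hr
    have h := h1 p hp hp2 G m c r (T r) (dl G) fs_dl sc_dl (fun t ht s hs q hq => by
      have hq1 := dl_ne hq
      by_contra hne
      have h2 := dl_ne hne
      rw [hq1, mul_one] at h2
      exact nonFC_ne_one (hD.n1 r hr t ht s hs) h2)
    rw [nrm_dl hpos, mul_one, mul_one] at h
    exact h
  have hθ1 : ∀ r, r ≤ J → 1 - ε ≤ θ r := by
    intro r hr
    have h := hD.card r hr
    have e : ((2 : ℝ) ^ (m * r)) * (1 / 2) ^ (m * r) = 1 := by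
      rw [← mul_pow]
      norm_num
    calc 1 - ε = (1 - ε) * (2 ^ (m * r) * (1 / 2) ^ (m * r)) := by rw [e, mul_one]
      _ = ((1 - ε) * 2 ^ (m * r)) * (1 / 2) ^ (m * r) := by ring
      _ ≤ ((T r).card : ℝ) * (1 / 2) ^ (m * r) := by gcongr
  have hθ2 : ∀ r, r ≤ J → θ r ≤ 1 := by
    intro r hr
    have h2 := nrm_cut' hpos (X r) (hFSψ r)
    have h3 := (hcut r hr).1
    have h4 := nrm_nonneg p (cut (X r)ᶜ (ψ r))
    have h5 := hψ1 r
    linarith
  have hθ0 : ∀ r, r ≤ J → 0 ≤ θ r := fun r hr => by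
    rw [← (hcut r hr).1]
    exact nrm_nonneg _ _
  have hbp : ∀ r, r ≤ J → nrm p (cut (X r)ᶜ (ψ r)) ≤ ε := fun r hr => by
    have := (hcut r hr).2.2
    have := hθ1 r hr
    linarith
  have hJ : ∀ r, r ∈ range (3 * L) → r ≤ J := fun r hr => by
    have := mem_range.1 hr
    omega
  have hJ2 : ∀ r, r ∈ range (2 * L) → r ≤ J := fun r hr => by
    have := mem_range.1 hr
    omega
  have hdis : ∀ r r', r ≤ J → r' ≤ J → r ≠ r' → ∀ x, cut (X r) (ψ r) x = 0 ∨
      cut (X r') (ψ r') x = 0 := by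
    intro r r' hr hr' hne x
    by_cases hx : x ∈ X r
    · right
      unfold cut
      rw [Set.indicator_of_notMem]
      intro hx'
      obtain ⟨t, ht, q, hq, hxq⟩ := hx
      obtain ⟨s, hs, q', hq', hxq'⟩ := hx'
      have e1 := dl_ne hq
      have e2 := dl_ne hq'
      rw [e1, mul_one] at hxq
      rw [e2, mul_one] at hxq'
      have e3 : wval c s = wval c t := by
        rw [hxq] at hxq'
        exact (inv_injective hxq').symm
      have h := nonFC_ne_one (hD.n2 r r' hr hr' hne t ht s hs)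
      apply h
      rw [e3, mul_inv_cancel]
    · left
      unfold cut
      rw [Set.indicator_of_notMem hx]
  set a : ℕ → ℂ := fun r => ((nn L r : ℕ) : ℂ) with ha
  have hnorm : ∀ r (φ : Vec G 2), nrm p (a r • φ) = (nn L r : ℝ) ^ p * nrm p φ := by
    intro r φ
    rw [nrm_smul, ha]
    simp only [Complex.norm_natCast]
  have hnnp : ∀ r, ((nn L r : ℕ) : ℝ) ^ p ≤ (L : ℝ) ^ p := fun r =>
    Real.rpow_le_rpow (Nat.cast_nonneg _) (by exact_mod_cast nn_le L r) hpos.le
  have hnn0 : ∀ r, 0 ≤ ((nn L r : ℕ) : ℝ) ^ p := fun r => Real.rpow_nonneg (Nat.cast_nonneg _) _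
  have hgs : nrm p (∑ r ∈ range (3 * L), a r • cut (X r) (ψ r)) =
      ∑ r ∈ range (3 * L), (nn L r : ℝ) ^ p * θ r := by
    rw [nrm_sum_disj hpos (range (3 * L)) (fun r => a r • cut (X r) (ψ r))
      (fun r _ => (fs_cut (hFSψ r)).smul _) (fun r hr r' hr' hne x => by
        rcases hdis r r' (hJ r hr) (hJ r' hr') hne x with h | h
        · left
          rw [Pi.smul_apply, h, smul_zero]
        · right
          rw [Pi.smul_apply, h, smul_zero])]
    refine Finset.sum_congr rfl fun r hr => ?_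
    rw [hnorm, (hcut r (hJ r hr)).1]
  have hLp1 : (L : ℝ) ^ (p + 1) = (L : ℝ) * (L : ℝ) ^ p := by
    rw [Real.rpow_add_one hL0.ne']
    ring
  have hrp : ∀ x : ℝ, 0 < x → x ^ (p - 1) * x = x ^ p := fun x hx => by
    rw [Real.rpow_sub_one hx.ne']
    field_simp
  refine ⟨∑ r ∈ range (3 * L), a r • cut (X r) (ψ r),
    ∑ r ∈ range (3 * L), a r • cut (X r)ᶜ (ψ r), ?_, ?_, ?_, ?_, ?_, ?_, ?_, ?_, ?_⟩
  · exact fs_sum _ _ fun r _ => (fs_cut (hFSψ r)).smul _
  · exact fs_sum _ _ fun r _ => (fs_cut (hFSψ r)).smul _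
  · refine sc_sum _ _ (fun r hr x i j hij => ?_) (fun r hr r' hr' hne x => ?_)
    · rcases (hcut r (hJ r hr)).2.1 x i j hij with h | h
      · left
        rw [Pi.smul_apply, Pi.smul_apply, h, smul_zero]
      · right
        rw [Pi.smul_apply, Pi.smul_apply, h, smul_zero]
    · rcases hdis r r' (hJ r hr) (hJ r' hr') hne x with h | h
      · left
        rw [Pi.smul_apply, h, smul_zero]
      · right
        rw [Pi.smul_apply, h, smul_zero]
  · have e1 : Dn A M (tst A M) = ∑ j ∈ range L, ∑ i ∈ range (2 * L), ψ (j + i) := by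
      unfold Dn tst
      rw [LinearMap.sum_apply]
      refine Finset.sum_congr rfl fun j _ => ?_
      rw [map_sum]
      refine Finset.sum_congr rfl fun i _ => ?_
      rw [hψ]
      simp only
      rw [pow_add]
      rfl
    rw [e1, sum_nn L ψ, ← Finset.sum_add_distrib]
    refine Finset.sum_congr rfl fun r _ => ?_
    rw [← smul_add, cut_add]
  · rw [hgs, hLp1]
    calc (1 - ε) * ((L : ℝ) * (L : ℝ) ^ p) = ∑ r ∈ Ico L (2 * L), (L : ℝ) ^ p * (1 - ε) := by
          rw [Finset.sum_const, Nat.card_Ico, nsmul_eq_mul]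
          have : 2 * L - L = L := by omega
          rw [this]
          ring
      _ ≤ ∑ r ∈ Ico L (2 * L), (nn L r : ℝ) ^ p * θ r := by
          refine Finset.sum_le_sum fun r hr => ?_
          have hr' := mem_Ico.1 hr
          have hrJ : r ≤ J := by omega
          have e : nn L r = L := le_antisymm (nn_le L r) (nn_ge L r hr'.1 hr'.2)
          rw [e]
          exact mul_le_mul_of_nonneg_left (hθ1 r hrJ) (by positivity)
      _ ≤ ∑ r ∈ range (3 * L), (nn L r : ℝ) ^ p * θ r := by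
          refine Finset.sum_le_sum_of_subset_of_nonneg (fun r hr => ?_) (fun r hr _ => ?_)
          · have hr' := mem_Ico.1 hr
            exact mem_range.2 (by omega)
          · exact mul_nonneg (hnn0 r) (hθ0 r (hJ r hr))
  · rw [hgs, hLp1]
    calc ∑ r ∈ range (3 * L), (nn L r : ℝ) ^ p * θ r ≤ ∑ r ∈ range (3 * L), (L : ℝ) ^ p * 1 := by
          refine Finset.sum_le_sum fun r hr => ?_
          exact mul_le_mul (hnnp r) (hθ2 r (hJ r hr)) (hθ0 r (hJ r hr)) (by positivity)
      _ = 3 * ((L : ℝ) * (L : ℝ) ^ p) := by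
          rw [Finset.sum_const, card_range, nsmul_eq_mul]
          push_cast
          ring
  · calc nrm p (∑ r ∈ range (3 * L), a r • cut (X r)ᶜ (ψ r))
        ≤ ((range (3 * L)).card : ℝ) ^ (p - 1) *
          ∑ r ∈ range (3 * L), nrm p (a r • cut (X r)ᶜ (ψ r)) :=
          nrm_sum_le hp _ _ fun r _ => (fs_cut (hFSψ r)).smul _
      _ ≤ (3 * (L : ℝ)) ^ (p - 1) * ∑ r ∈ range (3 * L), (L : ℝ) ^ p * ε := by
          rw [card_range]
          push_cast
          refine mul_le_mul_of_nonneg_left (Finset.sum_le_sum fun r hr => ?_) (by positivity)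
          rw [hnorm]
          exact mul_le_mul (hnnp r) (hbp r (hJ r hr)) (nrm_nonneg _ _) (by positivity)
      _ = (3 * (L : ℝ)) ^ (p - 1) * (3 * (L : ℝ)) * (L : ℝ) ^ p * ε := by
          rw [Finset.sum_const, card_range, nsmul_eq_mul]
          push_cast
          ring
      _ = (3 * (L : ℝ)) ^ p * (L : ℝ) ^ p * ε := by
          rw [hrp (3 * (L : ℝ)) (by positivity)]
  · unfold tst
    exact fs_sum _ _ fun r _ => hFSψ r
  · have e1 : tst A M = ∑ r ∈ range (2 * L), cut (X r) (ψ r) +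
        ∑ r ∈ range (2 * L), cut (X r)ᶜ (ψ r) := by
      unfold tst
      rw [← Finset.sum_add_distrib]
      exact Finset.sum_congr rfl fun r _ => (cut_add (X r) (ψ r)).symm
    have e2 : nrm p (∑ r ∈ range (2 * L), cut (X r) (ψ r)) ≤ 2 * (L : ℝ) := by
      rw [nrm_sum_disj hpos (range (2 * L)) (fun r => cut (X r) (ψ r))
        (fun r _ => fs_cut (hFSψ r)) (fun r hr r' hr' hne x =>
          hdis r r' (hJ2 r hr) (hJ2 r' hr') hne x)]
      calc ∑ r ∈ range (2 * L), nrm p (cut (X r) (ψ r)) ≤ ∑ r ∈ range (2 * L), (1 : ℝ) := by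
            refine Finset.sum_le_sum fun r hr => ?_
            rw [(hcut r (hJ2 r hr)).1]
            exact hθ2 r (hJ2 r hr)
        _ = 2 * (L : ℝ) := by
            rw [Finset.sum_const, card_range, nsmul_eq_mul]
            push_cast
            ring
    have e3 : nrm p (∑ r ∈ range (2 * L), cut (X r)ᶜ (ψ r)) ≤ (2 * (L : ℝ)) ^ p * ε := by
      calc nrm p (∑ r ∈ range (2 * L), cut (X r)ᶜ (ψ r))
          ≤ ((range (2 * L)).card : ℝ) ^ (p - 1) *
            ∑ r ∈ range (2 * L), nrm p (cut (X r)ᶜ (ψ r)) :=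
            nrm_sum_le hp _ _ fun r _ => fs_cut (hFSψ r)
        _ ≤ (2 * (L : ℝ)) ^ (p - 1) * ∑ r ∈ range (2 * L), ε := by
            rw [card_range]
            push_cast
            exact mul_le_mul_of_nonneg_left (Finset.sum_le_sum fun r hr => hbp r (hJ2 r hr))
              (by positivity)
        _ = (2 * (L : ℝ)) ^ (p - 1) * (2 * (L : ℝ)) * ε := by
            rw [Finset.sum_const, card_range, nsmul_eq_mul]
            push_cast
            ring
        _ = (2 * (L : ℝ)) ^ p * ε := by rw [hrp (2 * (L : ℝ)) (by positivity)]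
    rw [e1]
    have e4 : (2 : ℝ) ^ (p - 1) ≤ 2 := by
      calc (2 : ℝ) ^ (p - 1) ≤ (2 : ℝ) ^ (1 : ℝ) :=
            Real.rpow_le_rpow_of_exponent_le (by norm_num) (by linarith)
        _ = 2 := Real.rpow_one 2
    have e5 := nrm_nonneg p (∑ r ∈ range (2 * L), cut (X r) (ψ r))
    have e6 := nrm_nonneg p (∑ r ∈ range (2 * L), cut (X r)ᶜ (ψ r))
    calc nrm p (∑ r ∈ range (2 * L), cut (X r) (ψ r) + ∑ r ∈ range (2 * L), cut (X r)ᶜ (ψ r))
        ≤ 2 ^ (p - 1) * (nrm p (∑ r ∈ range (2 * L), cut (X r) (ψ r)) +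
          nrm p (∑ r ∈ range (2 * L), cut (X r)ᶜ (ψ r))) :=
          nrm_add_le hp (fs_sum _ _ fun r _ => fs_cut (hFSψ r))
            (fs_sum _ _ fun r _ => fs_cut (hFSψ r))
      _ ≤ 2 * (nrm p (∑ r ∈ range (2 * L), cut (X r) (ψ r)) +
          nrm p (∑ r ∈ range (2 * L), cut (X r)ᶜ (ψ r))) :=
          mul_le_mul_of_nonneg_right e4 (add_nonneg e5 e6)
      _ ≤ 2 * (2 * (L : ℝ) + (2 * (L : ℝ)) ^ p * ε) := by linarith

end Pool.Agent.UC
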