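import Pool.Agent.Lib.MP_830418_an.Full60.Stm
import Pool.Agent.Lib.MP_830418_an.Full60.Basic

/-!
The dissipation inequality for `T`.
-/

open Finset

namespace Pool.Agent.UC

open Pool.Agent.PC Pool.Agent.Rich

universe u

variable {G : Type u} [Group G]

/-- `D_s = (1+S^(2^(s-1))) ... (1+S) = ∑_{j<2^s} S^j` -/
theorem Dp_pow (S : Module.End ℂ (Vec G 2)) (M : ℕ) :
    DS.Dp (fun s => S ^ (2 ^ s)) M = Dn S M := by
  induction M with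
  | zero =>
    unfold Dn
    rw [pow_zero, Finset.sum_range_one, pow_zero]
    rfl
  | succ M ih =>
    have h1 : DS.Dp (fun s => S ^ (2 ^ s)) (M + 1) =
      DS.Dp (fun s => S ^ (2 ^ s)) M + (S ^ (2 ^ M)).comp (DS.Dp (fun s => S ^ (2 ^ s)) M) := rfl
    rw [h1, ih]
    unfold Dn
    have h2 : (2 : ℕ) ^ (M + 1) = 2 ^ M + 2 ^ M := by ring
    rw [h2, Finset.sum_range_add]
    congr 1
    have h3 : (S ^ 2 ^ M).comp (∑ j ∈ range (2 ^ M), S ^ j) =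
      (S ^ 2 ^ M) * (∑ j ∈ range (2 ^ M), S ^ j) := rfl
    rw [h3, Finset.mul_sum]
    exact Finset.sum_congr rfl fun j _ => (pow_add _ _ _).symm

/-- `J_{s-1} ... J_0 (k (z0+z1), k (z0-z1)) = k^(s+1) (a_s, b_s)` -/
theorem Jc_ab (p : ℝ) (S : Module.End ℂ (Vec G 2)) (z0 z1 : Vec G 2) (s : ℕ) :
    Jc p S s (k0 p • (z0 + z1), k0 p • (z0 - z1)) =
      (k0 p ^ (s + 1) • (DS.ab (fun s => S ^ (2 ^ s)) z0 z1 s).1,
        k0 p ^ (s + 1) • (DS.ab (fun s => S ^ (2 ^ s)) z0 z1 s).2) := by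
  induction s with
  | zero =>
    rw [zero_add, pow_one]
    rfl
  | succ s ih =>
    have h1 : Jc p S (s + 1) (k0 p • (z0 + z1), k0 p • (z0 - z1)) =
      Jn p (S ^ (2 ^ s)) (Jc p S s (k0 p • (z0 + z1), k0 p • (z0 - z1))) := rfl
    have h2 : (DS.ab (fun s => S ^ (2 ^ s)) z0 z1 (s + 1)) =
      ((DS.ab (fun s => S ^ (2 ^ s)) z0 z1 s).1 +
        (S ^ (2 ^ s)) (DS.ab (fun s => S ^ (2 ^ s)) z0 z1 s).2,
       (DS.ab (fun s => S ^ (2 ^ s)) z0 z1 s).1 -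
        (S ^ (2 ^ s)) (DS.ab (fun s => S ^ (2 ^ s)) z0 z1 s).2) := rfl
    rw [h1, ih, h2, Jn_apply]
    simp only [map_smul]
    rw [← smul_add, ← smul_sub, smul_smul, smul_smul, ← pow_succ']

theorem win_pow {p : ℝ} {S : Module.End ℂ (Vec G 2)}
    (hS : ∀ φ, FS φ → FS (S φ)) (hS1 : ∀ φ, FS φ → nrm p (S φ) ≤ nrm p φ) (M : ℕ) :
    DS.Win p M (fun s => S ^ (2 ^ s)) (S ^ (2 ^ M))
      (fun s => {u : Vec G 2 →ₗ[ℂ] Vec G 2 | ∃ h : ℕ, h + 2 ^ s ≤ 2 ^ M ∧ u = S ^ h}) where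
  one := ⟨0, by simp, rfl⟩
  down := by
    rintro s _ u ⟨h, h1, rfl⟩
    refine ⟨h, ?_, rfl⟩
    rw [pow_succ] at h1
    omega
  comp := by
    rintro s _ u ⟨h, h1, rfl⟩
    refine ⟨h + 2 ^ s, ?_, ?_⟩
    · rw [pow_succ] at h1
      omega
    · rw [pow_add]
      rfl
  fs := by
    rintro s _ u ⟨h, h1, rfl⟩ φ hφ
    exact pow_fs hS h φ hφ
  fsS := fun s _ φ hφ => pow_fs hS _ φ hφ
  le := by
    rintro s _ u ⟨h, h1, rfl⟩ φ hφ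
    exact pow_le hS hS1 h φ hφ
  P_le := by
    rintro s _ u ⟨h, h1, rfl⟩ φ hφ
    have h2 : 2 ^ M = (2 ^ M - h) + h :=
      (Nat.sub_add_cancel ((Nat.le_add_right _ _).trans h1)).symm
    rw [h2, pow_add]
    exact pow_le hS hS1 _ _ (pow_fs hS h φ hφ)
  S_le := by
    rintro s u ⟨h, h1, rfl⟩ r _ _ φ hφ
    have h2 : (S ^ h) ((S ^ 2 ^ r) φ) = (S ^ 2 ^ r) ((S ^ h) φ) := by
      rw [← Module.End.mul_apply, ← Module.End.mul_apply, ← pow_add, ← pow_add, add_comm]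
    rw [h2]
    exact pow_le hS hS1 _ _ (pow_fs hS h φ hφ)

theorem p_up : S_up.{u} := by
  intro p hp hp2 G _ S hS hS1 g M z hz
  have hp0 : 0 < p := by linarith
  have hz1 : FS (tr g z.2) := hz.2.tr g
  have hT : Tn p S g M z =
      (k0 p ^ (M + 1) • (S ^ 2 ^ M) (DS.ab (fun s => S ^ (2 ^ s)) z.1 (tr g z.2) M).1,
        k0 p ^ (M + 1) • (S ^ 2 ^ M) (DS.ab (fun s => S ^ (2 ^ s)) z.1 (tr g z.2) M).2) := by
    have h1 : Tn p S g M z = ((S ^ (2 ^ M)).prodMap (S ^ (2 ^ M)))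
      (Jc p S M (k0 p • (z.1 + tr g z.2), k0 p • (z.1 - tr g z.2))) := rfl
    rw [h1, Jc_ab, LinearMap.prodMap_apply]
    simp only [map_smul]
  have hw := win_pow hS hS1 M
  obtain ⟨f1, f2⟩ := DS.ab_fs hw (z0 := z.1) (z1 := tr g z.2) hz.1 hz1 M le_rfl
  have hnr : nr2 p (Tn p S g M z) =
      (nrm p ((S ^ 2 ^ M) (DS.ab (fun s => S ^ (2 ^ s)) z.1 (tr g z.2) M).1) +
        nrm p ((S ^ 2 ^ M) (DS.ab (fun s => S ^ (2 ^ s)) z.1 (tr g z.2) M).2)) / 2 ^ (M + 1) := by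
    rw [hT]
    unfold nr2
    simp only
    rw [nrm_smul, nrm_smul, norm_k0_pow_rpow hp0, one_div, inv_pow]
    field_simp
  have hB : nrm p z.1 + nrm p (tr g z.2) = nr2 p z := by
    unfold nr2
    rw [nrm_tr]
  have hd := DS.diss hp hp2 hw (z0 := z.1) (z1 := tr g z.2) hz.1 hz1
  rw [Dp_pow] at hd
  change nrm p (Dn S M z.1) ≤ 2 ^ (p - 1) * (2 ^ M * (nrm p z.1 + nrm p (tr g z.2)) +
    DS.Cp p * ((2 : ℝ) ^ M) ^ p * (nrm p z.1 + nrm p (tr g z.2) -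
      (nrm p ((S ^ 2 ^ M) (DS.ab (fun s => S ^ (2 ^ s)) z.1 (tr g z.2) M).1) +
        nrm p ((S ^ 2 ^ M) (DS.ab (fun s => S ^ (2 ^ s)) z.1 (tr g z.2) M).2)) / 2 ^ (M + 1))) at hd
  rw [hB, ← hnr] at hd
  refine ⟨?_, ?_, hd⟩
  · rw [hT]
    exact ⟨(pow_fs hS _ _ f1).smul _, (pow_fs hS _ _ f2).smul _⟩
  · have h1 : FS2 (Jn p (tr g) z) := FS2.Jn p (fun φ hφ => hφ.tr g) hz
    have h2 := nr2_Jn hp hp2 (S := tr g) (fun φ hφ => hφ.tr g) (fun φ _ => (nrm_tr p g φ).le) hz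
    have h3 := nr2_Jc hp hp2 hS hS1 M h1
    have h4 := Jc_fs p hS M h1
    have h5 : nr2 p (Tn p S g M z) ≤ nr2 p (Jc p S M (Jn p (tr g) z)) :=
      add_le_add (pow_le hS hS1 _ _ h4.1) (pow_le hS hS1 _ _ h4.2)
    exact h5.trans (h3.trans h2)

end Pool.Agent.UC
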