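import Pool.Agent.Lib.MP_830418_an.Full60.Stm
import Pool.Agent.Lib.MP_830418_an.Flat.P_ext

/-!
Piece `xtr`: extraction of one entry.
-/

open Finset

namespace Pool.Agent.UC

open Pool.Agent.PC Pool.Agent.Rich

universe u

section xtr

variable {G : Type u} [Group G]

/-- the component `κ` -/
private noncomputable def xtrCp (κ : Fin 2) (φ : Vec G 2) : Vec G 2 :=
  fun x i => if i = κ then φ x i else 0

private theorem xtrCp_fs {κ : Fin 2} {φ : Vec G 2} (hφ : FS φ) : FS (xtrCp κ φ) :=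
  FS.of_subset hφ fun x hx => by
    simp only [Function.mem_support, not_not] at hx
    funext i
    simp [xtrCp, hx]

private theorem xtrCp_add (φ : Vec G 2) : φ = xtrCp 0 φ + xtrCp 1 φ := by
  funext x i
  fin_cases i <;> simp [xtrCp]

private theorem xtrCp_nrm {p : ℝ} (hp : 0 < p) {φ : Vec G 2} (hφ : FS φ) :
    nrm p φ = nrm p (xtrCp 0 φ) + nrm p (xtrCp 1 φ) := by
  unfold nrm
  rw [← (nrm_summable hp (xtrCp_fs (κ := 0) hφ)).tsum_add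
    (nrm_summable hp (xtrCp_fs (κ := 1) hφ))]
  refine tsum_congr fun x => ?_
  simp [xtrCp, Fin.sum_univ_two, hp.ne']

private theorem xtr_nrm_add {p : ℝ} (hp : 1 < p) (hp2 : p < 2) {φ ψ : Vec G 2} (hφ : FS φ)
    (hψ : FS ψ) : nrm p (φ + ψ) ≤ 2 * (nrm p φ + nrm p ψ) := by
  have hp0 : 0 < p := by linarith
  have h1 : nrm p φ + nrm p ψ = ∑' x, (∑ i, ‖φ x i‖ ^ p + ∑ i, ‖ψ x i‖ ^ p) :=
    ((nrm_summable hp0 hφ).tsum_add (nrm_summable hp0 hψ)).symm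
  rw [h1, ← tsum_mul_left]
  refine Summable.tsum_le_tsum (fun x => ?_) (nrm_summable hp0 (hφ.add hψ))
    (((nrm_summable hp0 hφ).add (nrm_summable hp0 hψ)).mul_left 2)
  rw [← Finset.sum_add_distrib, Finset.mul_sum]
  refine Finset.sum_le_sum fun i _ => ?_
  have h2 : ‖(φ + ψ) x i‖ ≤ ‖φ x i‖ + ‖ψ x i‖ := norm_add_le _ _
  have h3 : (‖φ x i‖ + ‖ψ x i‖) ^ p ≤
      (2 : ℝ) ^ (p - 1) * (‖φ x i‖ ^ p + ‖ψ x i‖ ^ p) := by
    have h := NNReal.rpow_add_le_mul_rpow_add_rpow ‖φ x i‖₊ ‖ψ x i‖₊ hp.le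
    have h' := NNReal.coe_le_coe.2 h
    push_cast at h'
    exact h'
  have h4 : (2 : ℝ) ^ (p - 1) ≤ 2 := by
    calc (2 : ℝ) ^ (p - 1) ≤ (2 : ℝ) ^ (1 : ℝ) :=
          Real.rpow_le_rpow_of_exponent_le (by norm_num) (by linarith)
      _ = 2 := Real.rpow_one 2
  have h5 : 0 ≤ ‖φ x i‖ ^ p + ‖ψ x i‖ ^ p :=
    add_nonneg (Real.rpow_nonneg (norm_nonneg _) _) (Real.rpow_nonneg (norm_nonneg _) _)
  calc ‖(φ + ψ) x i‖ ^ p ≤ (‖φ x i‖ + ‖ψ x i‖) ^ p :=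
        Real.rpow_le_rpow (norm_nonneg _) h2 hp0.le
    _ ≤ (2 : ℝ) ^ (p - 1) * (‖φ x i‖ ^ p + ‖ψ x i‖ ^ p) := h3
    _ ≤ 2 * (‖φ x i‖ ^ p + ‖ψ x i‖ ^ p) := mul_le_mul_of_nonneg_right h4 h5

end xtr

/-- `xtr` -/
theorem p_xtr : S_xtr.{u} := by
  intro p hp hp2 G _ F F' hrep hF' C R hC hR hbd ξ hξ hlt
  have hp0 : 0 < p := by linarith
  by_contra hcon
  -- no entry is large
  have h0 : ∀ κ : Fin 2, nrm p ((F' (xtrCp κ ξ)).1) ≤ 2 * (R * C) * nrm p (xtrCp κ ξ) := by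
    intro κ
    by_contra hlt'
    rw [not_le] at hlt'
    refine hcon (p_ext p hp G 2 _ _ hrep.1 C R hC hR ?_ κ (xtrCp κ ξ) (xtrCp_fs hξ) ?_ ?_)
    · intro φ hφ
      have h := hbd (φ, 0) ⟨hφ, fs_zero⟩
      have h2 : nr2 p ((φ, 0) : E G) = nrm p φ := by
        unfold nr2
        show nrm p φ + nrm p (0 : Vec G 2) = nrm p φ
        rw [nrm_zero hp0, add_zero]
      rw [h2] at h
      exact h
    · intro x i hi
      simp [xtrCp, hi]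
    · exact_mod_cast hlt'
  have h1 : ∀ κ : Fin 2, nrm p ((F' (xtrCp κ ξ)).2) ≤ 2 * (R * C) * nrm p (xtrCp κ ξ) := by
    intro κ
    by_contra hlt'
    rw [not_le] at hlt'
    refine hcon (p_ext p hp G 2 _ _ hrep.2 C R hC hR ?_ κ (xtrCp κ ξ) (xtrCp_fs hξ) ?_ ?_)
    · intro φ hφ
      have h := hbd (0, φ) ⟨fs_zero, hφ⟩
      have h2 : nr2 p ((0, φ) : E G) = nrm p φ := by
        unfold nr2
        show nrm p (0 : Vec G 2) + nrm p φ = nrm p φ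
        rw [nrm_zero hp0, zero_add]
      rw [h2] at h
      exact h
    · intro x i hi
      simp [xtrCp, hi]
    · exact_mod_cast hlt'
  have hsum : F' ξ = F' (xtrCp 0 ξ) + F' (xtrCp 1 ξ) := by
    rw [← map_add, ← xtrCp_add]
  have hf0 := hF' _ (xtrCp_fs (κ := 0) hξ)
  have hf1 := hF' _ (xtrCp_fs (κ := 1) hξ)
  have e1 : nrm p (F' ξ).1 ≤
      2 * (nrm p (F' (xtrCp 0 ξ)).1 + nrm p (F' (xtrCp 1 ξ)).1) := by
    rw [hsum]
    exact xtr_nrm_add hp hp2 hf0.1 hf1.1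
  have e2 : nrm p (F' ξ).2 ≤
      2 * (nrm p (F' (xtrCp 0 ξ)).2 + nrm p (F' (xtrCp 1 ξ)).2) := by
    rw [hsum]
    exact xtr_nrm_add hp hp2 hf0.2 hf1.2
  have e3 := xtrCp_nrm hp0 hξ
  have a0 := h0 0
  have a1 := h0 1
  have b0 := h1 0
  have b1 := h1 1
  have e4 : nr2 p (F' ξ) = nrm p (F' ξ).1 + nrm p (F' ξ).2 := rfl
  rw [e4, e3] at hlt
  nlinarith [e1, e2, a0, a1, b0, b1]

end Pool.Agent.UC
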