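import Pool.Agent.Lib.MP_830418_an.Flat.Basic
import Pool.Agent.Lib.MP_830418_an.Diss.Main
import Pool.Agent.Lib.MP_830418_an.Rich.Letters2
import Pool.Agent.Lib.MP_830418_an.Full.Iface

/-!
Problem MP_830418_an, case of powers of one contraction (Theorem 4 of MP_830418_full_h60.md).
Definitions.  `1 < p < 2` throughout; vectors `Vec G 2` and pairs of vectors.
-/

open Finset

namespace Pool.Agent.UC

open Pool.Agent.PC Pool.Agent.Rich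

universe u

/-- pairs of vectors -/
abbrev E (G : Type u) : Type u := Vec G 2 × Vec G 2

section defs

variable {G : Type u} [Group G]

/-- norm of a pair (`p`-th power) -/
noncomputable def nr2 (p : ℝ) (z : E G) : ℝ := nrm p z.1 + nrm p z.2

/-- finite supports -/
def FS2 (z : E G) : Prop := FS z.1 ∧ FS z.2

/-- at every point at most one of the four components is not zero -/
def SC2 (z : E G) : Prop := SC z.1 ∧ SC z.2 ∧ ∀ x, z.1 x = 0 ∨ z.2 x = 0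

/-- the `p`-mass of `φ` at the point `x` -/
noncomputable def mas (p : ℝ) (φ : Vec G 2) (x : G) : ℝ := ∑ i, ‖φ x i‖ ^ p

/-- `φ` cut to `X` -/
noncomputable def cut (X : Set G) (φ : Vec G 2) : Vec G 2 := X.indicator φ

/-- left translation of pairs -/
noncomputable def tr2 (g : G) : E G →ₗ[ℂ] E G := (tr g).prodMap (tr g)

/-- `2^(-1/p)` -/
noncomputable def k0 (p : ℝ) : ℂ := (((2 : ℝ) ^ (-(1 / p)) : ℝ) : ℂ)

/-- the matrix `1, 1, 1, -1` -/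
def had (i j : Fin 2) : ℂ := if i = 1 ∧ j = 1 then -1 else 1

/-- `1, c` -/
def lc (c : G) (i : Fin 2) : G := if i = 0 then 1 else c

/-- `R_c (φ_0, φ_1) = 2^(-1/p) (φ_0 + c φ_1, φ_0 - c φ_1)` -/
noncomputable def Rn (p : ℝ) (c : G) : Vec G 2 →ₗ[ℂ] Vec G 2 :=
  (((2 : ℝ) ^ (1 / 2 - 1 / p) : ℝ) : ℂ) • Rop had (lc c)

/-- `R_c^* (ψ_0, ψ_1) = 2^(-1/p) (ψ_0 + ψ_1, c⁻¹ (ψ_0 - ψ_1))` -/
noncomputable def Rs (p : ℝ) (c : G) : Vec G 2 →ₗ[ℂ] Vec G 2 :=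
  (((2 : ℝ) ^ (1 / 2 - 1 / p) : ℝ) : ℂ) • Rad had (lc c)

/-- `U = R_{c 0} R_{c 1} ... R_{c (m-1)}` -/
noncomputable def Um (p : ℝ) : (m : ℕ) → (Fin m → G) → (Vec G 2 →ₗ[ℂ] Vec G 2)
  | 0, _ => LinearMap.id
  | m + 1, c => (Rn p (c 0)).comp (Um p m fun i => c i.succ)

/-- `A = U^* = R^*_{c (m-1)} ... R^*_{c 0}` -/
noncomputable def Am (p : ℝ) : (m : ℕ) → (Fin m → G) → (Vec G 2 →ₗ[ℂ] Vec G 2)
  | 0, _ => LinearMap.id
  | m + 1, c => (Am p m fun i => c i.succ).comp (Rs p (c 0))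

/-- `J_S (φ, ψ) = 2^(-1/p) (φ + S ψ, φ - S ψ)` -/
noncomputable def Jn (p : ℝ) (S : Vec G 2 →ₗ[ℂ] Vec G 2) : E G →ₗ[ℂ] E G :=
  LinearMap.prod
    (k0 p • (LinearMap.fst ℂ (Vec G 2) (Vec G 2) + S.comp (LinearMap.snd ℂ (Vec G 2) (Vec G 2))))
    (k0 p • (LinearMap.fst ℂ (Vec G 2) (Vec G 2) - S.comp (LinearMap.snd ℂ (Vec G 2) (Vec G 2))))

/-- `J_S^* (φ, ψ) = 2^(-1/p) (φ + ψ, S^* (φ - ψ))` -/
noncomputable def Js (p : ℝ) (A : Vec G 2 →ₗ[ℂ] Vec G 2) : E G →ₗ[ℂ] E G :=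
  LinearMap.prod
    (k0 p • (LinearMap.fst ℂ (Vec G 2) (Vec G 2) + LinearMap.snd ℂ (Vec G 2) (Vec G 2)))
    (k0 p • A.comp (LinearMap.fst ℂ (Vec G 2) (Vec G 2) - LinearMap.snd ℂ (Vec G 2) (Vec G 2)))

/-- `J_{S^(2^(s-1))} ... J_{S^2} J_S` (`s` factors) -/
noncomputable def Jc (p : ℝ) (S : Module.End ℂ (Vec G 2)) : ℕ → (E G →ₗ[ℂ] E G)
  | 0 => LinearMap.id
  | s + 1 => (Jn p (S ^ (2 ^ s))).comp (Jc p S s)

/-- the adjoint of `Jc` -/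
noncomputable def Jcs (p : ℝ) (A : Module.End ℂ (Vec G 2)) : ℕ → (E G →ₗ[ℂ] E G)
  | 0 => LinearMap.id
  | s + 1 => (Jcs p A s).comp (Js p (A ^ (2 ^ s)))

/-- `T = (S^L × S^L) J_{S^(L/2)} ... J_S J_g`, `L = 2^M` -/
noncomputable def Tn (p : ℝ) (S : Module.End ℂ (Vec G 2)) (g : G) (M : ℕ) : E G →ₗ[ℂ] E G :=
  ((S ^ (2 ^ M)).prodMap (S ^ (2 ^ M))).comp ((Jc p S M).comp (Jn p (tr g)))

/-- `T^* = J_g^* J_S^* ... J_{S^(L/2)}^* (S^{*L} × S^{*L})` -/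
noncomputable def Ts (p : ℝ) (A : Module.End ℂ (Vec G 2)) (g : G) (M : ℕ) : E G →ₗ[ℂ] E G :=
  (Js p (tr g⁻¹)).comp ((Jcs p A M).comp ((A ^ (2 ^ M)).prodMap (A ^ (2 ^ M))))

/-- `∑_{j < 2^M} S^j` -/
noncomputable def Dn (S : Module.End ℂ (Vec G 2)) (M : ℕ) : Vec G 2 →ₗ[ℂ] Vec G 2 :=
  ∑ j ∈ range (2 ^ M), S ^ j

/-- the chain `F [] = 0`, `F (b :: bs) = D b + F bs (T b)` -/
noncomputable def F2 (T : E G →ₗ[ℂ] E G) (D : E G →ₗ[ℂ] Vec G 2) :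
    List G → (E G →ₗ[ℂ] Vec G 2)
  | [] => 0
  | b :: bs => D.comp (tr2 b) + (F2 T D bs).comp (T.comp (tr2 b))

/-- the adjoint chain `F^* [] = 0`, `F^* (b :: bs) = b⁻¹ (D^* + T^* F^* bs)` -/
noncomputable def Fs2 (T' : E G →ₗ[ℂ] E G) (D' : Vec G 2 →ₗ[ℂ] E G) :
    List G → (Vec G 2 →ₗ[ℂ] E G)
  | [] => 0
  | b :: bs => (tr2 b⁻¹).comp (D' + T'.comp (Fs2 T' D' bs))

/-- `D = Dn ∘ fst` -/
noncomputable def Df (S : Module.End ℂ (Vec G 2)) (M : ℕ) : E G →ₗ[ℂ] Vec G 2 :=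
  (Dn S M).comp (LinearMap.fst ℂ (Vec G 2) (Vec G 2))

/-- `D^* = inl ∘ Dn(S^*)` -/
noncomputable def Dfs (A : Module.End ℂ (Vec G 2)) (M : ℕ) : Vec G 2 →ₗ[ℂ] E G :=
  (LinearMap.inl ℂ (Vec G 2) (Vec G 2)).comp (Dn A M)

/-- `F : E → V` and its adjoint are given by matrices -/
def Rep2 (F : E G →ₗ[ℂ] Vec G 2) (F' : Vec G 2 →ₗ[ℂ] E G) : Prop :=
  Rep (F.comp (LinearMap.inl ℂ (Vec G 2) (Vec G 2)))
    ((LinearMap.fst ℂ (Vec G 2) (Vec G 2)).comp F') ∧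
  Rep (F.comp (LinearMap.inr ℂ (Vec G 2) (Vec G 2)))
    ((LinearMap.snd ℂ (Vec G 2) (Vec G 2)).comp F')

/-- `T : E → E` and its adjoint are given by matrices -/
def Rep22 (T T' : E G →ₗ[ℂ] E G) : Prop :=
  Rep2 ((LinearMap.fst ℂ (Vec G 2) (Vec G 2)).comp T)
    (T'.comp (LinearMap.inl ℂ (Vec G 2) (Vec G 2))) ∧
  Rep2 ((LinearMap.snd ℂ (Vec G 2) (Vec G 2)).comp T)
    (T'.comp (LinearMap.inr ℂ (Vec G 2) (Vec G 2)))

/-- value of a word with one pass -/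
def pv {m : ℕ} (c : Fin m → G) (i : Fin m → Bool) : G :=
  (List.ofFn fun s : Fin m => if i s then c s else 1).prod

/-- the data of Theorem 4: letters, good words, and a further element -/
structure Data {m : ℕ} (c : Fin m → G) (g : G) (J : ℕ) (ε : ℝ)
    (T : (r : ℕ) → Finset (Fin r → Fin m → Bool)) : Prop where
  card : ∀ r, r ≤ J → (1 - ε) * 2 ^ (m * r) ≤ ((T r).card : ℝ)
  n1 : ∀ r, r ≤ J → ∀ t ∈ T r, ∀ s : Fin r → Fin m → Bool, s ≠ t →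
    NonFC (wval c s * (wval c t)⁻¹)
  n2 : ∀ r r', r ≤ J → r' ≤ J → r ≠ r' → ∀ t ∈ T r, ∀ s ∈ T r',
    NonFC (wval c s * (wval c t)⁻¹)
  n3 : ∀ r r', r ≤ J → r' ≤ J → ∀ (t : Fin r → Fin m → Bool) (s : Fin r' → Fin m → Bool),
    NonFC (wval c t * g * (wval c s)⁻¹)

/-- there are data for all parameters -/
def CondU (G : Type u) [Group G] : Prop :=
  ∀ (J : ℕ) (ε : ℝ), 0 < ε → ∃ (m : ℕ) (c : Fin m → G) (g : G)
    (T : (r : ℕ) → Finset (Fin r → Fin m → Bool)), Data c g J ε T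

/-- the points `(wval t)⁻¹ q`, `t` a good word with `r` passes, `q` in the support of `χ` -/
def pts {m : ℕ} (c : Fin m → G) {r : ℕ} (T : Finset (Fin r → Fin m → Bool)) (Q : Set G) : Set G :=
  {x | ∃ t ∈ T, ∃ q ∈ Q, x = (wval c t)⁻¹ * q}

/-- the conditions on a translate `Q` of the support -/
structure Gen {m : ℕ} (c : Fin m → G) (g : G) (J : ℕ)
    (T : (r : ℕ) → Finset (Fin r → Fin m → Bool)) (Q Y : Set G) : Prop where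
  g1 : ∀ r, r ≤ J → ∀ t ∈ T r, ∀ s : Fin r → Fin m → Bool, s ≠ t → ∀ q ∈ Q,
    wval c s * (wval c t)⁻¹ * q ∉ Q
  g2 : ∀ r r', r ≤ J → r' ≤ J → r ≠ r' → Disjoint (pts c (T r) Q) (pts c (T r') Q)
  g3 : ∀ r r', r ≤ J → r' ≤ J → ∀ x ∈ pts c (T r) Q, g * x ∉ pts c (T r') Q
  g4 : ∀ r, r ≤ J → Disjoint (pts c (T r) Q) Y
  g5 : ∀ r, r ≤ J → ∀ x, g * x ∈ pts c (T r) Q → x ∉ Y

end defs

end Pool.Agent.UC
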