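import Pool.Agent.Lib.MP_830418_an.Full60.Stm
import Pool.Agent.Lib.MP_830418_an.Flat.P_hold

/-!
Piece `lwr`: the lower bound for the adjoint chain.
-/

open Finset

namespace Pool.Agent.UC

open Pool.Agent.PC Pool.Agent.Rich

universe u

private theorem lw_add {G : Type u} [Group G] {p : ℝ} (hp : 0 < p) {φ ψ : Vec G 2}
    (hφ : FS φ) (hψ : FS ψ) (h : ∀ x, φ x = 0 ∨ ψ x = 0) :
    nrm p (φ + ψ) = nrm p φ + nrm p ψ := by
  unfold nrm
  rw [← (nrm_summable hp hφ).tsum_add (nrm_summable hp hψ)]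
  refine tsum_congr fun x => ?_
  rcases h x with h0 | h0
  · rw [nrm_term_zero hp h0, zero_add]
    simp [Pi.add_apply, h0]
  · rw [nrm_term_zero hp h0, add_zero]
    simp [Pi.add_apply, h0]

private theorem lw_neg {G : Type u} [Group G] (p : ℝ) (φ : Vec G 2) : nrm p (-φ) = nrm p φ := by
  unfold nrm
  refine tsum_congr fun x => Finset.sum_congr rfl fun i _ => ?_
  rw [Pi.neg_apply, Pi.neg_apply, norm_neg]

private theorem lw_fs_neg {G : Type u} [Group G] {φ : Vec G 2} (h : FS φ) : FS (-φ) := by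
  have := h.smul (-1 : ℂ)
  rwa [neg_one_smul] at this

private theorem lw_three {G : Type u} [Group G] {p : ℝ} (hp : 1 < p) (hp2 : p < 2)
    {a b c : Vec G 2} (ha : FS a) (hb : FS b) (hc : FS c) :
    nrm p (a + b + c) ≤ 3 * (nrm p a + nrm p b + nrm p c) := by
  have h := p_hold.{u} p hp G 2 [a, b, c] (by
    intro ψ hψ
    simp only [List.mem_cons, List.not_mem_nil, or_false] at hψ
    rcases hψ with rfl | rfl | rfl
    · exact ha
    · exact hb
    · exact hc)
  simp only [List.sum_cons, List.sum_nil, List.length_cons, List.length_nil, List.map_cons,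
    List.map_nil, add_zero] at h
  have e : ((0 + 1 + 1 + 1 : ℕ) : ℝ) = 3 := by norm_num
  rw [e] at h
  have h3 : (3 : ℝ) ^ (p - 1) ≤ 3 := by
    calc (3 : ℝ) ^ (p - 1) ≤ (3 : ℝ) ^ (1 : ℝ) :=
          Real.rpow_le_rpow_of_exponent_le (by norm_num) (by linarith)
      _ = 3 := Real.rpow_one 3
  have h0 : 0 ≤ nrm p a + (nrm p b + nrm p c) := by
    have := nrm_nonneg p a
    have := nrm_nonneg p b
    have := nrm_nonneg p c
    linarith
  calc nrm p (a + b + c) = nrm p (a + (b + c)) := by rw [add_assoc]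
    _ ≤ 3 ^ (p - 1) * (nrm p a + (nrm p b + nrm p c)) := h
    _ ≤ 3 * (nrm p a + (nrm p b + nrm p c)) := mul_le_mul_of_nonneg_right h3 h0
    _ = _ := by ring

private theorem lw_two {G : Type u} [Group G] {p : ℝ} (hp : 1 < p) (hp2 : p < 2)
    {a b : Vec G 2} (ha : FS a) (hb : FS b) :
    nrm p a ≤ 2 * (nrm p (a + b) + nrm p b) := by
  have h := p_hold.{u} p hp G 2 [a + b, -b] (by
    intro ψ hψ
    simp only [List.mem_cons, List.not_mem_nil, or_false] at hψ
    rcases hψ with rfl | rfl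
    · exact ha.add hb
    · exact lw_fs_neg hb)
  simp only [List.sum_cons, List.sum_nil, List.length_cons, List.length_nil, List.map_cons,
    List.map_nil, add_zero, lw_neg] at h
  have e : ((0 + 1 + 1 : ℕ) : ℝ) = 2 := by norm_num
  rw [e, add_neg_cancel_right] at h
  have h3 : (2 : ℝ) ^ (p - 1) ≤ 2 := by
    calc (2 : ℝ) ^ (p - 1) ≤ (2 : ℝ) ^ (1 : ℝ) :=
          Real.rpow_le_rpow_of_exponent_le (by norm_num) (by linarith)
      _ = 2 := Real.rpow_one 2
  have h0 : 0 ≤ nrm p (a + b) + nrm p b := by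
    have := nrm_nonneg p (a + b)
    have := nrm_nonneg p b
    linarith
  exact h.trans (mul_le_mul_of_nonneg_right h3 h0)

private theorem lw_nn {G : Type u} [Group G] (p : ℝ) (z : E G) : 0 ≤ nr2 p z :=
  add_nonneg (nrm_nonneg _ _) (nrm_nonneg _ _)

private theorem lw_tr2 {G : Type u} [Group G] (p : ℝ) (g : G) (z : E G) :
    nr2 p (tr2 g z) = nr2 p z := by
  unfold nr2 tr2
  rw [LinearMap.prodMap_apply]
  simp only [nrm_tr]

private theorem lw_fs_tr2 {G : Type u} [Group G] {z : E G} (h : FS2 z) (g : G) :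
    FS2 (tr2 g z) := by
  unfold tr2
  rw [LinearMap.prodMap_apply]
  exact ⟨h.1.tr g, h.2.tr g⟩

private theorem lw_fs_add {G : Type u} [Group G] {z w : E G} (h : FS2 z) (h' : FS2 w) :
    FS2 (z + w) := ⟨h.1.add h'.1, h.2.add h'.2⟩

theorem p_lwr : S_lwr.{u} := by
  intro p hp hp2 G _ T' D' ε κ hε hε1 hκ hTfs hTle hStep ξ hg hb hD hgfs hbfs hgsc
  have hp0 : 0 < p := by linarith
  set X : ℝ := nr2 p hg with hX
  have hX0 : 0 ≤ X := lw_nn p hg
  have hb0 : 0 ≤ nr2 p hb := lw_nn p hb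
  have h1ε : 0 ≤ 1 - ε := by linarith
  have h1ε' : 1 - ε ≤ 1 := by linarith
  have main : ∀ K : ℕ, ∃ bs : List G, bs.length = K ∧ ∃ Ψ B : E G, FS2 Ψ ∧ FS2 B ∧ SC2 Ψ ∧
      D' ξ + T' (Fs2 T' D' bs ξ) = Ψ + B ∧
      ((K : ℝ) + 1) * (1 - ε) ^ (K + 1) * X ≤ nr2 p Ψ ∧ nr2 p Ψ ≤ ((K : ℝ) + 1) * X ∧
      nr2 p B ≤ 4 ^ (K + 1) * (nr2 p hb + κ * ((K : ℝ) + 1) * X) := by
    intro K
    induction K with
    | zero =>
      refine ⟨[], rfl, hg, hb, hgfs, hbfs, hgsc, ?_, ?_, ?_, ?_⟩
      · have : Fs2 T' D' [] ξ = 0 := rfl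
        rw [this, map_zero, add_zero, hD]
      · rw [Nat.cast_zero, zero_add, zero_add, pow_one, one_mul, ← hX]
        exact mul_le_of_le_one_left hX0 h1ε'
      · rw [Nat.cast_zero, zero_add, one_mul]
      · rw [Nat.cast_zero, zero_add, zero_add, pow_one, mul_one]
        have : 0 ≤ κ * X := mul_nonneg hκ hX0
        linarith
    | succ K ih =>
      obtain ⟨bs, hl, Ψ, B, hΨ, hB, hsc, heq, hlo, hup, hBn⟩ := ih
      have hYf : (Function.support hg.1 ∪ Function.support hg.2).Finite := hgfs.1.union hgfs.2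
      obtain ⟨b, Γ, B₁, hΓ, hB₁, hΓsc, hΓY, hTe, hΓlo, hΓup, hB₁n⟩ := hStep Ψ hΨ hsc _ hYf
      have hdis : ∀ x, (hg.1 x = 0 ∧ hg.2 x = 0) ∨ (Γ.1 x = 0 ∧ Γ.2 x = 0) := by
        intro x
        by_cases hx : x ∈ Function.support hg.1 ∪ Function.support hg.2
        · exact Or.inr (hΓY x hx)
        · left
          simp only [Set.mem_union, Function.mem_support, not_or, not_not] at hx
          exact hx
      have hBT : FS2 (T' (tr2 b⁻¹ B)) := hTfs _ (lw_fs_tr2 hB b⁻¹)
      have hBTn : nr2 p (T' (tr2 b⁻¹ B)) ≤ nr2 p B := by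
        have := hTle _ (lw_fs_tr2 hB b⁻¹)
        rwa [lw_tr2] at this
      refine ⟨b :: bs, by simp [hl], hg + Γ, hb + B₁ + T' (tr2 b⁻¹ B),
        lw_fs_add hgfs hΓ, lw_fs_add (lw_fs_add hbfs hB₁) hBT, ?_, ?_, ?_, ?_, ?_⟩
      · refine ⟨?_, ?_, ?_⟩
        · intro x i j hij
          rcases hdis x with h0 | h0
          · rcases hΓsc.1 x i j hij with h | h
            · left
              change hg.1 x i + Γ.1 x i = 0
              rw [h0.1, h]; simp
            · right
              change hg.1 x j + Γ.1 x j = 0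
              rw [h0.1, h]; simp
          · rcases hgsc.1 x i j hij with h | h
            · left
              change hg.1 x i + Γ.1 x i = 0
              rw [h0.1, h]; simp
            · right
              change hg.1 x j + Γ.1 x j = 0
              rw [h0.1, h]; simp
        · intro x i j hij
          rcases hdis x with h0 | h0
          · rcases hΓsc.2.1 x i j hij with h | h
            · left
              change hg.2 x i + Γ.2 x i = 0
              rw [h0.2, h]; simp
            · right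
              change hg.2 x j + Γ.2 x j = 0
              rw [h0.2, h]; simp
          · rcases hgsc.2.1 x i j hij with h | h
            · left
              change hg.2 x i + Γ.2 x i = 0
              rw [h0.2, h]; simp
            · right
              change hg.2 x j + Γ.2 x j = 0
              rw [h0.2, h]; simp
        · intro x
          rcases hdis x with h0 | h0
          · rcases hΓsc.2.2 x with h | h
            · left
              change hg.1 x + Γ.1 x = 0
              rw [h0.1, h]; simp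
            · right
              change hg.2 x + Γ.2 x = 0
              rw [h0.2, h]; simp
          · rcases hgsc.2.2 x with h | h
            · left
              change hg.1 x + Γ.1 x = 0
              rw [h0.1, h]; simp
            · right
              change hg.2 x + Γ.2 x = 0
              rw [h0.2, h]; simp
      · have e1 : Fs2 T' D' (b :: bs) ξ = tr2 b⁻¹ (D' ξ + T' (Fs2 T' D' bs ξ)) := rfl
        rw [e1, heq, map_add, map_add, hTe, hD]
        abel
      all_goals
        have hnrm : nr2 p (hg + Γ) = X + nr2 p Γ := by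
          have a1 := lw_add hp0 hgfs.1 hΓ.1 fun x => (hdis x).imp And.left And.left
          have a2 := lw_add hp0 hgfs.2 hΓ.2 fun x => (hdis x).imp And.right And.right
          have e : nr2 p (hg + Γ) = nrm p (hg.1 + Γ.1) + nrm p (hg.2 + Γ.2) := rfl
          rw [e, a1, a2, hX]
          unfold nr2
          ring
      · rw [hnrm]
        push_cast
        have q1 : (1 - ε) ^ (K + 1 + 1) ≤ 1 := pow_le_one₀ h1ε h1ε'
        have q2 : (1 - ε) ^ (K + 1 + 1) * X ≤ X := mul_le_of_le_one_left hX0 q1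
        have q3 : (1 - ε) * (((K : ℝ) + 1) * (1 - ε) ^ (K + 1) * X) ≤ (1 - ε) * nr2 p Ψ :=
          mul_le_mul_of_nonneg_left hlo h1ε
        have q4 : (1 - ε) * (((K : ℝ) + 1) * (1 - ε) ^ (K + 1) * X) =
            ((K : ℝ) + 1) * ((1 - ε) ^ (K + 1 + 1) * X) := by ring
        nlinarith
      · rw [hnrm]
        push_cast
        linarith
      · have n3 : nr2 p (hb + B₁ + T' (tr2 b⁻¹ B)) ≤
            3 * (nr2 p hb + nr2 p B₁ + nr2 p (T' (tr2 b⁻¹ B))) := by
          have a1 := lw_three hp hp2 hbfs.1 hB₁.1 hBT.1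
          have a2 := lw_three hp hp2 hbfs.2 hB₁.2 hBT.2
          have e : nr2 p (hb + B₁ + T' (tr2 b⁻¹ B)) =
              nrm p (hb.1 + B₁.1 + (T' (tr2 b⁻¹ B)).1) +
              nrm p (hb.2 + B₁.2 + (T' (tr2 b⁻¹ B)).2) := rfl
          rw [e]
          unfold nr2
          linarith
        push_cast
        set Z : ℝ := nr2 p hb + κ * ((K : ℝ) + 1) * X with hZ
        have hK0 : (0 : ℝ) ≤ K := Nat.cast_nonneg K
        have hZ0 : 0 ≤ Z := by positivity
        have m1 : nr2 p B₁ ≤ κ * (((K : ℝ) + 1) * X) :=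
          hB₁n.trans (mul_le_mul_of_nonneg_left hup hκ)
        have m2 : nr2 p hb + nr2 p B₁ + nr2 p (T' (tr2 b⁻¹ B)) ≤ Z + 4 ^ (K + 1) * Z := by
          have e : Z = nr2 p hb + κ * (((K : ℝ) + 1) * X) := by rw [hZ]; ring
          have : nr2 p (T' (tr2 b⁻¹ B)) ≤ 4 ^ (K + 1) * Z := hBTn.trans hBn
          linarith
        have m3 : (3 : ℝ) ≤ 4 ^ (K + 1) := by
          have : (1 : ℝ) ≤ 4 ^ K := one_le_pow₀ (by norm_num)
          rw [pow_succ]
          linarith
        have m4 : 3 * Z ≤ 4 ^ (K + 1) * Z := mul_le_mul_of_nonneg_right m3 hZ0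
        have m5 : Z ≤ nr2 p hb + κ * ((K : ℝ) + 1 + 1) * X := by
          have : 0 ≤ κ * X := mul_nonneg hκ hX0
          rw [hZ]
          linarith
        calc nr2 p (hb + B₁ + T' (tr2 b⁻¹ B)) ≤ 3 * (Z + 4 ^ (K + 1) * Z) :=
              n3.trans (mul_le_mul_of_nonneg_left m2 (by norm_num))
          _ ≤ 4 ^ (K + 1 + 1) * Z := by
              rw [pow_succ 4 (K + 1)]
              linarith
          _ ≤ _ := mul_le_mul_of_nonneg_left m5 (by positivity)
  intro K hK
  obtain ⟨k, rfl⟩ := Nat.exists_eq_add_of_le hK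
  obtain ⟨bs, hl, Ψ, B, hΨ, hB, -, heq, hlo, -, hBn⟩ := main k
  refine ⟨1 :: bs, by simp [hl, add_comm], ?_⟩
  have e1 : Fs2 T' D' ((1 : G) :: bs) ξ = tr2 (1 : G)⁻¹ (D' ξ + T' (Fs2 T' D' bs ξ)) := rfl
  rw [e1, heq, lw_tr2]
  have h2 : nr2 p Ψ ≤ 2 * (nr2 p (Ψ + B) + nr2 p B) := by
    have a1 := lw_two hp hp2 hΨ.1 hB.1
    have a2 := lw_two hp hp2 hΨ.2 hB.2
    have e : nr2 p (Ψ + B) = nrm p (Ψ.1 + B.1) + nrm p (Ψ.2 + B.2) := rfl
    rw [e]
    unfold nr2
    linarith
  have e2 : (((1 + k : ℕ) : ℝ)) = (k : ℝ) + 1 := by push_cast; ring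
  have e3 : 1 + k = k + 1 := by ring
  rw [e2, e3]
  linarith

end Pool.Agent.UC
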