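import Pool.Agent.Lib.MP_830418_an.Full60.P_chn
import Pool.Agent.Lib.MP_830418_an.Full60.P_cut
import Pool.Agent.Lib.MP_830418_an.Full60.P_exp
import Pool.Agent.Lib.MP_830418_an.Full60.P_gen
import Pool.Agent.Lib.MP_830418_an.Full60.P_lwr
import Pool.Agent.Lib.MP_830418_an.Full60.P_nmu
import Pool.Agent.Lib.MP_830418_an.Full60.P_rep
import Pool.Agent.Lib.MP_830418_an.Full60.P_sgl
import Pool.Agent.Lib.MP_830418_an.Full60.P_stp
import Pool.Agent.Lib.MP_830418_an.Full60.P_tv
import Pool.Agent.Lib.MP_830418_an.Full60.P_up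
import Pool.Agent.Lib.MP_830418_an.Full60.P_xtr
import Pool.Agent.Lib.MP_830418_an.Full60.Asm

/-!
Theorem 4 with all pieces filled in.
-/

namespace Pool.Agent.UC

universe u

theorem t_cut : S_cut.{u} := p_cut p_sgl

theorem t_stp : S_stp.{u} := p_stp t_cut p_exp p_gen

theorem t_tv : S_tv.{u} := p_tv t_cut

/-- the case of powers of one contraction -/
theorem t_U : S_U.{u} := asm_U p_rep p_up p_chn t_stp t_tv p_lwr p_nmu p_xtr

end Pool.Agent.UC
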